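import Mathlib
import Pool.Agent.L7h19.RP.Stm3

/-!
# Project IS (helper19, MP_157626_nt): families `y² = x (x² + a(t) x + b(t))`

Statements of independent parts: `S_DES` (2-descent by the isogeny with kernel `(0,0)`), `S_RK`
(the rank bound for values), `S_EXP` (expansion), `S_TK` (variance of the number of prime factors).
-/

set_option autoImplicit false

namespace Pool.Agent.L7h19.IS

open Finset Polynomial Pool.Agent.W262.RK Pool.Agent.W307.RT Pool.Agent.L7h19.RP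
open Pool.Agent.L7h19.RP.AT (gm)

/-- the curve `y² = x (x² + a x + b)` -/
def EI (a b : ℤ) : WeierstrassCurve ℚ := ⟨0, (a : ℚ), 0, (b : ℚ), 0⟩

/-- the number of prime factors of an integer -/
def om (n : ℤ) : ℕ := n.natAbs.primeFactors.card

/-- the number of the divisors of `m` which are squares modulo the primes which divide `n` -/
def N1 (m n : ℕ) : ℕ :=
  (m.divisors.filter (fun d : ℕ => ∀ p ∈ n.primeFactors, jacobiSym (d : ℤ) p = 1)).card

/-- **S_DES**: descent by the two isogenies. The isogeny `φ` is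
`Pool.Agent.V11306.CM.phiHom` (`Pool/Agent/V11306/CMb.lean`), the theorem of Mordell and Weil is
`Pool.Agent.Q286.EQ.mordell_weil`. With `A = E(ℚ)`, `A' = E'(ℚ)` for `E' : y² = x (x² - 2 a x + c)`,
`c = a² - 4 b`: `2 ^ rank ≤ |A / 2 A| ≤ |A / φ' A'| |A' / φ A|`. Classes: `x = d M² / e²` with `d`
squarefree (with sign), `d ∣ b`, `4 d N² = (2 d M² + a e²)² - c e⁴`, so that `(d / p) = 1` if `p`
divides `c` exactly once and does not divide `b`; if `x(P) x(Q)` is a square (`b` instead of `x` for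
the point `(0,0)`) then `P - Q ∈ φ' A'`. For given sign and given part of `d` prime to `m` there are at most
`N1 m n` possible `d` (the conditions `(d₁ / p) = given` for `d₁ ∣ m`, `p ∣ n`; coset argument, or the
character sum `∑_{d₁} ∏_{p ∣ n} (1 ± (d₁ / p)) / 2`). The second factor is the same for `(-2 a, c)` instead
of `(a, b)`: `(-2 a)² - 4 c = 16 b`. -/
def S_DES : Prop := ∀ (a b : ℤ) (m n : ℕ), b ≠ 0 → a ^ 2 - 4 * b ≠ 0 → Odd m → Odd n →
  Squarefree m → Squarefree n →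
  (∀ p : ℕ, p.Prime → p ∣ m → (p : ℤ) ∣ b ∧ ¬ (p : ℤ) ^ 2 ∣ b ∧ ¬ (p : ℤ) ∣ a ^ 2 - 4 * b) →
  (∀ p : ℕ, p.Prime → p ∣ n →
    (p : ℤ) ∣ a ^ 2 - 4 * b ∧ ¬ (p : ℤ) ^ 2 ∣ a ^ 2 - 4 * b ∧ ¬ (p : ℤ) ∣ b) →
  2 ^ Module.finrank ℤ (EI a b).toAffine.Point ≤
    (2 ^ ((b.natAbs.primeFactors.filter (fun p => ¬ p ∣ m)).card + 1) * N1 m n) *
    (2 ^ (((a ^ 2 - 4 * b).natAbs.primeFactors.filter (fun p => ¬ p ∣ n)).card + 1) * N1 n m)

variable {J : Type} [Fintype J] [DecidableEq J]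

/-- the product of the parts of one of the two types -/
def pT (cB : J → Bool) (s : J → ℕ) (r : Bool) : ℕ := ∏ j ∈ univ.filter (fun j => cB j = r), s j

/-- the majorant -/
noncomputable def GG (m n : ℕ) : ℝ := √((N1 m n : ℝ) * (N1 n m : ℝ) /
  (2 : ℝ) ^ |((m.primeFactors.card : ℕ) : ℝ) - ((n.primeFactors.card : ℕ) : ℝ)|)

/-- **S_RK**: the bound for values, from `S_DES` with `m = pT cB (S1 z y x) true`,
`n = pT cB (S1 z y x) false`. Compare `badV` and `stRank` in `Pool/Agent/L7h89/RP/StRank.lean`: at most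
`z` primes are `≤ z`, at most `D k` primes `> y` divide `x j`. -/
def S_RK : Prop := ∀ (J : Type) [Fintype J] [DecidableEq J] (cB : J → Bool) (a β γ : ℤ) (x : J → ℤ)
  (z y X k D : ℕ), 2 ≤ z → Gd z x → β ≠ 0 → γ ≠ 0 →
  (∀ p : ℕ, p.Prime → z < p → ¬ (p : ℤ) ∣ β ∧ ¬ (p : ℤ) ∣ γ) →
  a ^ 2 - 4 * (β * ∏ j ∈ univ.filter (fun j => cB j = true), x j) =
    γ * ∏ j ∈ univ.filter (fun j => cB j = false), x j →
  (∀ j, (x j).natAbs ≤ X ^ D) → 1 ≤ X → 1 ≤ y → X < (y + 1) ^ k →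
  (2 : ℝ) ^ (((Module.finrank ℤ (EI a (β * ∏ j ∈ univ.filter (fun j => cB j = true), x j)).toAffine.Point :
      ℕ) - |((om (β * ∏ j ∈ univ.filter (fun j => cB j = true), x j) : ℕ) : ℝ) -
        ((om (γ * ∏ j ∈ univ.filter (fun j => cB j = false), x j) : ℕ) : ℝ)|) / 2 : ℝ) ≤
    4 ^ (z + 2) * (4 ^ (D * Fintype.card J)) ^ k * 4 ^ (∑ j, (S2 z y x j).primeFactors.card) *
      GG (pT cB (S1 z y x) true) (pT cB (S1 z y x) false)

/-- the nontrivial part of the character sum for `N1 m n` -/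
noncomputable def R1 (m n : ℕ) : ℝ :=
  (∑ d ∈ m.divisors, ∑ e ∈ n.divisors.erase 1, Jr (d : ℤ) e) / 2 ^ n.primeFactors.card

/-- the symbols: `(d i / d k)` if `i` is of type `true`, `k` of type `false`, both with mark `true` -/
def LI (cB : J → Bool) (i k : J × Bool × Bool) : Bool := cB i.1 && !(cB k.1) && i.2.1 && k.2.1

/-- the weights of the types -/
noncomputable def wI (cB : J → Bool) (i : J × Bool × Bool) : ℝ := if cB i.1 = true then 1 / 2 else 1 / 4

/-- **S_EXP**: the expansion. Each prime which divides `s j` gets a label `(j, ε, h)`: `ε = true` if it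
divides `d` (`cB j = true`) or `e` (`cB j = false`), `h` arbitrary (this splits the weights `1` and `1 / 2`
into two halves). For `sum_Tup` and labels see `Pool/Agent/W762/RK2/EXP4a.lean`, `prod_gm` is in
`Pool/Agent/L7h19/RP/Exp.lean`. -/
def S_EXP : Prop := ∀ (J : Type) [Fintype J] [DecidableEq J] (cB : J → Bool) (f : J → ℤ[X])
  (c z y : ℕ), 2 ≤ z → c < z →
  ∑ s ∈ Tup J z y, R1 (pT cB s true) (pT cB s false) * ∏ j, gm (gaw (f j) 1 c) (s j) =
  ∑ d ∈ (Tup (J × Bool × Bool) z y).filter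
      (fun d => ∃ i : J × Bool × Bool, cB i.1 = false ∧ i.2.1 = true ∧ d i ≠ 1),
    (∏ i : J × Bool × Bool, gm (gaw (f i.1) (wI cB i) c) (d i)) * Sym (LI cB) (fun _ => 1) d

/-- **S_TK**: the number of prime factors of `f(t)` in short intervals. With `y = X ^ δ` the primes
`> y` which divide `f(t) ≠ 0` are boundedly many; for the primes `≤ y` use the first two moments and
`∑_{p ≤ y} ρ(p) / p = log log y + O(1)` (see `Pool/Agent/H474R2/PG`). -/
def S_TK : Prop := ∀ (f : ℤ[X]) (ε : ℝ), Irreducible f → 0 < f.natDegree → 0 < ε → ∃ C : ℝ,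
  ∀ (X : ℕ) (u v : ℤ), 3 ≤ X → u.natAbs ≤ X → v.natAbs ≤ X → (X : ℝ) ^ ε ≤ (v : ℝ) - u →
    ∑ t ∈ (Icc u v).filter (fun t : ℤ => f.eval t ≠ 0),
      |((om (f.eval t) : ℕ) : ℝ) - Real.log (Real.log X)| ≤
      C * ((v : ℝ) - u) * √(Real.log (Real.log X))

end Pool.Agent.L7h19.IS
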