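import Mathlib
import Pool.Agent.L7h19.IS.Stm

/-!
# Project IS: the second expansion (for the average of `2 ^ (rank - |ω(b) - ω(c)|)`)
-/

set_option autoImplicit false

namespace Pool.Agent.L7h19.IS

open Finset Polynomial Pool.Agent.W262.RK Pool.Agent.W307.RT Pool.Agent.L7h19.RP
open Pool.Agent.L7h19.RP.AT (gm)

/-- the symbols of the product `R1 m n * R1 n m`: `(d i / d k)` if `i` is of type `true`, `k` of type
`false`, both with first mark `true`; and if `i` is of type `false`, `k` of type `true`, both with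
second mark `true` -/
def L2 {J : Type} (cB : J → Bool) (i k : J × Bool × Bool) : Bool :=
  (cB i.1 && !(cB k.1) && i.2.1 && k.2.1) || (!(cB i.1) && cB k.1 && i.2.2 && k.2.2)

/-- **S_EXP2**: the expansion of the product. With `m = pT cB s true`, `n = pT cB s false`,
`R1 m n * R1 n m = 2 ^ (- ω(m) - ω(n)) ∑_{d, d' ∣ m, d' ≠ 1} ∑_{e, e' ∣ n, e ≠ 1} (d / e) (e' / d')`.
Each prime which divides `s j` gets the label `(j, x, x')`: if `cB j = true`, then `x` iff it divides
`d`, `x'` iff it divides `d'`; if `cB j = false`, then `x` iff it divides `e`, `x'` iff it divides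
`e'`. All weights are `1 / 2`. Compare `S_EXP` (`Pool.Agent.L7h65.IS.s_EXP`). -/
def S_EXP2 : Prop := ∀ (J : Type) [Fintype J] [DecidableEq J] (cB : J → Bool) (f : J → ℤ[X])
  (c z y : ℕ), 2 ≤ z → c < z →
  ∑ s ∈ Tup J z y, R1 (pT cB s true) (pT cB s false) * R1 (pT cB s false) (pT cB s true) *
    ∏ j, gm (gaw (f j) 1 c) (s j) =
  ∑ d ∈ (Tup (J × Bool × Bool) z y).filter
      (fun d => (∃ i : J × Bool × Bool, cB i.1 = false ∧ i.2.1 = true ∧ d i ≠ 1) ∧
        ∃ i : J × Bool × Bool, cB i.1 = true ∧ i.2.2 = true ∧ d i ≠ 1),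
    (∏ i : J × Bool × Bool, gm (gaw (f i.1) (1 / 2) c) (d i)) * Sym (L2 cB) (fun _ => 1) d

end Pool.Agent.L7h19.IS
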