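import Mathlib
import Pool.Agent.L7h19.RP.A8

/-!
# Project IS: sums of products of Jacobi symbols over the tuples whose support satisfies a condition
-/

set_option autoImplicit false

namespace Pool.Agent.L7h19.IS

open Finset Pool.Agent.W262.RK Pool.Agent.L7h19.RP Pool.Agent.L7h19.RP.AT

variable {ι : Type} [Fintype ι] [DecidableEq ι]

variable {b γ : ι → ℕ → ℝ} {w : ι → ℝ} {L : ι → ι → Bool} {z B : ℕ} {C : ℝ}

open Pool.Agent.W262.RK.AT (lg VV YY cl cell cell_sub cell_zero cell_one cell_two cell_three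
  three_le_VV VV_le_YY one_le_log_VV VV_ge VV_le log_YY_ge log_YY_le log_VV_pow_le exp_neg_pow
  patterns)

/-- the variables of `U` which are unlinked with all the variables of `S` -/
def UL (L : ι → ι → Bool) (U S : Finset ι) : Finset ι := U.filter (fun i => ∀ k ∈ S, L i k = L k i)

/-- the conditions -/
structure HH2 (b : ι → ℕ → ℝ) (w : ι → ℝ) (L : ι → ι → Bool) (Q : Finset ι → Prop) (K : ℝ)
    (z A : ℕ) (ε C1 δ : ℝ) : Prop where
  L0 : ∀ i, L i i = false
  hK0 : 0 ≤ K
  hK : ∀ U S : Finset ι, Disjoint U S → (∀ i ∈ U, ∀ j ∈ U, L i j = L j i) → Q (U ∪ S) →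
    ∑ i ∈ UL L U S, w i ≤ K ∧ (S.Nonempty → ∑ i ∈ UL L U S, w i < K)
  δ0 : 0 < δ
  δK : ∀ U : Finset ι, ∑ i ∈ U, w i < K → ∑ i ∈ U, w i + δ ≤ K
  ε0 : 0 ≤ ε
  C10 : 0 ≤ C1
  εA : (A : ℝ) * (ε * (Fintype.card ι : ℝ) ^ 2) ≤ δ / 2
  H1 : ∀ (i : ι) (y r : ℕ) (s : Bool), z < y → 1 < r → Squarefree r →
    (∀ p : ℕ, p.Prime → p ∣ r → z < p) →
    ∑ p ∈ PS z y, b i p * (Jr p r * x4 s p) ≤ ε * Real.log r + C1

/-- the numerical estimate with an arbitrary power -/
lemma num_le' (A M q : ℕ) {ε δ C1 : ℝ} (hε : 0 ≤ ε) (hδ : 0 < δ)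
    (h : (A : ℝ) * (ε * M ^ 2) ≤ δ / 2) :
    ∃ C' : ℝ, 0 ≤ C' ∧ ∀ l : ℝ, 1 ≤ l →
      Real.exp (M * (ε * (M * Real.log (VV A l)) + C1)) * Real.log (VV A l) ^ q ≤
        C' * l ^ δ := by
  obtain ⟨C2, hC2, h2⟩ := log_VV_pow_le A q (half_pos hδ)
  refine ⟨Real.exp (M * C1) * (5 : ℝ) ^ (ε * M ^ 2) * C2, by positivity, fun l hl => ?_⟩
  have hl0 : 0 < l := by linarith
  have hV0 : (0 : ℝ) < VV A l := by
    have := three_le_VV A l
    exact_mod_cast (by omega : 0 < VV A l)
  have e1 : Real.exp (M * (ε * (M * Real.log (VV A l)) + C1)) =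
      Real.exp (M * C1) * (VV A l : ℝ) ^ (ε * M ^ 2) := by
    rw [Real.rpow_def_of_pos hV0, ← Real.exp_add]
    congr 1
    ring
  have hεM : 0 ≤ ε * (M : ℝ) ^ 2 := by positivity
  have e2 : (VV A l : ℝ) ^ (ε * M ^ 2) ≤ (5 : ℝ) ^ (ε * M ^ 2) * l ^ (δ / 2) := by
    calc (VV A l : ℝ) ^ (ε * M ^ 2) ≤ (5 * l ^ A) ^ (ε * (M : ℝ) ^ 2) :=
          Real.rpow_le_rpow hV0.le (VV_le hl) hεM
      _ = (5 : ℝ) ^ (ε * M ^ 2) * l ^ ((A : ℝ) * (ε * M ^ 2)) := by
          rw [Real.mul_rpow (by norm_num) (by positivity), ← Real.rpow_natCast l A,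
            ← Real.rpow_mul hl0.le]
      _ ≤ _ := by
          refine mul_le_mul_of_nonneg_left ?_ (by positivity)
          exact Real.rpow_le_rpow_of_exponent_le hl h
  rw [e1]
  have h3 := h2 l hl
  have hlV : 0 ≤ Real.log (VV A l) ^ q := by
    have := one_le_log_VV A l
    positivity
  calc Real.exp (M * C1) * (VV A l : ℝ) ^ (ε * M ^ 2) * Real.log (VV A l) ^ q
      ≤ Real.exp (M * C1) * ((5 : ℝ) ^ (ε * M ^ 2) * l ^ (δ / 2)) * (C2 * l ^ (δ / 2)) := by
        gcongr
    _ = Real.exp (M * C1) * (5 : ℝ) ^ (ε * M ^ 2) * C2 * (l ^ (δ / 2) * l ^ (δ / 2)) := by ring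
    _ = _ := by rw [← Real.rpow_add hl0, add_halves]

/-- the ranges of the variables, with the ranges of the variables in `A'` (large, linked with a small
variable) replaced: `r k = true`: all, `r k = false`: small -/
noncomputable def tr (z y V Y : ℕ) (π : ι → Fin 4) (A' : Finset ι) (r : ι → Bool) (k : ι) :
    Finset ℕ :=
  if k ∈ A' then (if r k then (PP z y).divisors else (PP z y).divisors.filter (fun d => d ≤ V))
  else cell z y V Y (π k)

lemma tr_sub (z y V Y : ℕ) (π : ι → Fin 4) (A' : Finset ι) (r : ι → Bool) (k : ι) :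
    tr z y V Y π A' r k ⊆ (PP z y).divisors := by
  unfold tr
  split_ifs
  · exact Subset.refl _
  · exact filter_subset _ _
  · exact cell_sub _ _ _ _ _

/-- a pattern with a small variable -/
lemma small_case (hFr : StFree) (hB : Bd b γ w z B C) {g : ℝ} (hg : 0 ≤ g)
    (hγg : ∀ i (p : ℕ), p.Prime → z < p → γ i p ≤ g / p) (hz : 2 * (Fintype.card ι * g) ≤ z)
    (hBg : 2 * (Fintype.card ι * g) ≤ B) {Q : Finset ι → Prop} {K ε C1 δ : ℝ} {A : ℕ}
    (hN : HH2 b w L Q K z A ε C1 δ) (π : ι → Fin 4) (h3 : ∀ k, π k ≠ 3)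
    (hun : ∀ i j, π i = 2 → π j = 2 → L i j = L j i) {AA : Finset ι}
    (hA2 : ∀ i ∈ AA, π i = 2) (hAl : ∀ i ∈ AA, ∃ k, π k = 1 ∧ L i k ≠ L k i)
    (hS : ∑ k ∈ univ.filter (fun k => π k = 2 ∧ k ∉ AA), w k < K) :
    ∀ A' ⊆ AA, ∀ r : ι → Bool, ∃ C' : ℝ, ∀ y, z < y →
      |∑ d ∈ Fintype.piFinset (tr z y (VV A (Real.log y)) (YY A (Real.log y)) π (AA \ A') r),
        HH b L (fun _ => 1) d| ≤ C' * (Real.log y) ^ K := by
  classical
  have hC0 : 0 ≤ C := zero_le_one.trans hB.C1
  set M := Fintype.card ι with hM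
  intro A'
  induction A' using Finset.induction_on with
  | empty =>
    intro _ r
    rw [sdiff_empty]
    set S := ∑ k ∈ univ.filter (fun k => π k = 2 ∧ k ∉ AA), w k with hSdef
    have hSδ : S + δ ≤ K := hN.δK _ hS
    obtain ⟨C2, hC2, h2⟩ := num_le' (C1 := C1) A M (M + M) hN.ε0 hN.δ0 hN.εA
    refine ⟨2 ^ M * C ^ M * C ^ M * C2, fun y hy => ?_⟩
    have hly := one_le_log hB.z2 hy
    have hly0 : 0 < Real.log y := by linarith
    have h2y := h2 (Real.log y) hly
    set l := Real.log y with hl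
    set V := VV A l with hV
    set Y := YY A l with hY
    have hV3 : 3 ≤ V := three_le_VV A l
    have hlV : 1 ≤ Real.log V := one_le_log_VV A l
    set F := AA.filter (fun k => r k = true) with hF
    set t := tr z y V Y π AA r with ht
    have htF : ∀ k ∈ F, t k = (PP z y).divisors := by
      intro k hk
      rw [hF, mem_filter] at hk
      rw [ht]
      unfold tr
      rw [if_pos hk.1, if_pos hk.2]
    have htn : ∀ k ∉ AA, t k = cell z y V Y (π k) := by
      intro k hk
      rw [ht]
      unfold tr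
      rw [if_neg hk]
    have htA : ∀ k ∈ AA, k ∉ F → t k = (PP z y).divisors.filter (fun d => d ≤ V) := by
      intro k hk hkF
      rw [ht]
      unfold tr
      rw [if_pos hk, if_neg fun h => hkF (by rw [hF, mem_filter]; exact ⟨hk, h⟩)]
    have hnA : ∀ k, π k = 1 → k ∉ AA := fun k hk h => by
      rw [hA2 k h] at hk
      exact absurd hk (by decide)
    have h1 := free_case (N := ∅) hFr hB hg hγg hz hBg hN.L0 hN.ε0 hN.C10 hN.H1
      (fun i hi => absurd hi (notMem_empty _))
      (F := F) (fun i hi j hj => hun i j (hA2 i (mem_filter.1 hi).1) (hA2 j (mem_filter.1 hj).1))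
      hy hV3 (t := t) (tr_sub _ _ _ _ _ _ _) htF
      (fun i hi k _ hik m hm => by
        have hi2 := hA2 i (mem_filter.1 hi).1
        have hk2 : π k ≠ 2 := fun h => hik (hun i k hi2 h)
        have hkA : k ∉ AA := fun h => hk2 (hA2 k h)
        rw [htn k hkA] at hm
        exact cell_small hV3 hk2 (h3 k) hm)
      (fun i hi _ => by
        obtain ⟨k, hk1, hik⟩ := hAl i (mem_filter.1 hi).1
        refine ⟨k, fun h => hnA k hk1 (mem_filter.1 h).1, hik, fun m hm => ?_⟩
        rw [htn k (hnA k hk1), hk1] at hm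
        exact (cell_one hm).1)
    -- the product over the other variables
    have hnn : ∀ k, 0 ≤ ∑ m ∈ t k, gm (γ k) m * hq B m := fun k =>
      sum_nonneg fun m hm => gh_nonneg hB k (tr_sub _ _ _ _ _ _ _ _ hm)
    have hP : ∏ k ∈ univ \ F, ∑ m ∈ t k, gm (γ k) m * hq B m ≤
        (C * Real.log V) ^ M * (C ^ M * l ^ S * (Real.log V) ^ M) := by
      have e0 : (univ : Finset ι) \ F = (AA \ F) ∪ (univ \ AA) := by
        ext k
        simp only [mem_sdiff, mem_univ, true_and, mem_union]
        constructor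
        · intro h
          by_cases hk : k ∈ AA
          · exact Or.inl ⟨hk, h⟩
          · exact Or.inr hk
        · rintro (h | h)
          · exact h.2
          · exact fun h' => h (mem_filter.1 h').1
      have hdj : Disjoint (AA \ F) (univ \ AA) := by
        rw [disjoint_left]
        intro k hk hk'
        exact (mem_sdiff.1 hk').2 (mem_sdiff.1 hk).1
      rw [e0, prod_union hdj]
      refine mul_le_mul ?_ ?_ (prod_nonneg fun k _ => hnn k) (by positivity)
      · have hCl : 1 ≤ C * Real.log V := by nlinarith [hB.C1]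
        calc ∏ k ∈ AA \ F, ∑ m ∈ t k, gm (γ k) m * hq B m ≤ ∏ _k ∈ AA \ F, (C * Real.log V) := by
              refine prod_le_prod (fun k _ => hnn k) fun k hk => ?_
              rw [htA k (mem_sdiff.1 hk).1 (mem_sdiff.1 hk).2]
              refine (hB.F2 k y V hy (by omega)).trans ?_
              refine mul_le_mul_of_nonneg_left ?_ hC0
              calc (Real.log V) ^ (w k) ≤ (Real.log V) ^ (1 : ℝ) :=
                    Real.rpow_le_rpow_of_exponent_le hlV (hB.w1 k)
                _ = Real.log V := Real.rpow_one _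
          _ = (C * Real.log V) ^ (AA \ F).card := by rw [prod_const]
          _ ≤ _ := pow_le_pow_right₀ hCl
              ((card_le_card (subset_univ _)).trans (le_of_eq card_univ))
      · have h5 := prod_low hB hy hV3 (Y := Y) π (univ \ AA) (fun k _ => h3 k)
        have e1 : (univ \ AA).filter (fun k => π k = 2) =
            univ.filter (fun k => π k = 2 ∧ k ∉ AA) := by
          ext k
          simp only [mem_filter, mem_sdiff, mem_univ, true_and]
          tauto
        rw [e1, ← hSdef] at h5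
        refine le_trans (le_of_eq ?_) h5
        exact prod_congr rfl fun k hk => by rw [htn k (mem_sdiff.1 hk).2]
    calc |∑ d ∈ Fintype.piFinset t, HH b L (fun _ => 1) d|
        ≤ 2 ^ M * Real.exp (M * (ε * (M * Real.log V) + C1)) *
          ((C * Real.log V) ^ M * (C ^ M * l ^ S * (Real.log V) ^ M)) :=
          h1.trans (mul_le_mul_of_nonneg_left hP (by positivity))
      _ = 2 ^ M * C ^ M * C ^ M * l ^ S * (Real.exp (M * (ε * (M * Real.log V) + C1)) *
          (Real.log V) ^ (M + M)) := by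
          rw [mul_pow, pow_add]
          ring
      _ ≤ 2 ^ M * C ^ M * C ^ M * l ^ S * (C2 * l ^ δ) :=
          mul_le_mul_of_nonneg_left h2y (by positivity)
      _ = 2 ^ M * C ^ M * C ^ M * C2 * (l ^ S * l ^ δ) := by ring
      _ = 2 ^ M * C ^ M * C ^ M * C2 * l ^ (S + δ) := by rw [Real.rpow_add hly0]
      _ ≤ _ := by
          apply mul_le_mul_of_nonneg_left _ (by positivity)
          exact Real.rpow_le_rpow_of_exponent_le hly hSδ
  | insert i A' hi ih =>
    intro hsub r
    have hiA : i ∈ AA := hsub (mem_insert_self i A')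
    have hsub' : A' ⊆ AA := fun k hk => hsub (mem_insert_of_mem hk)
    obtain ⟨Ca, hCa⟩ := ih hsub' (Function.update r i true)
    obtain ⟨Cb, hCb⟩ := ih hsub' (Function.update r i false)
    obtain ⟨Cc, hCc0, hCc⟩ := tail_gen (L := L) (κ := fun _ => 1) hB A hN.hK0 i
    refine ⟨Ca + Cb + Cc, fun y hy => ?_⟩
    have ha := hCa y hy
    have hb := hCb y hy
    have hc := hCc y hy
    set V := VV A (Real.log y) with hV
    set Y := YY A (Real.log y) with hY
    have hV3 : 3 ≤ V := three_le_VV A _
    have hVY : V ≤ Y := VV_le_YY A _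
    set D := (PP z y).divisors with hD
    set A1 := D.filter (fun d => d ≤ V) with hA1
    set A3 := D.filter (fun d => Y < d) with hA3
    set t := tr z y V Y π (AA \ insert i A') r with ht
    have hti : t i = lg z y V Y := by
      rw [ht]
      unfold tr
      rw [if_neg (fun h => (mem_sdiff.1 h).2 (mem_insert_self i A')), hA2 i hiA]
      exact cell_two (by omega)
    have hother : ∀ (s : Bool) (k : ι), k ≠ i →
        tr z y V Y π (AA \ A') (Function.update r i s) k = t k := by
      intro s k hk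
      rw [ht]
      unfold tr
      have e1 : k ∈ AA \ A' ↔ k ∈ AA \ insert i A' := by
        rw [mem_sdiff, mem_sdiff, mem_insert]
        tauto
      rw [Function.update_of_ne hk]
      exact if_congr e1 rfl rfl
    have hself : ∀ s : Bool, tr z y V Y π (AA \ A') (Function.update r i s) i =
        if s then D else A1 := by
      intro s
      unfold tr
      rw [if_pos (mem_sdiff.2 ⟨hiA, hi⟩), Function.update_self]
    have hta : tr z y V Y π (AA \ A') (Function.update r i true) = Function.update t i D := by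
      funext k
      by_cases hk : k = i
      · rw [hk, Function.update_self, hself true]
        rfl
      · rw [Function.update_of_ne hk, hother true k hk]
    have htb : tr z y V Y π (AA \ A') (Function.update r i false) = Function.update t i A1 := by
      funext k
      by_cases hk : k = i
      · rw [hk, Function.update_self, hself false]
        rfl
      · rw [Function.update_of_ne hk, hother false k hk]
    rw [hta] at ha
    rw [htb] at hb
    have hsubt : ∀ k, Function.update t i A3 k ⊆ D := by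
      intro k
      by_cases hk : k = i
      · rw [hk, Function.update_self]
        exact filter_subset _ _
      · rw [Function.update_of_ne hk]
        exact tr_sub _ _ _ _ _ _ _ _
    have hc' := hc (Function.update t i A3) hsubt (fun m hm => by
      rw [Function.update_self] at hm
      exact (mem_filter.1 hm).2)
    have hsplit := sum_split t i D A1 A3 (HH b L (fun _ => 1))
      (by
        rw [hti, disjoint_left]
        intro m hm hm'
        have h5 := (mem_filter.1 hm).2
        have h6 := (mem_filter.1 hm').2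
        omega)
      (by
        rw [hti, disjoint_left]
        intro m hm hm'
        have h6 := (mem_filter.1 hm').2
        rcases mem_union.1 hm with h | h
        · have h5 := (mem_filter.1 h).2
          omega
        · have h5 := (mem_filter.1 h).2
          omega)
      (by
        rw [hti]
        ext m
        simp only [mem_union, hA1, hA3, mem_filter, lg]
        constructor
        · rintro ((h | h) | h)
          · exact h.1
          · exact h.1
          · exact h.1
        · intro h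
          by_cases h5 : m ≤ V
          · exact Or.inl (Or.inr ⟨h, h5⟩)
          · by_cases h6 : m ≤ Y
            · exact Or.inl (Or.inl ⟨h, by omega, h6⟩)
            · exact Or.inr ⟨h, by omega⟩)
    rw [hsplit]
    have a1 := abs_sub (∑ d ∈ Fintype.piFinset (Function.update t i D), HH b L (fun _ => 1) d -
      ∑ d ∈ Fintype.piFinset (Function.update t i A1), HH b L (fun _ => 1) d)
      (∑ d ∈ Fintype.piFinset (Function.update t i A3), HH b L (fun _ => 1) d)
    have a2 := abs_sub (∑ d ∈ Fintype.piFinset (Function.update t i D), HH b L (fun _ => 1) d)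
      (∑ d ∈ Fintype.piFinset (Function.update t i A1), HH b L (fun _ => 1) d)
    rw [add_mul, add_mul]
    linarith

/-- all patterns -/
lemma pat_h (hFr : StFree) (hB : Bd b γ w z B C) {g F C2 : ℝ} {E2 : ℕ} (hC2 : 0 ≤ C2)
    (h2 : BWg g F C2 E2) (hg : 0 ≤ g)
    (hγg : ∀ i (p : ℕ), p.Prime → z < p → γ i p ≤ g / p) (hz : 2 * (Fintype.card ι * g) ≤ z)
    (hBg : 2 * (Fintype.card ι * g) ≤ B) (hF : (Fintype.card ι : ℝ) ≤ F)
    {Q : Finset ι → Prop} {K ε C1 δ : ℝ}
    (hN : HH2 b w L Q K z (6 * (Fintype.card ι + 2 * E2)) ε C1 δ) (π : ι → Fin 4)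
    (hQ : Q (univ.filter (fun k => π k ≠ 0))) :
    ∃ C' : ℝ, ∀ y, z < y →
      |∑ d ∈ Fintype.piFinset (fun k => cell z y (VV (6 * (Fintype.card ι + 2 * E2)) (Real.log y))
        (YY (6 * (Fintype.card ι + 2 * E2)) (Real.log y)) (π k)),
        HH b L (fun _ => 1) d| ≤ C' * (Real.log y) ^ K := by
  classical
  set A := 6 * (Fintype.card ι + 2 * E2) with hA
  by_cases h3 : ∃ k, π k = 3
  · obtain ⟨k, hk⟩ := h3
    exact tail_case hB A hN.hK0 π hk
  push Not at h3
  by_cases hl : ∃ i j, π i = 2 ∧ π j = 2 ∧ L i j ≠ L j i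
  · obtain ⟨i, j, hi, hj, hij⟩ := hl
    exact link_case hB hC2 h2 hg hγg hF hN.L0 le_rfl hN.hK0 π hi hj hij
  push Not at hl
  set U := univ.filter (fun k => π k = 2) with hU
  set S := univ.filter (fun k => π k = 1) with hS
  have key : ∀ r : Fin 4, r ≠ 3 → (r ≠ 0 ↔ r = 2 ∨ r = 1) := by decide
  have hUS : univ.filter (fun k => π k ≠ 0) = U ∪ S := by
    ext k
    rw [mem_filter, mem_union, hU, hS, mem_filter, mem_filter, key _ (h3 k)]
    constructor
    · rintro ⟨h4, h5 | h5⟩
      · exact Or.inl ⟨h4, h5⟩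
      · exact Or.inr ⟨h4, h5⟩
    · rintro (h5 | h5)
      · exact ⟨h5.1, Or.inl h5.2⟩
      · exact ⟨h5.1, Or.inr h5.2⟩
  rw [hUS] at hQ
  have hdj : Disjoint U S := by
    rw [disjoint_left]
    intro k hk hk'
    rw [hU, mem_filter] at hk
    rw [hS, mem_filter, hk.2] at hk'
    exact absurd hk'.2 (by decide)
  obtain ⟨hle, hlt⟩ := hN.hK U S hdj
    (fun i hi j hj => hl i j (mem_filter.1 hi).2 (mem_filter.1 hj).2) hQ
  by_cases hSn : S.Nonempty
  · set AA := U \ UL L U S with hAA
    have hA2 : ∀ i ∈ AA, π i = 2 := fun i hi => (mem_filter.1 (mem_sdiff.1 hi).1).2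
    have hAl : ∀ i ∈ AA, ∃ k, π k = 1 ∧ L i k ≠ L k i := by
      intro i hi
      rw [hAA, mem_sdiff] at hi
      by_contra hcon
      push Not at hcon
      apply hi.2
      unfold UL
      rw [mem_filter]
      exact ⟨hi.1, fun k hk => hcon k (mem_filter.1 hk).2⟩
    have hS' : ∑ k ∈ univ.filter (fun k => π k = 2 ∧ k ∉ AA), w k < K := by
      have e1 : univ.filter (fun k => π k = 2 ∧ k ∉ AA) = UL L U S := by
        ext k
        rw [mem_filter, hAA, mem_sdiff]
        constructor
        · rintro ⟨_, h4, h5⟩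
          by_contra hcon
          exact h5 ⟨by rw [hU, mem_filter]; exact ⟨mem_univ _, h4⟩, hcon⟩
        · intro h4
          have h5 := (mem_filter.1 h4).1
          exact ⟨mem_univ _, (mem_filter.1 h5).2, fun h6 => h6.2 h4⟩
      rw [e1]
      exact hlt hSn
    obtain ⟨C', hC'⟩ := small_case hFr hB hg hγg hz hBg hN π h3 (fun i j h5 h6 => hl i j h5 h6)
      hA2 hAl hS' AA (Subset.refl _) (fun _ => true)
    refine ⟨C', fun y hy => ?_⟩
    have h4 := hC' y hy
    rw [sdiff_self] at h4
    refine le_trans (le_of_eq ?_) h4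
    congr 2
  · rw [not_nonempty_iff_eq_empty] at hSn
    have hUL : UL L U S = U := by
      unfold UL
      rw [hSn]
      exact filter_true_of_mem fun i _ k hk => absurd hk (notMem_empty _)
    rw [hUL] at hle
    refine diag_case hB A π (fun k => ?_) hle
    have h5 : π k ≠ 1 := fun h => by
      have : k ∈ S := by rw [hS, mem_filter]; exact ⟨mem_univ _, h⟩
      rw [hSn] at this
      exact absurd this (notMem_empty _)
    have key' : ∀ r : Fin 4, r ≠ 3 → r ≠ 1 → r = 0 ∨ r = 2 := by decide
    exact key' _ (h3 k) h5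

/-- **the bound, with a condition on the support** -/
theorem at_h (hFr : StFree) (hB : Bd b γ w z B C) {g F C2 : ℝ} {E2 : ℕ} (hC2 : 0 ≤ C2)
    (h2 : BWg g F C2 E2) (hg : 0 ≤ g)
    (hγg : ∀ i (p : ℕ), p.Prime → z < p → γ i p ≤ g / p) (hz : 2 * (Fintype.card ι * g) ≤ z)
    (hBg : 2 * (Fintype.card ι * g) ≤ B) (hF : (Fintype.card ι : ℝ) ≤ F)
    {Q : Finset ι → Prop} [DecidablePred Q] {K ε C1 δ : ℝ}
    (hN : HH2 b w L Q K z (6 * (Fintype.card ι + 2 * E2)) ε C1 δ) :
    ∃ C' : ℝ, ∀ y, z < y →
      |∑ d ∈ (Tup ι z y).filter (fun d => Q (univ.filter (fun i => d i ≠ 1))),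
        (∏ i, gm (b i) (d i)) * Sym L (fun _ => 1) d| ≤ C' * (Real.log y) ^ K := by
  classical
  have hpat : ∀ π : ι → Fin 4, ∃ C' : ℝ, Q (univ.filter (fun k => π k ≠ 0)) → ∀ y, z < y →
      |∑ d ∈ Fintype.piFinset (fun k => cell z y (VV (6 * (Fintype.card ι + 2 * E2)) (Real.log y))
        (YY (6 * (Fintype.card ι + 2 * E2)) (Real.log y)) (π k)),
        HH b L (fun _ => 1) d| ≤ C' * (Real.log y) ^ K := by
    intro π
    by_cases hc : Q (univ.filter (fun k => π k ≠ 0))
    · obtain ⟨C', hC'⟩ := pat_h hFr hB hC2 h2 hg hγg hz hBg hF hN π hc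
      exact ⟨C', fun _ => hC'⟩
    · exact ⟨0, fun h => absurd h hc⟩
  choose C' hC' using hpat
  refine ⟨∑ π, |C' π|, fun y hy => ?_⟩
  have hly := one_le_log hB.z2 hy
  have hlK : 0 ≤ (Real.log y) ^ K := Real.rpow_nonneg (by linarith) _
  set V := VV (6 * (Fintype.card ι + 2 * E2)) (Real.log y) with hV
  set Y := YY (6 * (Fintype.card ι + 2 * E2)) (Real.log y) with hY
  have e0 : ∑ d ∈ (Tup ι z y).filter (fun d => Q (univ.filter (fun i => d i ≠ 1))),
      (∏ i, gm (b i) (d i)) * Sym L (fun _ => 1) d =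
      ∑ d ∈ Fintype.piFinset (fun _ : ι => (PP z y).divisors),
        (if Q (univ.filter (fun i => d i ≠ 1)) then HH b L (fun _ => 1) d else 0) := by
    unfold Tup HH
    rw [filter_filter, sum_filter]
    refine sum_congr rfl fun d _ => ?_
    by_cases h1 : ∀ i j, i ≠ j → (d i).Coprime (d j)
    · by_cases h5 : Q (univ.filter (fun i => d i ≠ 1))
      · rw [if_pos ⟨h1, h5⟩, if_pos h5, if_pos h1]
      · rw [if_neg (fun h => h5 h.2), if_neg h5]
    · rw [if_neg (fun h => h1 h.1), if_neg h1, ite_self]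
  rw [e0, patterns z y V Y, sum_mul]
  refine (abs_sum_le_sum_abs _ _).trans (sum_le_sum fun π _ => ?_)
  have hval : ∀ d ∈ Fintype.piFinset (fun k => cell z y V Y (π k)),
      univ.filter (fun i => d i ≠ 1) = univ.filter (fun k => π k ≠ 0) := by
    intro d hd
    refine filter_congr fun k _ => ?_
    have h1 := Fintype.mem_piFinset.1 hd k
    constructor
    · intro h5 h6
      rw [h6] at h1
      exact h5 (cell_zero h1)
    · intro h5 h6
      have h7 := (mem_cell_iff.1 h1).2
      rw [h6] at h7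
      exact h5 (by rw [← h7]; unfold cl; simp)
  by_cases hc : Q (univ.filter (fun k => π k ≠ 0))
  · have e1 : ∑ d ∈ Fintype.piFinset (fun k => cell z y V Y (π k)),
        (if Q (univ.filter (fun i => d i ≠ 1)) then HH b L (fun _ => 1) d else 0) =
        ∑ d ∈ Fintype.piFinset (fun k => cell z y V Y (π k)), HH b L (fun _ => 1) d := by
      refine sum_congr rfl fun d hd => ?_
      rw [hval d hd, if_pos hc]
    rw [e1]
    exact (hC' π hc y hy).trans (mul_le_mul_of_nonneg_right (le_abs_self _) hlK)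
  · have e1 : ∑ d ∈ Fintype.piFinset (fun k => cell z y V Y (π k)),
        (if Q (univ.filter (fun i => d i ≠ 1)) then HH b L (fun _ => 1) d else 0) = 0 := by
      refine sum_eq_zero fun d hd => ?_
      rw [hval d hd, if_neg hc]
    rw [e1, abs_zero]
    positivity

end Pool.Agent.L7h19.IS
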