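import Mathlib
import Pool.Agent.L7h19.RP.A8

/-!
# Project IS: sums of products of Jacobi symbols, some variable of a set is nontrivial
-/

set_option autoImplicit false

namespace Pool.Agent.L7h19.IS

open Finset Pool.Agent.W262.RK Pool.Agent.L7h19.RP Pool.Agent.L7h19.RP.AT

variable {ι : Type} [Fintype ι] [DecidableEq ι]

variable {b γ : ι → ℕ → ℝ} {w : ι → ℝ} {L : ι → ι → Bool} {z B : ℕ} {C : ℝ}

open Pool.Agent.W262.RK.AT (lg VV YY cl cell cell_sub cell_zero cell_one cell_two cell_three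
  three_le_VV VV_le_YY one_le_log_VV VV_ge VV_le log_YY_ge log_YY_le log_VV_pow_le exp_neg_pow
  patterns)

/-- the conditions -/
structure HC (b : ι → ℕ → ℝ) (w : ι → ℝ) (L : ι → ι → Bool) (N Cn : Finset ι) (K : ℝ) (z A : ℕ)
    (ε C1 δ : ℝ) : Prop where
  L0 : ∀ i, L i i = false
  NN : ∀ i ∈ N, ∀ j ∈ N, L i j = L j i
  NCd : ∀ i ∈ N, i ∉ Cn
  NC : ∀ i ∈ N, ∀ k, k ∉ Cn → L i k = L k i
  NC' : ∀ i ∈ N, ∀ k ∈ Cn, L i k ≠ L k i
  hK0 : 0 ≤ K
  hK : ∀ U : Finset ι, (∃ i ∈ U, i ∈ Cn) → (∀ i ∈ U, ∀ j ∈ U, L i j = L j i) → ∑ i ∈ U, w i ≤ K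
  hKN : Cn.Nonempty → ∀ U : Finset ι, (∀ i ∈ U, i ∉ N ∧ i ∉ Cn) → ∑ i ∈ U, w i < K
  δ0 : 0 < δ
  δw : ∀ i, δ ≤ w i
  δK : ∀ U : Finset ι, ∑ i ∈ U, w i < K → ∑ i ∈ U, w i + δ ≤ K
  ε0 : 0 ≤ ε
  C10 : 0 ≤ C1
  εA : (A : ℝ) * (ε * (Fintype.card ι : ℝ) ^ 2) ≤ δ / 2
  H1 : ∀ (i : ι) (y r : ℕ) (s : Bool), z < y → 1 < r → Squarefree r →
    (∀ p : ℕ, p.Prime → p ∣ r → z < p) →
    ∑ p ∈ PS z y, b i p * (Jr p r * x4 s p) ≤ ε * Real.log r + C1

/-- the free variables of a pattern -/
def NFc (N Cn : Finset ι) (π : ι → Fin 4) : Finset ι :=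
  if (∀ k ∈ Cn, π k = 0 ∨ π k = 1) ∧ ∃ k ∈ Cn, π k = 1 then N else ∅

/-- the ranges -/
def tc (N Cn : Finset ι) (z y V Y : ℕ) (π : ι → Fin 4) (k : ι) : Finset ℕ :=
  if k ∈ NFc N Cn π then (PP z y).divisors else cell z y V Y (π k)

lemma NFc_sub {N Cn : Finset ι} {π : ι → Fin 4} {k : ι} (h : k ∈ NFc N Cn π) : k ∈ N := by
  unfold NFc at h
  split_ifs at h
  · exact h
  · exact absurd h (notMem_empty _)

lemma NFc_congr {N Cn : Finset ι} (hd : ∀ i ∈ N, i ∉ Cn) {π π' : ι → Fin 4}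
    (h : ∀ k ∉ N, π k = π' k) : NFc N Cn π = NFc N Cn π' := by
  have h1 : ∀ k ∈ Cn, π k = π' k := fun k hk => h k fun hN => hd k hN hk
  unfold NFc
  have e1 : (∀ k ∈ Cn, π k = 0 ∨ π k = 1) ↔ ∀ k ∈ Cn, π' k = 0 ∨ π' k = 1 :=
    forall_congr' fun k => forall_congr' fun hk => by rw [h1 k hk]
  have e2 : (∃ k ∈ Cn, π k = 1) ↔ ∃ k ∈ Cn, π' k = 1 := by
    constructor
    · rintro ⟨k, hk, h2⟩
      exact ⟨k, hk, by rw [← h1 k hk]; exact h2⟩
    · rintro ⟨k, hk, h2⟩
      exact ⟨k, hk, by rw [h1 k hk]; exact h2⟩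
  exact if_congr (and_congr e1 e2) rfl rfl

lemma tc_sub (N Cn : Finset ι) (z y V Y : ℕ) (π : ι → Fin 4) (k : ι) :
    tc N Cn z y V Y π k ⊆ (PP z y).divisors := by
  unfold tc
  split_ifs
  · exact Subset.refl _
  · exact cell_sub _ _ _ _ _

lemma tc_of {N Cn : Finset ι} {z y V Y : ℕ} {π : ι → Fin 4} {k : ι}
    (h : k ∉ NFc N Cn π) : tc N Cn z y V Y π k = cell z y V Y (π k) := by
  unfold tc
  rw [if_neg h]

/-- the decomposition into patterns -/
lemma core_c {N Cn : Finset ι} (hd : ∀ i ∈ N, i ∉ Cn) (z y V Y : ℕ) (F : (ι → ℕ) → ℝ) :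
    ∑ d ∈ Fintype.piFinset (fun _ : ι => (PP z y).divisors), F d =
      ∑ π : ι → Fin 4, (if (∀ k ∈ NFc N Cn π, π k = 0) then
        ∑ d ∈ Fintype.piFinset (tc N Cn z y V Y π), F d else 0) := by
  classical
  rw [← sum_fiberwise (Fintype.piFinset (fun _ : ι => (PP z y).divisors))
    (fun d k => if k ∈ NFc N Cn (fun k => cl V Y (d k)) then 0 else cl V Y (d k)) F]
  apply sum_congr rfl
  intro π _
  have hiff : ∀ d : ι → ℕ, (fun k => if k ∈ NFc N Cn (fun k => cl V Y (d k)) then 0 else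
      cl V Y (d k)) = π ↔ (∀ k ∈ NFc N Cn π, π k = 0) ∧ ∀ k ∉ NFc N Cn π, cl V Y (d k) = π k := by
    intro d
    constructor
    · intro h
      have h0 : ∀ k ∉ N, cl V Y (d k) = π k := by
        intro k hk
        have := congrFun h k
        rwa [if_neg (fun h' => hk (NFc_sub h'))] at this
      have h1 : NFc N Cn (fun k => cl V Y (d k)) = NFc N Cn π := NFc_congr hd h0
      constructor
      · intro k hk
        have := congrFun h k
        rw [h1, if_pos hk] at this
        exact this.symm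
      · intro k hk
        have := congrFun h k
        rwa [h1, if_neg hk] at this
    · rintro ⟨h1, h2⟩
      have h3 : NFc N Cn (fun k => cl V Y (d k)) = NFc N Cn π :=
        NFc_congr hd fun k hk => h2 k (fun h' => hk (NFc_sub h'))
      funext k
      rw [h3]
      by_cases hk : k ∈ NFc N Cn π
      · rw [if_pos hk, h1 k hk]
      · rw [if_neg hk, h2 k hk]
  split_ifs with hc
  · apply sum_congr _ (fun _ _ => rfl)
    ext d
    rw [mem_filter, Fintype.mem_piFinset, Fintype.mem_piFinset, hiff]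
    constructor
    · rintro ⟨h1, -, h2⟩ k
      unfold tc
      split_ifs with hk
      · exact h1 k
      · exact mem_cell_iff.2 ⟨h1 k, h2 k hk⟩
    · intro h
      refine ⟨fun k => ?_, hc, fun k hk => ?_⟩
      · have := h k
        unfold tc at this
        split_ifs at this
        · exact this
        · exact (mem_cell_iff.1 this).1
      · have := h k
        unfold tc at this
        rw [if_neg hk] at this
        exact (mem_cell_iff.1 this).2
  · apply sum_eq_zero
    intro d hd'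
    rw [mem_filter, hiff] at hd'
    exact absurd hd'.2.1 hc

/-- the bound of a pattern with free variables -/
lemma free_c (hFr : StFree) (hB : Bd b γ w z B C) {g : ℝ} (hg : 0 ≤ g)
    (hγg : ∀ i (p : ℕ), p.Prime → z < p → γ i p ≤ g / p) (hz : 2 * (Fintype.card ι * g) ≤ z)
    (hBg : 2 * (Fintype.card ι * g) ≤ B) {N Cn : Finset ι} {K ε C1 δ : ℝ} {A : ℕ}
    (hN : HC b w L N Cn K z A ε C1 δ) (π : ι → Fin 4) (h3 : ∀ k ∉ N, π k ≠ 3)
    (hc : ∀ k ∈ Cn, π k = 0 ∨ π k = 1) {k₀ : ι} (hk₀ : k₀ ∈ Cn) (hk1 : π k₀ = 1) :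
    ∃ C' : ℝ, ∀ y, z < y →
      |∑ d ∈ Fintype.piFinset (tc N Cn z y (VV A (Real.log y)) (YY A (Real.log y)) π),
        HH b L (fun _ => 1) d| ≤ C' * (Real.log y) ^ K := by
  classical
  have hC0 : 0 ≤ C := zero_le_one.trans hB.C1
  have hNF : NFc N Cn π = N := by
    unfold NFc
    rw [if_pos ⟨hc, k₀, hk₀, hk1⟩]
  set M := Fintype.card ι with hM
  set S := ∑ k ∈ (univ \ N).filter (fun k => π k = 2), w k with hSdef
  have hS : S < K := hN.hKN ⟨k₀, hk₀⟩ _ fun i hi => by
    rw [mem_filter, mem_sdiff] at hi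
    refine ⟨hi.1.2, fun hiC => ?_⟩
    rcases hc i hiC with h | h
    · rw [h] at hi
      exact absurd hi.2 (by decide)
    · rw [h] at hi
      exact absurd hi.2 (by decide)
  obtain ⟨C2, hC2, h2⟩ := num_le (C1 := C1) A M hN.ε0 hN.δ0 hN.εA
  refine ⟨2 ^ M * C ^ M * C2, fun y hy => ?_⟩
  have hly := one_le_log hB.z2 hy
  have hly0 : 0 < Real.log y := by linarith
  set l := Real.log y with hl
  set V := VV A l with hV
  set Y := YY A l with hY
  have hV3 : 3 ≤ V := three_le_VV A l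
  have hlV : 1 ≤ Real.log V := one_le_log_VV A l
  have hof : ∀ k ∉ N, tc N Cn z y V Y π k = cell z y V Y (π k) := fun k hk =>
    tc_of (by rw [hNF]; exact hk)
  have h1 := free_case (N := ∅) hFr hB hg hγg hz hBg hN.L0 hN.ε0 hN.C10 hN.H1
    (fun i hi => absurd hi (notMem_empty _)) (F := N) hN.NN hy hV3
    (t := tc N Cn z y V Y π) (tc_sub N Cn z y V Y π)
    (fun k hk => by unfold tc; rw [if_pos (by rw [hNF]; exact hk)])
    (fun i hi k hk hik m hm => by
      rw [hof k hk] at hm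
      have hkC : k ∈ Cn := by
        by_contra h
        exact hik (hN.NC i hi k h)
      rcases hc k hkC with h | h
      · rw [h] at hm
        have := cell_zero hm
        omega
      · rw [h] at hm
        exact (cell_one hm).2)
    (fun i hi _ => ⟨k₀, fun h => hN.NCd k₀ h hk₀, hN.NC' i hi k₀ hk₀, fun m hm => by
      rw [hof k₀ (fun h => hN.NCd k₀ h hk₀), hk1] at hm
      exact (cell_one hm).1⟩)
  have h4 : ∏ k ∈ univ \ N, ∑ m ∈ tc N Cn z y V Y π k, gm (γ k) m * hq B m ≤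
      C ^ M * l ^ S * (Real.log V) ^ M := by
    refine le_trans (le_of_eq ?_) (prod_low hB hy hV3 (Y := Y) π (univ \ N)
      (fun k hk => h3 k (mem_sdiff.1 hk).2))
    exact prod_congr rfl fun k hk => by rw [hof k (mem_sdiff.1 hk).2]
  have h5 := h2 l hly
  have hSδ : S + δ ≤ K := hN.δK _ hS
  calc |∑ d ∈ Fintype.piFinset (tc N Cn z y V Y π), HH b L (fun _ => 1) d|
      ≤ 2 ^ M * Real.exp (M * (ε * (M * Real.log V) + C1)) *
        (C ^ M * l ^ S * (Real.log V) ^ M) :=
        h1.trans (mul_le_mul_of_nonneg_left h4 (by positivity))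
    _ ≤ 2 ^ M * Real.exp (M * (ε * (M * Real.log V) + C1)) *
        (C ^ M * l ^ S * (Real.log V) ^ (M + 1)) := by
        have := pow_le_pow_right₀ hlV (Nat.le_succ M)
        gcongr
    _ = 2 ^ M * C ^ M * l ^ S * (Real.exp (M * (ε * (M * Real.log V) + C1)) *
        (Real.log V) ^ (M + 1)) := by ring
    _ ≤ 2 ^ M * C ^ M * l ^ S * (C2 * l ^ δ) := by gcongr
    _ = 2 ^ M * C ^ M * C2 * (l ^ S * l ^ δ) := by ring
    _ = 2 ^ M * C ^ M * C2 * l ^ (S + δ) := by rw [Real.rpow_add hly0]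
    _ ≤ _ := by
        apply mul_le_mul_of_nonneg_left _ (by positivity)
        exact Real.rpow_le_rpow_of_exponent_le hly hSδ

/-- the bound of a pattern with a small variable `k₀` which is linked with a large one `i` -/
lemma char_c (hFr : StFree) (hB : Bd b γ w z B C) {g : ℝ} (hg : 0 ≤ g)
    (hγg : ∀ i (p : ℕ), p.Prime → z < p → γ i p ≤ g / p) (hz : 2 * (Fintype.card ι * g) ≤ z)
    (hBg : 2 * (Fintype.card ι * g) ≤ B) {N Cn : Finset ι} {K ε C1 δ : ℝ} {A : ℕ}
    (hN : HC b w L N Cn K z A ε C1 δ) (π : ι → Fin 4) (h3 : ∀ k, π k ≠ 3)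
    (hun : ∀ i j, π i = 2 → π j = 2 → L i j = L j i)
    (hS : ∑ k ∈ univ.filter (fun k => π k = 2), w k ≤ K) {i k₀ : ι}
    (hi2 : π i = 2) (hk1 : π k₀ = 1) (hik : L i k₀ ≠ L k₀ i) :
    ∃ C' : ℝ, ∀ y, z < y →
      |∑ d ∈ Fintype.piFinset (fun k => cell z y (VV A (Real.log y)) (YY A (Real.log y)) (π k)),
        HH b L (fun _ => 1) d| ≤ C' * (Real.log y) ^ K := by
  classical
  have hC0 : 0 ≤ C := zero_le_one.trans hB.C1
  set M := Fintype.card ι with hM
  set S := ∑ k ∈ univ.filter (fun k => π k = 2), w k with hSdef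
  obtain ⟨C2, hC2, h2⟩ := num_le (C1 := C1) A M hN.ε0 hN.δ0 hN.εA
  obtain ⟨C3, hC3, h3'⟩ := tail_gen (L := L) (κ := fun _ => 1) hB A hN.hK0 i
  have hSw : ∑ k ∈ (univ.erase i).filter (fun k => π k = 2), w k = S - w i := by
    have h5 : (univ.erase i).filter (fun k => π k = 2) =
        (univ.filter (fun k => π k = 2)).erase i := by
      ext k
      simp only [mem_filter, mem_erase, mem_univ, true_and, and_true]
    rw [h5, hSdef, ← add_sum_erase _ _ (show i ∈ univ.filter (fun k => π k = 2) by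
      rw [mem_filter]; exact ⟨mem_univ i, hi2⟩)]
    ring
  have hSδ : (S - w i) + δ ≤ K := by
    have := hN.δw i
    linarith
  refine ⟨2 ^ M * C ^ M * C2 + 2 ^ M * C ^ (M + 1) * C2 + C3, fun y hy => ?_⟩
  have hly := one_le_log hB.z2 hy
  have hly0 : 0 < Real.log y := by linarith
  have h3y := h3' y hy
  have h2y := h2 (Real.log y) hly
  set l := Real.log y with hl
  set V := VV A l with hV
  set Y := YY A l with hY
  have hV3 : 3 ≤ V := three_le_VV A l
  have hVY : V ≤ Y := VV_le_YY A l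
  have hlV : 1 ≤ Real.log V := one_le_log_VV A l
  set D := (PP z y).divisors with hD
  set A1 := D.filter (fun d => d ≤ V) with hA1
  set A3 := D.filter (fun d => Y < d) with hA3
  set t : ι → Finset ℕ := fun k => cell z y V Y (π k) with ht
  have hti : t i = lg z y V Y := by
    rw [ht]
    dsimp only
    rw [hi2]
    exact cell_two (by omega)
  have htsub : ∀ k, t k ⊆ D := fun k => cell_sub _ _ _ _ _
  have hupd : ∀ (A' : Finset ℕ), A' ⊆ D → ∀ k, Function.update t i A' k ⊆ D := by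
    intro A' hA' k
    by_cases hk : k = i
    · subst hk
      rw [Function.update_self]
      exact hA'
    · rw [Function.update_of_ne hk]
      exact htsub k
  -- the small variables
  have hsm : ∀ k, π k ≠ 2 → ∀ m ∈ t k, m ≤ V := by
    intro k hk2 m hm
    exact cell_small hV3 hk2 (h3 k) hm
  have hlki : ∀ k, L i k ≠ L k i → π k ≠ 2 := fun k hki h => hki (hun i k hi2 h)
  have hP := prod_low hB hy hV3 (Y := Y) π (univ.erase i) (fun k _ => h3 k)
  rw [hSw] at hP
  have hPnn : 0 ≤ ∏ k ∈ univ.erase i, ∑ m ∈ t k, gm (γ k) m * hq B m :=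
    prod_nonneg fun k _ => sum_nonneg fun m hm => gh_nonneg hB k (htsub k hm)
  -- the final estimate
  have hfin : 2 ^ M * Real.exp (M * (ε * (M * Real.log V) + C1)) *
      (C ^ M * l ^ (S - w i) * (Real.log V) ^ (M + 1)) ≤ 2 ^ M * C ^ M * C2 * l ^ K := by
    calc _ = 2 ^ M * C ^ M * l ^ (S - w i) * (Real.exp (M * (ε * (M * Real.log V) + C1)) *
        (Real.log V) ^ (M + 1)) := by ring
      _ ≤ 2 ^ M * C ^ M * l ^ (S - w i) * (C2 * l ^ δ) := by gcongr
      _ = 2 ^ M * C ^ M * C2 * (l ^ (S - w i) * l ^ δ) := by ring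
      _ = 2 ^ M * C ^ M * C2 * l ^ ((S - w i) + δ) := by rw [Real.rpow_add hly0]
      _ ≤ _ := by
        apply mul_le_mul_of_nonneg_left _ (by positivity)
        exact Real.rpow_le_rpow_of_exponent_le hly hSδ
  -- all values of the variable `i`
  have hall : |∑ d ∈ Fintype.piFinset (Function.update t i D), HH b L (fun _ => 1) d| ≤
      2 ^ M * C ^ M * C2 * l ^ K := by
    have hne : k₀ ≠ i := by rintro rfl; exact hik rfl
    have h1 := free_case (N := ∅) hFr hB hg hγg hz hBg hN.L0 hN.ε0 hN.C10 hN.H1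
      (fun i hi => absurd hi (notMem_empty _))
      (F := {i}) (fun a ha c hc => by
        rw [mem_singleton] at ha hc
        rw [ha, hc]) hy hV3
      (t := Function.update t i D) (hupd D (Subset.refl _)) (fun k hk => by
        rw [mem_singleton] at hk
        rw [hk, Function.update_self])
      (fun a ha k hk hak m hm => by
        rw [mem_singleton] at ha hk
        rw [Function.update_of_ne hk] at hm
        rw [ha] at hak
        exact hsm k (hlki k hak) m hm)
      (fun a ha _ => by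
        rw [mem_singleton] at ha
        rw [ha]
        refine ⟨k₀, by rwa [mem_singleton], hik, fun m hm => ?_⟩
        rw [Function.update_of_ne hne] at hm
        have hm' : m ∈ cell z y V Y (π k₀) := hm
        rw [hk1] at hm'
        exact (cell_one hm').1)
    have e1 : (univ : Finset ι) \ {i} = univ.erase i := by
      ext k
      simp only [mem_sdiff, mem_univ, true_and, mem_singleton, mem_erase, and_true]
    have e2 : ∏ k ∈ univ.erase i, ∑ m ∈ Function.update t i D k,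
        gm (γ k) m * hq B m = ∏ k ∈ univ.erase i, ∑ m ∈ t k, gm (γ k) m * hq B m :=
      prod_congr rfl fun k hk => by rw [Function.update_of_ne (mem_erase.1 hk).1]
    rw [e1, e2] at h1
    refine h1.trans (le_trans ?_ hfin)
    refine mul_le_mul_of_nonneg_left (hP.trans ?_) (by positivity)
    exact mul_le_mul_of_nonneg_left (pow_le_pow_right₀ hlV (Nat.le_succ M)) (by positivity)
  -- small values of the variable `i`
  have hsmall : |∑ d ∈ Fintype.piFinset (Function.update t i A1), HH b L (fun _ => 1) d| ≤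
      2 ^ M * C ^ (M + 1) * C2 * l ^ K := by
    have h1 := free_case (N := ∅) hFr hB hg hγg hz hBg hN.L0 hN.ε0 hN.C10 hN.H1
      (fun i hi => absurd hi (notMem_empty _))
      (F := ∅) (fun a ha => absurd ha (notMem_empty _)) hy hV3
      (t := Function.update t i A1) (hupd A1 (filter_subset _ _))
      (fun k hk => absurd hk (notMem_empty _)) (fun a ha => absurd ha (notMem_empty _))
      (fun a ha => absurd ha (notMem_empty _))
    have hiU : i ∈ (univ : Finset ι) := mem_univ i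
    rw [sdiff_empty, ← mul_prod_erase _ _ hiU, Function.update_self] at h1
    have e2 : ∏ k ∈ univ.erase i, ∑ m ∈ Function.update t i A1 k,
        gm (γ k) m * hq B m = ∏ k ∈ univ.erase i, ∑ m ∈ t k, gm (γ k) m * hq B m :=
      prod_congr rfl fun k hk => by rw [Function.update_of_ne (mem_erase.1 hk).1]
    rw [e2] at h1
    have e3 : ∑ m ∈ A1, gm (γ i) m * hq B m ≤ C * Real.log V := by
      refine (hB.F2 i y V hy (by omega)).trans ?_
      refine mul_le_mul_of_nonneg_left ?_ hC0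
      calc (Real.log V) ^ (w i) ≤ (Real.log V) ^ (1 : ℝ) :=
            Real.rpow_le_rpow_of_exponent_le hlV (hB.w1 i)
        _ = Real.log V := Real.rpow_one _
    have e4 : 0 ≤ ∑ m ∈ A1, gm (γ i) m * hq B m :=
      sum_nonneg fun m hm => gh_nonneg hB i (mem_filter.1 hm).1
    calc _ ≤ _ := h1
      _ ≤ 2 ^ M * Real.exp (M * (ε * (M * Real.log V) + C1)) *
          ((C * Real.log V) * (C ^ M * l ^ (S - w i) * (Real.log V) ^ M)) := by
          refine mul_le_mul_of_nonneg_left ?_ (by positivity)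
          exact mul_le_mul e3 hP hPnn (by positivity)
      _ = C * (2 ^ M * Real.exp (M * (ε * (M * Real.log V) + C1)) *
          (C ^ M * l ^ (S - w i) * (Real.log V) ^ (M + 1))) := by ring
      _ ≤ C * (2 ^ M * C ^ M * C2 * l ^ K) := mul_le_mul_of_nonneg_left hfin hC0
      _ = _ := by ring
  -- huge values
  have hhuge : |∑ d ∈ Fintype.piFinset (Function.update t i A3), HH b L (fun _ => 1) d| ≤
      C3 * l ^ K := by
    refine h3y _ (hupd A3 (filter_subset _ _)) ?_
    intro m hm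
    rw [Function.update_self] at hm
    exact (mem_filter.1 hm).2
  have hsplit := sum_split t i D A1 A3 (HH b L (fun _ => 1))
    (by
      rw [hti, disjoint_left]
      intro m hm hm'
      have h5 := (mem_filter.1 hm).2
      have h6 := (mem_filter.1 hm').2
      omega)
    (by
      rw [hti, disjoint_left]
      intro m hm hm'
      have h6 := (mem_filter.1 hm').2
      rcases mem_union.1 hm with h | h
      · have h5 := (mem_filter.1 h).2
        omega
      · have h5 := (mem_filter.1 h).2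
        omega)
    (by
      rw [hti]
      ext m
      simp only [mem_union, hA1, hA3, mem_filter, lg]
      constructor
      · rintro ((h | h) | h)
        · exact h.1
        · exact h.1
        · exact h.1
      · intro h
        by_cases h5 : m ≤ V
        · exact Or.inl (Or.inr ⟨h, h5⟩)
        · by_cases h6 : m ≤ Y
          · exact Or.inl (Or.inl ⟨h, by omega, h6⟩)
          · exact Or.inr ⟨h, by omega⟩)
  show |∑ d ∈ Fintype.piFinset t, HH b L (fun _ => 1) d| ≤ _
  rw [hsplit]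
  have a1 := abs_sub (∑ d ∈ Fintype.piFinset (Function.update t i D), HH b L (fun _ => 1) d -
    ∑ d ∈ Fintype.piFinset (Function.update t i A1), HH b L (fun _ => 1) d)
    (∑ d ∈ Fintype.piFinset (Function.update t i A3), HH b L (fun _ => 1) d)
  have a2 := abs_sub (∑ d ∈ Fintype.piFinset (Function.update t i D), HH b L (fun _ => 1) d)
    (∑ d ∈ Fintype.piFinset (Function.update t i A1), HH b L (fun _ => 1) d)
  rw [add_mul, add_mul]
  linarith

/-- all patterns -/
lemma pat_c (hFr : StFree) (hB : Bd b γ w z B C) {g F C2 : ℝ} {E2 : ℕ} (hC2 : 0 ≤ C2)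
    (h2 : BWg g F C2 E2) (hg : 0 ≤ g)
    (hγg : ∀ i (p : ℕ), p.Prime → z < p → γ i p ≤ g / p) (hz : 2 * (Fintype.card ι * g) ≤ z)
    (hBg : 2 * (Fintype.card ι * g) ≤ B) (hF : (Fintype.card ι : ℝ) ≤ F)
    {N Cn : Finset ι} {K ε C1 δ : ℝ}
    (hN : HC b w L N Cn K z (6 * (Fintype.card ι + 2 * E2)) ε C1 δ) (π : ι → Fin 4)
    (hc : ∃ k ∈ Cn, π k ≠ 0) :
    ∃ C' : ℝ, ∀ y, z < y →
      |∑ d ∈ Fintype.piFinset (tc N Cn z y (VV (6 * (Fintype.card ι + 2 * E2)) (Real.log y))
        (YY (6 * (Fintype.card ι + 2 * E2)) (Real.log y)) π),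
        HH b L (fun _ => 1) d| ≤ C' * (Real.log y) ^ K := by
  classical
  set A := 6 * (Fintype.card ι + 2 * E2) with hA
  by_cases hcase : (∀ k ∈ Cn, π k = 0 ∨ π k = 1) ∧ ∃ k ∈ Cn, π k = 1
  · obtain ⟨hc1, k₀, hk₀, hk1⟩ := hcase
    have hNF : NFc N Cn π = N := by
      unfold NFc
      rw [if_pos ⟨hc1, k₀, hk₀, hk1⟩]
    by_cases h3 : ∃ k ∉ N, π k = 3
    · obtain ⟨k, hkF, hk⟩ := h3
      obtain ⟨C', -, hC'⟩ := tail_gen (L := L) (κ := fun _ => 1) hB A hN.hK0 k
      refine ⟨C', fun y hy => hC' y hy _ (tc_sub _ _ _ _ _ _ _) fun m hm => ?_⟩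
      rw [tc_of (by rw [hNF]; exact hkF), hk] at hm
      exact cell_three hm
    push Not at h3
    exact free_c hFr hB hg hγg hz hBg hN π h3 hc1 hk₀ hk1
  have hNF : NFc N Cn π = ∅ := by
    unfold NFc
    rw [if_neg hcase]
  have htc : ∀ y V Y, tc N Cn z y V Y π = fun k => cell z y V Y (π k) := fun y V Y => by
    funext k
    exact tc_of (by rw [hNF]; exact notMem_empty _)
  simp only [htc]
  by_cases h3 : ∃ k, π k = 3
  · obtain ⟨k, hk⟩ := h3
    exact tail_case hB A hN.hK0 π hk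
  push Not at h3
  by_cases hl : ∃ i j, π i = 2 ∧ π j = 2 ∧ L i j ≠ L j i
  · obtain ⟨i, j, hi, hj, hij⟩ := hl
    exact link_case hB hC2 h2 hg hγg hF hN.L0 le_rfl hN.hK0 π hi hj hij
  push Not at hl
  -- a large constrained variable
  have hex : ∃ k ∈ Cn, π k = 2 := by
    by_contra hcon
    push Not at hcon
    apply hcase
    have key : ∀ r : Fin 4, r ≠ 3 → r ≠ 2 → r = 0 ∨ r = 1 := by decide
    have h4 : ∀ k ∈ Cn, π k = 0 ∨ π k = 1 := fun k hk => key _ (h3 k) (hcon k hk)
    refine ⟨h4, ?_⟩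
    obtain ⟨k, hk, hk0⟩ := hc
    exact ⟨k, hk, (h4 k hk).resolve_left hk0⟩
  obtain ⟨kc, hkc, hkc2⟩ := hex
  set U := univ.filter (fun k => π k = 2) with hU
  have hS : ∑ k ∈ U, w k ≤ K := hN.hK U ⟨kc, by rw [hU, mem_filter]; exact ⟨mem_univ _, hkc2⟩, hkc⟩
    fun i hi j hj => hl i j (mem_filter.1 hi).2 (mem_filter.1 hj).2
  rcases hS.lt_or_eq with hlt | heq
  · exact triv_case hB A π h3 hlt
  by_cases h1 : ∃ k, π k = 1
  · obtain ⟨k₀, hk1⟩ := h1
    have hex : ∃ i, π i = 2 ∧ L i k₀ ≠ L k₀ i := by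
      by_contra hcon
      push Not at hcon
      have hkU : k₀ ∉ U := by
        rw [hU, mem_filter, hk1]
        rintro ⟨-, h⟩
        exact absurd h (by decide)
      have h4 := hN.hK (insert k₀ U) ⟨kc, by
          rw [mem_insert, hU, mem_filter]; exact Or.inr ⟨mem_univ _, hkc2⟩, hkc⟩
        (fun a ha c hc => by
          rcases mem_insert.1 ha with ha' | ha'
          · rcases mem_insert.1 hc with hc' | hc'
            · rw [ha', hc']
            · rw [ha']
              exact (hcon c (mem_filter.1 hc').2).symm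
          · rcases mem_insert.1 hc with hc' | hc'
            · rw [hc']
              exact hcon a (mem_filter.1 ha').2
            · exact hl a c (mem_filter.1 ha').2 (mem_filter.1 hc').2)
      rw [sum_insert hkU, heq] at h4
      have := hB.w0 k₀
      linarith
    obtain ⟨i, hi2, hik⟩ := hex
    exact char_c hFr hB hg hγg hz hBg hN π h3 (fun i j h5 h6 => hl i j h5 h6) hS hi2 hk1 hik
  push Not at h1
  refine diag_case hB A π (fun k => ?_) hS
  have key : ∀ r : Fin 4, r ≠ 3 → r ≠ 1 → r = 0 ∨ r = 2 := by decide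
  exact key _ (h3 k) (h1 k)

/-- **the bound, some constrained variable is nontrivial** -/
theorem at_c (hFr : StFree) (hB : Bd b γ w z B C) {g F C2 : ℝ} {E2 : ℕ} (hC2 : 0 ≤ C2)
    (h2 : BWg g F C2 E2) (hg : 0 ≤ g)
    (hγg : ∀ i (p : ℕ), p.Prime → z < p → γ i p ≤ g / p) (hz : 2 * (Fintype.card ι * g) ≤ z)
    (hBg : 2 * (Fintype.card ι * g) ≤ B) (hF : (Fintype.card ι : ℝ) ≤ F)
    {N Cn : Finset ι} {K ε C1 δ : ℝ}
    (hN : HC b w L N Cn K z (6 * (Fintype.card ι + 2 * E2)) ε C1 δ) :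
    ∃ C' : ℝ, ∀ y, z < y →
      |∑ d ∈ (Tup ι z y).filter (fun d => ∃ i ∈ Cn, d i ≠ 1),
        (∏ i, gm (b i) (d i)) * Sym L (fun _ => 1) d| ≤ C' * (Real.log y) ^ K := by
  classical
  have hpat : ∀ π : ι → Fin 4, ∃ C' : ℝ, (∃ k ∈ Cn, π k ≠ 0) → ∀ y, z < y →
      |∑ d ∈ Fintype.piFinset (tc N Cn z y (VV (6 * (Fintype.card ι + 2 * E2)) (Real.log y))
        (YY (6 * (Fintype.card ι + 2 * E2)) (Real.log y)) π),
        HH b L (fun _ => 1) d| ≤ C' * (Real.log y) ^ K := by
    intro π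
    by_cases hc : ∃ k ∈ Cn, π k ≠ 0
    · obtain ⟨C', hC'⟩ := pat_c hFr hB hC2 h2 hg hγg hz hBg hF hN π hc
      exact ⟨C', fun _ => hC'⟩
    · exact ⟨0, fun h => absurd h hc⟩
  choose C' hC' using hpat
  refine ⟨∑ π, |C' π|, fun y hy => ?_⟩
  have hly := one_le_log hB.z2 hy
  have hlK : 0 ≤ (Real.log y) ^ K := Real.rpow_nonneg (by linarith) _
  set V := VV (6 * (Fintype.card ι + 2 * E2)) (Real.log y) with hV
  set Y := YY (6 * (Fintype.card ι + 2 * E2)) (Real.log y) with hY
  have e0 : ∑ d ∈ (Tup ι z y).filter (fun d => ∃ i ∈ Cn, d i ≠ 1),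
      (∏ i, gm (b i) (d i)) * Sym L (fun _ => 1) d =
      ∑ d ∈ Fintype.piFinset (fun _ : ι => (PP z y).divisors),
        (if ∃ i ∈ Cn, d i ≠ 1 then HH b L (fun _ => 1) d else 0) := by
    unfold Tup HH
    rw [filter_filter, sum_filter]
    refine sum_congr rfl fun d _ => ?_
    by_cases h1 : ∀ i j, i ≠ j → (d i).Coprime (d j)
    · by_cases h5 : ∃ i ∈ Cn, d i ≠ 1
      · rw [if_pos ⟨h1, h5⟩, if_pos h5, if_pos h1]
      · rw [if_neg (fun h => h5 h.2), if_neg h5]
    · rw [if_neg (fun h => h1 h.1), if_neg h1, ite_self]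
  rw [e0, core_c hN.NCd z y V Y, sum_mul]
  refine (abs_sum_le_sum_abs _ _).trans (sum_le_sum fun π _ => ?_)
  split_ifs with hπ
  · have hval : ∀ d ∈ Fintype.piFinset (tc N Cn z y V Y π), ∀ k ∈ Cn, (d k ≠ 1 ↔ π k ≠ 0) := by
      intro d hd k hk
      have hkF : k ∉ NFc N Cn π := fun h => hN.NCd k (NFc_sub h) hk
      have h1 := Fintype.mem_piFinset.1 hd k
      rw [tc_of hkF] at h1
      constructor
      · intro h5 h6
        rw [h6] at h1
        exact h5 (cell_zero h1)
      · intro h5 h6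
        have h7 := (mem_cell_iff.1 h1).2
        rw [h6] at h7
        exact h5 (by rw [← h7]; unfold cl; simp)
    by_cases hc : ∃ k ∈ Cn, π k ≠ 0
    · have e1 : ∑ d ∈ Fintype.piFinset (tc N Cn z y V Y π),
          (if ∃ i ∈ Cn, d i ≠ 1 then HH b L (fun _ => 1) d else 0) =
          ∑ d ∈ Fintype.piFinset (tc N Cn z y V Y π), HH b L (fun _ => 1) d := by
        refine sum_congr rfl fun d hd => ?_
        obtain ⟨k, hk, hk0⟩ := hc
        rw [if_pos ⟨k, hk, (hval d hd k hk).2 hk0⟩]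
      rw [e1]
      exact (hC' π hc y hy).trans (mul_le_mul_of_nonneg_right (le_abs_self _) hlK)
    · have e1 : ∑ d ∈ Fintype.piFinset (tc N Cn z y V Y π),
          (if ∃ i ∈ Cn, d i ≠ 1 then HH b L (fun _ => 1) d else 0) = 0 := by
        refine sum_eq_zero fun d hd => ?_
        rw [if_neg]
        rintro ⟨k, hk, hk1⟩
        exact hc ⟨k, hk, (hval d hd k hk).1 hk1⟩
      rw [e1, abs_zero]
      positivity
  · rw [abs_zero]
    positivity

end Pool.Agent.L7h19.IS
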