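import Mathlib
import Pool.Agent.L7h19.IS.Cat
import Pool.Agent.L7h19.IS.Stm
import Pool.Agent.L7h19.RP.MajN

/-!
# Project IS: the average of the majorant
-/

set_option autoImplicit false

namespace Pool.Agent.L7h19.IS

open Finset Polynomial Pool.Agent.W262.RK Pool.Agent.L7h19.RP
open Pool.Agent.H474R2.PG (rho)
open Pool.Agent.L7h19.RP.AT (gm hq BWg)

variable {J : Type} [Fintype J] [DecidableEq J]

lemma bw_one (f : ℤ[X]) (w : ℝ) (c p : ℕ) : bw f 1 w c p = gaw f w c p := by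
  unfold bw gaw rho
  congr 1
  rw [card_eq_sum_ones]
  push_cast
  refine sum_congr rfl fun ν _ => ?_
  rw [eval_one]
  unfold Jr
  rw [jacobiSym.one_left]
  norm_num

lemma wI_pos (cB : J → Bool) (i : J × Bool × Bool) : 0 < wI cB i ∧ wI cB i ≤ 1 / 2 := by
  unfold wI
  split_ifs <;> norm_num

lemma not_dvd_one {f : ℤ[X]} (hf : Irreducible f) : ¬ f ∣ 1 :=
  fun h => hf.not_isUnit (isUnit_of_dvd_one h)

/-- the sum over all indices outside a set given by the type and the mark -/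
lemma sum_type (cB : J → Bool) (P : Bool → Bool → Bool) :
    ∑ i ∈ univ.filter (fun i : J × Bool × Bool => P (cB i.1) i.2.1 = true), wI cB i =
      ∑ j, ((if P (cB j) true = true then (if cB j = true then 1 else 1 / 2 : ℝ) else 0) +
        (if P (cB j) false = true then (if cB j = true then 1 else 1 / 2 : ℝ) else 0)) := by
  rw [sum_filter, Fintype.sum_prod_type]
  refine sum_congr rfl fun j _ => ?_
  rw [Fintype.sum_prod_type, Fintype.sum_bool]
  simp only [Fintype.sum_bool, wI]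
  cases hj : cB j <;> cases h1 : P (cB j) true <;> cases h2 : P (cB j) false <;>
    rw [hj] at h1 h2 <;> simp [h1, h2] <;> norm_num

theorem maj1 (hUp : StUp) (hBW : StBW) (hFr : StFree) (hEx : S_EXP)
    (cB : J → Bool) (f : J → ℤ[X]) (hf : ∀ j, Irreducible (f j))
    (hd : ∀ j, 0 < (f j).natDegree) (c : ℕ) :
    ∃ z0 : ℕ, ∀ z, z0 ≤ z → ∃ C : ℝ, ∀ y, z < y →
      ∑ s ∈ Tup J z y, R1 (pT cB s true) (pT cB s false) * ∏ j, gm (gaw (f j) 1 c) (s j) ≤
        C * (Real.log y) ^ (Fintype.card J) := by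
  classical
  set ι := J × Bool × Bool with hι
  have hwJ := fun a : ι => wI_pos cB a
  set N : Finset ι := univ.filter (fun a => (cB a.1 && a.2.1) = true) with hNdef
  set Cn : Finset ι := univ.filter (fun a => (!(cB a.1) && a.2.1) = true) with hCdef
  have hNm : ∀ a, a ∈ N ↔ cB a.1 = true ∧ a.2.1 = true := fun a => by
    rw [hNdef, mem_filter, Bool.and_eq_true]
    exact ⟨fun h => h.2, fun h => ⟨mem_univ a, h⟩⟩
  have hCm : ∀ a, a ∈ Cn ↔ cB a.1 = false ∧ a.2.1 = true := fun a => by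
    rw [hCdef, mem_filter, Bool.and_eq_true, Bool.not_eq_true']
    exact ⟨fun h => h.2, fun h => ⟨mem_univ a, h⟩⟩
  set M : ℕ := Fintype.card ι with hM
  set K : ℝ := ((Fintype.card J : ℕ) : ℝ) with hK
  set G : ℕ := ∑ j, (f j).natDegree with hG
  obtain ⟨C2, E2, hC2, hbw⟩ := hBW (G : ℝ) (M : ℝ) (Nat.cast_nonneg _)
  obtain ⟨δ, hδ, hδw, hδK⟩ := Pool.Agent.L7h19.RP.AT.exists_gap (wI cB) (fun a => (hwJ a).1) K
  set A : ℕ := 6 * (M + 2 * E2) with hA
  set ε : ℝ := δ / 2 / (A * (M : ℝ) ^ 2 + 1) with hε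
  have hden : (0 : ℝ) < A * (M : ℝ) ^ 2 + 1 := by positivity
  have hε0 : 0 < ε := by positivity
  have hεA : (A : ℝ) * (ε * (M : ℝ) ^ 2) ≤ δ / 2 := by
    have e1 : (A : ℝ) * (ε * (M : ℝ) ^ 2) = δ / 2 * ((A * (M : ℝ) ^ 2) / (A * (M : ℝ) ^ 2 + 1)) := by
      rw [hε]
      field_simp
    rw [e1]
    have e2 : (A * (M : ℝ) ^ 2) / (A * (M : ℝ) ^ 2 + 1) ≤ 1 := by
      rw [div_le_one hden]
      linarith
    have e3 : 0 ≤ δ / 2 := by positivity
    calc δ / 2 * ((A * (M : ℝ) ^ 2) / (A * (M : ℝ) ^ 2 + 1)) ≤ δ / 2 * 1 :=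
          mul_le_mul_of_nonneg_left e2 e3
      _ = δ / 2 := mul_one _
  set B : ℕ := 2 * (M * G) with hB
  choose z1 hz1 using fun a : ι =>
    hUp (f a.1) 1 (wI cB a) ε c (hf _) (hd _) (not_dvd_one (hf _))
      (hwJ a).1 (hwJ a).2 hε0
  choose z2 hz2 using fun a : ι => stFull (f a.1) (wI cB a) c B (hf _) (hd _)
    (hwJ a).1 (hwJ a).2
  choose Br hBr using fun j : J => Pool.Agent.H474R2.PG.rho_le (f j) (hf j).ne_zero
  refine ⟨∑ a, z1 a + ∑ a, z2 a + 2 * (M * G) + ∑ j, Br j + (2 * c + 4), fun z hz => ?_⟩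
  have hz1' : ∀ a, z1 a ≤ z := fun a => (le_sum_nat z1 a).trans (by omega)
  have hz2' : ∀ a, z2 a ≤ z := fun a => (le_sum_nat z2 a).trans (by omega)
  have hBr' : ∀ j, Br j ≤ z := fun j => (le_sum_nat Br j).trans (by omega)
  choose C1 hC1 using fun a : ι => hz1 a z (hz1' a)
  choose C3 hC3 using fun a : ι => hz2 a z (hz2' a)
  set C : ℝ := 1 + ∑ a, |C3 a| with hC
  set D1 : ℝ := ∑ a, |C1 a| with hD1
  have hs1 : 0 ≤ ∑ a, |C1 a| := sum_nonneg fun _ _ => abs_nonneg _
  have hs3 : 0 ≤ ∑ a, |C3 a| := sum_nonneg fun _ _ => abs_nonneg _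
  have hCC1 : ∀ a, C1 a ≤ D1 := fun a => le_sum_abs C1 a
  have hCC3 : ∀ a, C3 a ≤ C := fun a => by have := le_sum_abs C3 a; linarith
  have hgaw0 : ∀ (a : ι) (p : ℕ), p.Prime → z < p → 0 ≤ gaw (f a.1) (wI cB a) c p ∧
      gaw (f a.1) (wI cB a) c p ≤ (G : ℝ) / p := by
    intro a p hp hzp
    have e1 := (gaw_bd (d := (f a.1).natDegree) (hwJ a).1 (hwJ a).2 (by omega : 2 * c + 2 ≤ p)
      (hBr a.1 p hp (by have := hBr' a.1; omega)))
    refine ⟨e1.1, e1.2.1.trans ?_⟩
    refine div_le_div_of_nonneg_right ?_ (Nat.cast_nonneg _)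
    exact_mod_cast le_sum_nat (fun j => (f j).natDegree) a.1
  have hBd : Pool.Agent.L7h19.RP.AT.Bd (fun a : ι => gaw (f a.1) (wI cB a) c)
      (fun a => gaw (f a.1) (wI cB a) c) (wI cB) z B C := by
    refine ⟨fun a => (hwJ a).1, fun a => (hwJ a).2.trans (by norm_num), by omega, by linarith,
      fun a p hp hzp => le_of_eq (abs_of_nonneg (hgaw0 a p hp hzp).1), fun a y hy => ?_,
      fun a y V hy hV => ?_, fun a y Y hy hY => ?_⟩
    · refine ((hC3 a).1 y hy).trans ?_
      exact mul_le_mul_of_nonneg_right (hCC3 a) (Real.rpow_nonneg (Real.log_natCast_nonneg _) _)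
    · refine ((hC3 a).2.1 y V hy hV).trans ?_
      exact mul_le_mul_of_nonneg_right (hCC3 a) (Real.rpow_nonneg (Real.log_natCast_nonneg _) _)
    · refine ((hC3 a).2.2 y Y hy hY).trans ?_
      exact mul_le_mul_of_nonneg_right (mul_le_mul_of_nonneg_right (hCC3 a) (Real.exp_pos _).le)
        (by positivity)
  have hLt : ∀ i k : ι, LI cB i k = true ↔
      (cB i.1 = true ∧ i.2.1 = true) ∧ (cB k.1 = false ∧ k.2.1 = true) := by
    intro i k
    unfold LI
    cases cB i.1 <;> cases cB k.1 <;> cases i.2.1 <;> cases k.2.1 <;> simp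
  have hLN : ∀ i k : ι, LI cB i k = true ↔ i ∈ N ∧ k ∈ Cn := fun i k => by
    rw [hLt, hNm, hCm]
  have hdis : ∀ i ∈ N, i ∉ Cn := fun i hi hi' => by
    have h1 := ((hNm i).1 hi).1
    have h2 := ((hCm i).1 hi').1
    rw [h1] at h2
    exact absurd h2 (by decide)
  have hLf : ∀ i k : ι, ¬ (i ∈ N ∧ k ∈ Cn) → LI cB i k = false := fun i k h =>
    Bool.eq_false_iff.2 fun h' => h ((hLN i k).1 h')
  have hHN : HC (fun a : ι => gaw (f a.1) (wI cB a) c) (wI cB) (LI cB) N Cn K z A ε D1 δ := by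
    refine ⟨fun i => hLf i i fun h => hdis i h.1 h.2, fun i hi j hj => ?_, hdis,
      fun i hi k hk => ?_, fun i hi k hk => ?_, Nat.cast_nonneg _, ?_, ?_, hδ, hδw, hδK,
      hε0.le, hs1, hεA, ?_⟩
    · rw [hLf i j fun h => hdis j hj h.2, hLf j i fun h => hdis i hi h.2]
    · rw [hLf i k fun h => hk h.2, hLf k i fun h => hdis i hi h.2]
    · rw [(hLN i k).2 ⟨hi, hk⟩, hLf k i fun h => hdis i hi h.2]
      decide
    · rintro U ⟨k, hkU, hkC⟩ hU
      have hsub : U ⊆ univ.filter (fun i : ι =>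
          (fun r m : Bool => !(r && m)) (cB i.1) i.2.1 = true) := by
        intro i hi
        rw [mem_filter]
        refine ⟨mem_univ _, ?_⟩
        by_contra hcon
        have hiN : i ∈ N := by
          rw [hNm]
          revert hcon
          cases cB i.1 <;> cases i.2.1 <;> simp
        have h1 := hU i hi k hkU
        rw [(hLN i k).2 ⟨hiN, hkC⟩, hLf k i fun h => hdis i hiN h.2] at h1
        exact absurd h1 (by decide)
      refine (sum_le_sum_of_subset_of_nonneg hsub fun i _ _ => (hwJ i).1.le).trans ?_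
      rw [sum_type cB (fun r m : Bool => !(r && m)), hK, ← card_univ, card_eq_sum_ones]
      push_cast
      refine sum_le_sum fun j _ => ?_
      cases cB j <;> norm_num
    · rintro ⟨k, hkC⟩ U hU
      have hsub : U ⊆ univ.filter (fun i : ι =>
          (fun _ m : Bool => !m) (cB i.1) i.2.1 = true) := by
        intro i hi
        rw [mem_filter]
        refine ⟨mem_univ _, ?_⟩
        by_contra hcon
        have h1 := hU i hi
        rw [hNm, hCm] at h1
        revert hcon h1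
        cases cB i.1 <;> cases i.2.1 <;> simp
      refine lt_of_le_of_lt
        (sum_le_sum_of_subset_of_nonneg hsub fun i _ _ => (hwJ i).1.le) ?_
      rw [sum_type cB (fun _ m : Bool => !m), hK, ← card_univ, card_eq_sum_ones]
      push_cast
      refine sum_lt_sum (fun j _ => ?_) ⟨k.1, mem_univ _, ?_⟩
      · cases cB j <;> norm_num
      · rw [((hCm k).1 hkC).1]
        norm_num
    · intro a y r s hy hr hrs hrp
      have h1 := hC1 a y r s hy hr hrs hrp
      have h2 := hCC1 a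
      refine le_trans (le_of_eq ?_) (h1.trans (by linarith))
      exact sum_congr rfl fun p _ => by rw [bw_one]
  obtain ⟨C', hC'⟩ := at_c hFr hBd hC2 hbw (Nat.cast_nonneg _)
    (fun a p hp hzp => (hgaw0 a p hp hzp).2) (by
      have : 2 * (M * G) ≤ z := by omega
      exact_mod_cast this) (by
      have : 2 * (M * G) ≤ B := le_rfl
      exact_mod_cast this) le_rfl hHN
  refine ⟨C', fun y hy => ?_⟩
  rw [hEx J cB f c z y (by omega) (by omega)]
  refine (le_trans (le_of_eq ?_) (le_abs_self _)).trans ((hC' y hy).trans (le_of_eq ?_))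
  · refine sum_congr ?_ fun d _ => rfl
    refine filter_congr fun d _ => ?_
    constructor
    · rintro ⟨i, h1, h2, h3⟩
      exact ⟨i, (hCm i).2 ⟨h1, h2⟩, h3⟩
    · rintro ⟨i, h1, h3⟩
      exact ⟨i, ((hCm i).1 h1).1, ((hCm i).1 h1).2, h3⟩
  · rw [Real.rpow_natCast]

end Pool.Agent.L7h19.IS
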