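import Mathlib
import Pool.Agent.L7h19.IS.Stm
import Pool.Agent.W108.RK.EXP

/-!
# Project IS: the counts `N1` and character sums
-/

set_option autoImplicit false

namespace Pool.Agent.L7h19.IS

open Finset Polynomial Pool.Agent.W262.RK

/-- sums over the divisors of a squarefree number -/
lemma sum_dvs {n : ℕ} (hn : Squarefree n) (g : ℕ → ℝ) (h1 : g 1 = 1)
    (hm : ∀ a b, a ≠ 0 → b ≠ 0 → g (a * b) = g a * g b) :
    ∑ d ∈ n.divisors, g d = ∏ p ∈ n.primeFactors, (1 + g p) := by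
  set F : ArithmeticFunction ℝ := ⟨fun d => if d = 0 then 0 else g d, by simp⟩ with hF
  have hFa : ∀ d, d ≠ 0 → F d = g d := fun d hd => if_neg hd
  have hmul : F.IsMultiplicative := by
    refine ⟨by rw [hFa 1 one_ne_zero, h1], ?_⟩
    intro a b _
    rcases Nat.eq_zero_or_pos a with ha | ha
    · rw [ha, zero_mul]; simp
    rcases Nat.eq_zero_or_pos b with hb | hb
    · rw [hb, mul_zero]; simp
    rw [hFa _ ha.ne', hFa _ hb.ne', hFa _ (Nat.mul_pos ha hb).ne', hm a b ha.ne' hb.ne']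
  have h2 := hmul.prodPrimeFactors_one_add_of_squarefree hn
  have e1 : ∏ p ∈ n.primeFactors, (1 + g p) = ∏ p ∈ n.primeFactors, (1 + F p) :=
    prod_congr rfl fun p hp => by rw [hFa p (Nat.prime_of_mem_primeFactors hp).ne_zero]
  have e2 : ∑ d ∈ n.divisors, g d = ∑ d ∈ n.divisors, F d :=
    sum_congr rfl fun d hd => by rw [hFa d (Nat.pos_of_mem_divisors hd).ne']
  rw [e1, e2, h2]

lemma Jr_up_mul (e : ℕ) (a b : ℕ) : Jr ((a * b : ℕ) : ℤ) e = Jr (a : ℤ) e * Jr (b : ℤ) e := by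
  unfold Jr
  rw [Nat.cast_mul, jacobiSym.mul_left]
  push_cast
  rfl

lemma Jr_lo_mul (d : ℤ) {a b : ℕ} (ha : a ≠ 0) (hb : b ≠ 0) : Jr d (a * b) = Jr d a * Jr d b := by
  have : NeZero a := ⟨ha⟩
  have : NeZero b := ⟨hb⟩
  unfold Jr
  rw [jacobiSym.mul_right]
  push_cast
  rfl

lemma Jr_up_one (e : ℕ) : Jr ((1 : ℕ) : ℤ) e = 1 := by
  unfold Jr
  rw [Nat.cast_one, jacobiSym.one_left]
  norm_num

lemma Jr_lo_one (d : ℤ) : Jr d 1 = 1 := by
  unfold Jr
  rw [jacobiSym.one_right]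
  norm_num

/-- `∑_{d ∣ m} (d / e)` -/
lemma sum_up {m : ℕ} (hm : Squarefree m) (e : ℕ) :
    ∑ d ∈ m.divisors, Jr (d : ℤ) e = ∏ p ∈ m.primeFactors, (1 + Jr (p : ℤ) e) :=
  sum_dvs hm (fun d => Jr (d : ℤ) e) (Jr_up_one e) (fun a b _ _ => Jr_up_mul e a b)

/-- `∑_{e ∣ n} (d / e)` -/
lemma sum_lo {n : ℕ} (hn : Squarefree n) (d : ℤ) :
    ∑ e ∈ n.divisors, Jr d e = ∏ p ∈ n.primeFactors, (1 + Jr d p) :=
  sum_dvs hn (fun e => Jr d e) (Jr_lo_one d) (fun _ _ ha hb => Jr_lo_mul d ha hb)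

lemma one_add_Jr_nonneg (a : ℤ) (e : ℕ) : 0 ≤ 1 + Jr a e := by
  unfold Jr
  rcases jacobiSym.trichotomy a e with h | h | h <;> rw [h] <;> norm_num

lemma one_add_Jr_le (a : ℤ) (e : ℕ) : 1 + Jr a e ≤ 2 := by
  unfold Jr
  rcases jacobiSym.trichotomy a e with h | h | h <;> rw [h] <;> norm_num

/-- **the formula for `N1`** -/
lemma N1_eq {m n : ℕ} (hm : Squarefree m) (hn : Squarefree n) (hmn : m.Coprime n) :
    (N1 m n : ℝ) = (∑ e ∈ n.divisors, ∏ p ∈ m.primeFactors, (1 + Jr (p : ℤ) e)) /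
      2 ^ n.primeFactors.card := by
  have h1 : ∀ d ∈ m.divisors, (if ∀ p ∈ n.primeFactors, jacobiSym (d : ℤ) p = 1 then (1 : ℝ) else 0) =
      (∑ e ∈ n.divisors, Jr (d : ℤ) e) / 2 ^ n.primeFactors.card := by
    intro d hd
    rw [sum_lo hn, ← prod_const, ← prod_div_distrib]
    have h2 : ∀ p ∈ n.primeFactors, (1 + Jr (d : ℤ) p) / 2 =
        if jacobiSym (d : ℤ) p = 1 then 1 else 0 := by
      intro p hp
      have hpp := Nat.prime_of_mem_primeFactors hp
      have hpn := Nat.dvd_of_mem_primeFactors hp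
      have hco : d.Coprime p := (hmn.coprime_dvd_left (Nat.dvd_of_mem_divisors hd)).coprime_dvd_right hpn
      have hg : (d : ℤ).gcd p = 1 := by
        rw [Int.gcd_natCast_natCast]
        exact hco
      rcases jacobiSym.eq_one_or_neg_one hg with h3 | h3
      · unfold Jr
        rw [h3]
        norm_num
      · unfold Jr
        rw [h3]
        norm_num
    rw [prod_congr rfl h2]
    by_cases h : ∀ p ∈ n.primeFactors, jacobiSym (d : ℤ) p = 1
    · rw [if_pos h]
      symm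
      exact prod_eq_one fun p hp => if_pos (h p hp)
    · rw [if_neg h]
      push Not at h
      obtain ⟨p, hp, hp1⟩ := h
      symm
      exact prod_eq_zero hp (if_neg hp1)
  unfold N1
  rw [card_filter]
  push_cast
  rw [sum_congr rfl h1, ← Finset.sum_div, sum_comm]
  congr 1
  exact sum_congr rfl fun e _ => sum_up hm e

/-- the formula for `R1` -/
lemma R1_eq {m n : ℕ} (hm : Squarefree m) :
    R1 m n = (∑ e ∈ n.divisors.erase 1, ∏ p ∈ m.primeFactors, (1 + Jr (p : ℤ) e)) /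
      2 ^ n.primeFactors.card := by
  unfold R1
  rw [sum_comm]
  congr 1
  exact sum_congr rfl fun e _ => sum_up hm e

lemma R1_nonneg {m n : ℕ} (hm : Squarefree m) : 0 ≤ R1 m n := by
  rw [R1_eq hm]
  exact div_nonneg (sum_nonneg fun e _ => prod_nonneg fun p _ => one_add_Jr_nonneg _ _) (by positivity)

lemma N1_R1 {m n : ℕ} (hm : Squarefree m) (hn : Squarefree n) (hmn : m.Coprime n) :
    (N1 m n : ℝ) = 2 ^ m.primeFactors.card / 2 ^ n.primeFactors.card + R1 m n := by
  rw [N1_eq hm hn hmn, R1_eq hm, ← add_div]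
  congr 1
  rw [← add_sum_erase _ _ (Nat.one_mem_divisors.2 hn.ne_zero)]
  congr 1
  rw [← prod_const]
  refine prod_congr rfl fun p _ => ?_
  rw [Jr_lo_one]
  norm_num

/-- growth -/
lemma N1_mul_le {m n m' n' : ℕ} (hm : Squarefree (m * m')) (hn : Squarefree (n * n'))
    (hmn : (m * m').Coprime (n * n')) :
    (N1 (m * m') (n * n') : ℝ) ≤ 2 ^ m'.primeFactors.card * N1 m n := by
  have hm0 : m ≠ 0 := fun h => hm.ne_zero (by rw [h, zero_mul])
  have hm0' : m' ≠ 0 := fun h => hm.ne_zero (by rw [h, mul_zero])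
  have hn0 : n ≠ 0 := fun h => hn.ne_zero (by rw [h, zero_mul])
  have hn0' : n' ≠ 0 := fun h => hn.ne_zero (by rw [h, mul_zero])
  have hm1 : Squarefree m := hm.squarefree_of_dvd (Dvd.intro _ rfl)
  have hn1 : Squarefree n := hn.squarefree_of_dvd (Dvd.intro _ rfl)
  have hmm : m.Coprime m' := Nat.coprime_of_squarefree_mul hm
  have h1 : N1 (m * m') (n * n') ≤ N1 (m * m') n := by
    unfold N1
    refine card_le_card fun d hd => ?_
    rw [mem_filter] at hd ⊢
    refine ⟨hd.1, fun p hp => hd.2 p ?_⟩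
    rw [Nat.primeFactors_mul hn0 hn0']
    exact mem_union_left _ hp
  have hco1 : (m * m').Coprime n := hmn.coprime_dvd_right (Dvd.intro _ rfl)
  have hco2 : m.Coprime n := hco1.coprime_dvd_left (Dvd.intro _ rfl)
  have h2 : (N1 (m * m') n : ℝ) ≤ 2 ^ m'.primeFactors.card * N1 m n := by
    rw [N1_eq hm hn1 hco1, N1_eq hm1 hn1 hco2, ← mul_div_assoc, mul_sum]
    refine div_le_div_of_nonneg_right (sum_le_sum fun e _ => ?_) (by positivity)
    rw [hmm.primeFactors_mul, prod_union hmm.disjoint_primeFactors, mul_comm]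
    refine mul_le_mul_of_nonneg_right ?_ (prod_nonneg fun p _ => one_add_Jr_nonneg _ _)
    rw [← prod_const]
    exact prod_le_prod (fun p _ => one_add_Jr_nonneg _ _) fun p _ => one_add_Jr_le _ _
  exact (by exact_mod_cast h1 : (N1 (m * m') (n * n') : ℝ) ≤ N1 (m * m') n).trans h2

/-- `GG ≤ 1 + R1 + R1'` -/
lemma GG_le {m n : ℕ} (hm : Squarefree m) (hn : Squarefree n) (hmn : m.Coprime n) :
    GG m n ≤ 1 + R1 m n + R1 n m := by
  have hR := R1_nonneg (n := n) hm
  have hR' := R1_nonneg (n := m) hn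
  have key : ∀ (k l : ℕ) (R R' : ℝ), 0 ≤ R → 0 ≤ R' → l ≤ k →
      ((2 : ℝ) ^ k / 2 ^ l + R) * (2 ^ l / 2 ^ k + R') / (2 : ℝ) ^ |((k : ℕ) : ℝ) - ((l : ℕ) : ℝ)| ≤
        (1 + R + R') ^ 2 := by
    intro k l R R' h1 h2 hkl
    have hkl' : (l : ℝ) ≤ k := by exact_mod_cast hkl
    rw [abs_of_nonneg (sub_nonneg.2 hkl'), Real.rpow_sub (by norm_num), Real.rpow_natCast,
      Real.rpow_natCast]
    set P : ℝ := 2 ^ k / 2 ^ l with hP
    have hP1 : 1 ≤ P := by
      rw [hP, one_le_div (by positivity)]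
      exact pow_le_pow_right₀ (by norm_num) hkl
    have hP0 : 0 < P := by linarith
    have e1 : (2 : ℝ) ^ l / 2 ^ k = 1 / P := by
      rw [hP]
      field_simp
    rw [e1]
    have e2 : (P + R) * (1 / P + R') / P = (1 + R / P) * (1 / P + R') := by
      field_simp
    rw [e2]
    have h3 : R / P ≤ R := div_le_self h1 hP1
    have h4 : 1 / P ≤ 1 := by
      rw [div_le_one hP0]
      exact hP1
    have h5 : 0 ≤ R / P := by positivity
    have h6 : 0 ≤ 1 / P := by positivity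
    calc (1 + R / P) * (1 / P + R') ≤ (1 + R) * (1 + R') := by gcongr
      _ ≤ _ := by nlinarith [mul_nonneg h1 h2]
  unfold GG
  apply Real.sqrt_le_iff.2
  refine ⟨by positivity, ?_⟩
  rw [N1_R1 hm hn hmn, N1_R1 hn hm hmn.symm]
  rcases le_total n.primeFactors.card m.primeFactors.card with h | h
  · exact key _ _ _ _ hR hR' h
  · have := key _ _ _ _ hR' hR h
    rw [abs_sub_comm] at this
    calc _ = (2 ^ n.primeFactors.card / 2 ^ m.primeFactors.card + R1 n m) *
          (2 ^ m.primeFactors.card / 2 ^ n.primeFactors.card + R1 m n) /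
          (2 : ℝ) ^ |((m.primeFactors.card : ℕ) : ℝ) - ((n.primeFactors.card : ℕ) : ℝ)| := by
            rw [mul_comm (2 ^ m.primeFactors.card / 2 ^ n.primeFactors.card + R1 m n)]
      _ ≤ _ := this
      _ = _ := by ring

lemma GG_nonneg (m n : ℕ) : 0 ≤ GG m n := Real.sqrt_nonneg _

/-- growth of `GG` -/
lemma GG_mul_le {m n m' n' : ℕ} (hm : Squarefree (m * m')) (hn : Squarefree (n * n'))
    (hmn : (m * m').Coprime (n * n')) :
    GG (m * m') (n * n') ≤ 2 ^ (m'.primeFactors.card + n'.primeFactors.card) * GG m n := by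
  have hm0 : m ≠ 0 := fun h => hm.ne_zero (by rw [h, zero_mul])
  have hm0' : m' ≠ 0 := fun h => hm.ne_zero (by rw [h, mul_zero])
  have hn0 : n ≠ 0 := fun h => hn.ne_zero (by rw [h, zero_mul])
  have hn0' : n' ≠ 0 := fun h => hn.ne_zero (by rw [h, mul_zero])
  have hmm : m.Coprime m' := Nat.coprime_of_squarefree_mul hm
  have hnn : n.Coprime n' := Nat.coprime_of_squarefree_mul hn
  have c1 : (m * m').primeFactors.card = m.primeFactors.card + m'.primeFactors.card := by
    rw [hmm.primeFactors_mul, card_union_of_disjoint hmm.disjoint_primeFactors]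
  have c2 : (n * n').primeFactors.card = n.primeFactors.card + n'.primeFactors.card := by
    rw [hnn.primeFactors_mul, card_union_of_disjoint hnn.disjoint_primeFactors]
  set a : ℝ := ((m.primeFactors.card : ℕ) : ℝ) - ((n.primeFactors.card : ℕ) : ℝ) with ha
  set a' : ℝ := (((m * m').primeFactors.card : ℕ) : ℝ) - (((n * n').primeFactors.card : ℕ) : ℝ)
    with ha'
  set e : ℕ := m'.primeFactors.card + n'.primeFactors.card with he
  have h1 : |a| ≤ |a'| + e := by
    have e1 : a = a' - (m'.primeFactors.card : ℝ) + (n'.primeFactors.card : ℝ) := by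
      rw [ha, ha', c1, c2]
      push_cast
      ring
    have e2 : (0 : ℝ) ≤ (m'.primeFactors.card : ℝ) := Nat.cast_nonneg _
    have e3 : (0 : ℝ) ≤ (n'.primeFactors.card : ℝ) := Nat.cast_nonneg _
    rw [he]
    push_cast
    rw [abs_le]
    have e4 := neg_abs_le a'
    have e5 := le_abs_self a'
    constructor <;> linarith
  have h2 : (1 : ℝ) / (2 : ℝ) ^ |a'| ≤ 2 ^ e / (2 : ℝ) ^ |a| := by
    rw [div_le_div_iff₀ (Real.rpow_pos_of_pos (by norm_num) _)
      (Real.rpow_pos_of_pos (by norm_num) _), one_mul, ← Real.rpow_natCast, ← Real.rpow_add (by norm_num)]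
    exact Real.rpow_le_rpow_of_exponent_le (by norm_num) (by linarith)
  have h3 := N1_mul_le hm hn hmn
  have h4 := N1_mul_le hn hm hmn.symm
  unfold GG
  apply Real.sqrt_le_iff.2
  refine ⟨by positivity, ?_⟩
  have hP : (0 : ℝ) ≤ (N1 m n : ℝ) * (N1 n m : ℝ) / (2 : ℝ) ^ |a| := by positivity
  rw [mul_pow, Real.sq_sqrt hP]
  calc (N1 (m * m') (n * n') : ℝ) * (N1 (n * n') (m * m') : ℝ) / (2 : ℝ) ^ |a'|
      = (N1 (m * m') (n * n') : ℝ) * (N1 (n * n') (m * m') : ℝ) * (1 / (2 : ℝ) ^ |a'|) := by ring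
    _ ≤ (2 ^ m'.primeFactors.card * N1 m n) * (2 ^ n'.primeFactors.card * N1 n m) *
        (2 ^ e / (2 : ℝ) ^ |a|) := by gcongr
    _ = _ := by
        rw [he]
        ring

end Pool.Agent.L7h19.IS
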