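import Mathlib
import Pool.Agent.L7h19.IS.Cnt
import Pool.Agent.L7h19.IS.Maj

/-!
# Project IS: the average of the majorant, together with the residue classes
-/

set_option autoImplicit false
set_option linter.unusedSectionVars false

namespace Pool.Agent.L7h19.IS

open Finset Polynomial Pool.Agent.W262.RK Pool.Agent.L7h19.RP Pool.Agent.W108.RK
open Pool.Agent.H474R2.PG (rho)
open Pool.Agent.L7h19.RP.AT (gm hq BWg)

variable {J : Type} [Fintype J] [DecidableEq J] {z y : ℕ}

lemma tup_sqf {s : J → ℕ} (hs : s ∈ Tup J z y) : Squarefree (∏ j, s j) := by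
  apply Finset.squarefree_prod_of_pairwise_isCoprime
  · intro i _ j _ hij
    exact Nat.coprime_iff_isRelPrime.1 ((mem_Tup.1 hs).2 i j hij)
  · intro j _
    exact sqf_of_mem hs j

lemma pT_mul (cB : J → Bool) (s : J → ℕ) : pT cB s true * pT cB s false = ∏ j, s j := by
  unfold pT
  rw [← prod_filter_mul_prod_filter_not univ (fun j => cB j = true) s]
  congr 1
  refine prod_congr ?_ fun _ _ => rfl
  exact filter_congr fun j _ => by cases cB j <;> simp

lemma pT_sqf (cB : J → Bool) {s : J → ℕ} (hs : s ∈ Tup J z y) (r : Bool) :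
    Squarefree (pT cB s r) := by
  refine (tup_sqf hs).squarefree_of_dvd ?_
  rw [← pT_mul cB s]
  cases r
  · exact Dvd.intro_left _ rfl
  · exact Dvd.intro _ rfl

lemma pT_cop (cB : J → Bool) {s : J → ℕ} (hs : s ∈ Tup J z y) :
    (pT cB s true).Coprime (pT cB s false) := by
  apply Nat.coprime_of_squarefree_mul
  rw [pT_mul]
  exact tup_sqf hs

open Classical in
/-- the number of the residue classes -/
lemma card_Rs (f : J → ℤ[X]) {s : J → ℕ} (hs : s ∈ Tup J z y) :
    ((Rs f s).card : ℝ) = ∏ j, ∏ p ∈ (s j).primeFactors, (rho (f j) p : ℝ) := by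
  have hsqf := tup_sqf hs
  have hm : ∏ p ∈ (∏ j, s j).primeFactors, p = ∏ j, s j :=
    Nat.prod_primeFactors_of_squarefree hsqf
  have hiff : ∀ r : ℕ, (∀ j, (s j : ℤ) ∣ (f j).eval (r : ℤ)) ↔
      ∀ p ∈ (∏ j, s j).primeFactors, ∀ j, p ∣ s j → (p : ℤ) ∣ (f j).eval (r : ℤ) := by
    intro r
    constructor
    · intro h p _ j hj
      exact (Int.natCast_dvd_natCast.2 hj).trans (h j)
    · intro h j
      have h1 : (s j : ℤ) = ∏ p ∈ (s j).primeFactors, (p : ℤ) := by
        conv_lhs => rw [← Nat.prod_primeFactors_of_squarefree (sqf_of_mem hs j)]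
        push_cast
        rfl
      rw [h1]
      refine Finset.prod_dvd_of_coprime ?_ ?_
      · intro p hp q hq hpq
        exact Nat.isCoprime_iff_coprime.2 ((Nat.coprime_primes (Nat.prime_of_mem_primeFactors hp)
          (Nat.prime_of_mem_primeFactors hq)).2 hpq)
      · intro p hp
        exact h p (Nat.mem_primeFactors.2 ⟨Nat.prime_of_mem_primeFactors hp,
          (Nat.dvd_of_mem_primeFactors hp).trans (dvd_prod_of_mem _ (mem_univ j)),
          hsqf.ne_zero⟩) j (Nat.dvd_of_mem_primeFactors hp)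
  have h1 : ((Rs f s).card : ℝ) = ∑ r ∈ range (∏ j, s j),
      ∏ p ∈ (∏ j, s j).primeFactors, (if (∀ j, p ∣ s j → (p : ℤ) ∣ (f j).eval (r : ℤ)) then
        (1 : ℝ) else 0) := by
    unfold Rs
    rw [card_filter]
    push_cast
    refine sum_congr rfl fun r _ => ?_
    by_cases hr : ∀ j, (s j : ℤ) ∣ (f j).eval (r : ℤ)
    · rw [if_pos hr]
      symm
      exact prod_eq_one fun p hp => if_pos ((hiff r).1 hr p hp)
    · rw [if_neg hr]
      have hr' : ¬ ∀ p ∈ (∏ j, s j).primeFactors, ∀ j, p ∣ s j → (p : ℤ) ∣ (f j).eval (r : ℤ) :=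
        fun h => hr ((hiff r).2 h)
      push Not at hr'
      obtain ⟨p, hp, j, hj, hpj⟩ := hr'
      symm
      exact prod_eq_zero hp (if_neg fun h => hpj (h j hj))
  rw [h1]
  conv_lhs => rw [← hm]
  have hm2 : (∏ p ∈ (∏ j, s j).primeFactors, p).primeFactors = (∏ j, s j).primeFactors := by
    rw [hm]
  rw [hm2, sum_crt_prod _ (fun p hp => Nat.prime_of_mem_primeFactors hp)
    (fun p r => if (∀ j, p ∣ s j → (p : ℤ) ∣ (f j).eval (r : ℤ)) then (1 : ℝ) else 0)]
  · rw [Pool.Agent.L7h19.RP.AT.primeFactors_prod_tup hs, prod_biUnion]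
    · refine prod_congr rfl fun j _ => prod_congr rfl fun p hp => ?_
      have hpp := Nat.prime_of_mem_primeFactors hp
      have hpj := Nat.dvd_of_mem_primeFactors hp
      unfold rho
      rw [card_filter]
      push_cast
      refine sum_congr rfl fun ν _ => ?_
      refine if_congr ?_ rfl rfl
      constructor
      · intro h
        exact h j hpj
      · intro h l hl
        have hlj : l = j := by
          by_contra hne
          have h5 := (mem_Tup.1 hs).2 l j hne
          exact hpp.one_lt.ne' (Nat.dvd_one.1 (h5 ▸ Nat.dvd_gcd hl hpj))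
        rw [hlj]
        exact h
    · intro i _ j _ hij
      exact ((mem_Tup.1 hs).2 i j hij).disjoint_primeFactors
  · intro p _ r
    have hmod := mod_self r p
    refine if_congr (forall_congr' fun j => forall_congr' fun _ => ?_) rfl rfl
    exact (eval_mod (f j) hmod).dvd_iff

/-- the function to be averaged -/
noncomputable def GR (cB : J → Bool) (f : J → ℤ[X]) (s : J → ℕ) : ℝ :=
  ((Rs f s).card : ℝ) * GG (pT cB s true) (pT cB s false)

lemma GR_nonneg (cB : J → Bool) (f : J → ℤ[X]) (s : J → ℕ) : 0 ≤ GR cB f s :=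
  mul_nonneg (Nat.cast_nonneg _) (GG_nonneg _ _)

lemma pf_pT (cB : J → Bool) {s : J → ℕ} (hs : s ∈ Tup J z y) (r : Bool) :
    (pT cB s r).primeFactors.card = ∑ j ∈ univ.filter (fun j => cB j = r),
      (s j).primeFactors.card := by
  have h0 : ∀ j, s j ≠ 0 := fun j => (sqf_of_mem hs j).ne_zero
  unfold pT
  have h1 : (∏ j ∈ univ.filter (fun j => cB j = r), s j).primeFactors =
      (univ.filter (fun j => cB j = r)).biUnion (fun j => (s j).primeFactors) := by
    ext p
    rw [mem_biUnion, Nat.mem_primeFactors]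
    constructor
    · rintro ⟨hp, hd, _⟩
      obtain ⟨j, hj1, hj⟩ := (Prime.dvd_finsetProd_iff hp.prime _).1 hd
      exact ⟨j, hj1, Nat.mem_primeFactors.2 ⟨hp, hj, h0 j⟩⟩
    · rintro ⟨j, hj1, hj⟩
      exact ⟨Nat.prime_of_mem_primeFactors hj,
        (Nat.dvd_of_mem_primeFactors hj).trans (dvd_prod_of_mem s hj1),
        prod_ne_zero_iff.2 fun j _ => h0 j⟩
  rw [h1, card_biUnion]
  intro i _ j _ hij
  exact ((mem_Tup.1 hs).2 i j hij).disjoint_primeFactors

/-- growth -/
lemma GR_sub (cB : J → Bool) (f : J → ℤ[X]) {c : ℕ} (hc : 1 ≤ c)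
    (hρ : ∀ p : ℕ, p.Prime → z < p → ∀ j, rho (f j) p ≤ c) {s e : J → ℕ}
    (hse : (fun j => s j * e j) ∈ Tup J z y) :
    GR cB f (fun j => s j * e j) ≤ (2 * c : ℝ) ^ (∑ j, (e j).primeFactors.card) * GR cB f s := by
  have h0 : ∀ j, s j * e j ≠ 0 := fun j => (sqf_of_mem hse j).ne_zero
  have hs0 : ∀ j, s j ≠ 0 := fun j h => h0 j (by rw [h, zero_mul])
  have he0 : ∀ j, e j ≠ 0 := fun j h => h0 j (by rw [h, mul_zero])
  have hs : s ∈ Tup J z y := by
    rw [mem_Tup] at hse ⊢
    refine ⟨fun j => (Dvd.intro _ rfl).trans (hse.1 j), fun i j hij => ?_⟩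
    exact ((hse.2 i j hij).coprime_dvd_left (Dvd.intro _ rfl)).coprime_dvd_right (Dvd.intro _ rfl)
  have he : e ∈ Tup J z y := by
    rw [mem_Tup] at hse ⊢
    refine ⟨fun j => (Dvd.intro_left _ rfl).trans (hse.1 j), fun i j hij => ?_⟩
    exact ((hse.2 i j hij).coprime_dvd_left (Dvd.intro_left _ rfl)).coprime_dvd_right
      (Dvd.intro_left _ rfl)
  have hpT : ∀ r, pT cB (fun j => s j * e j) r = pT cB s r * pT cB e r := fun r => by
    unfold pT
    rw [prod_mul_distrib]
  have h1 : GG (pT cB (fun j => s j * e j) true) (pT cB (fun j => s j * e j) false) ≤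
      2 ^ (∑ j, (e j).primeFactors.card) * GG (pT cB s true) (pT cB s false) := by
    have hm := pT_sqf cB hse true
    have hn := pT_sqf cB hse false
    have hmn := pT_cop cB hse
    rw [hpT] at hm hn
    rw [hpT, hpT] at hmn ⊢
    refine (GG_mul_le hm hn hmn).trans (le_of_eq ?_)
    congr 2
    rw [pf_pT cB he, pf_pT cB he, ← sum_filter_add_sum_filter_not univ (fun j => cB j = true)]
    congr 1
    refine sum_congr ?_ fun _ _ => rfl
    exact filter_congr fun j _ => by cases cB j <;> simp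
  have h2 : ((Rs f (fun j => s j * e j)).card : ℝ) ≤
      (c : ℝ) ^ (∑ j, (e j).primeFactors.card) * ((Rs f s).card : ℝ) := by
    rw [card_Rs f hse, card_Rs f hs, ← prod_pow_eq_pow_sum, ← prod_mul_distrib]
    refine prod_le_prod (fun j _ => prod_nonneg fun p _ => Nat.cast_nonneg _) fun j _ => ?_
    have hco : (s j).Coprime (e j) := Nat.coprime_of_squarefree_mul (sqf_of_mem hse j)
    rw [hco.primeFactors_mul, prod_union hco.disjoint_primeFactors, mul_comm]
    refine mul_le_mul_of_nonneg_right ?_ (prod_nonneg fun p _ => Nat.cast_nonneg _)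
    rw [← prod_const]
    refine prod_le_prod (fun p _ => Nat.cast_nonneg _) fun p hp => ?_
    have hpp := Nat.prime_of_mem_primeFactors hp
    have hzp : z < p := (dv_prime ((AT.mem_Tup'.1 he).1 j) hpp (Nat.dvd_of_mem_primeFactors hp)).1
    exact_mod_cast hρ p hpp hzp j
  unfold GR
  calc _ ≤ ((c : ℝ) ^ (∑ j, (e j).primeFactors.card) * ((Rs f s).card : ℝ)) *
        (2 ^ (∑ j, (e j).primeFactors.card) * GG (pT cB s true) (pT cB s false)) :=
        mul_le_mul h2 h1 (GG_nonneg _ _) (by positivity)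
    _ = _ := by
        rw [mul_pow]
        ring

lemma gm_gaw (f : ℤ[X]) (c : ℕ) (s : ℕ) :
    gm (gaw f 1 c) s = gw 1 c s * ∏ p ∈ s.primeFactors, (rho f p : ℝ) := by
  unfold gm gaw gw
  rw [prod_mul_distrib]

/-- the diagonal part -/
lemma maj0 (f : J → ℤ[X]) (hf : ∀ j, Irreducible (f j))
    (hd : ∀ j, 0 < (f j).natDegree) (c : ℕ) :
    ∃ z0 : ℕ, ∀ z, z0 ≤ z → ∃ C : ℝ, ∀ y, z < y →
      ∑ s ∈ Tup J z y, ∏ j, gm (gaw (f j) 1 c) (s j) ≤ C * (Real.log y) ^ (Fintype.card J) := by
  classical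
  choose z2 hz2 using fun j : J => stFull (f j) (1 / 2) c 0 (hf _) (hd _) (by norm_num) le_rfl
  choose Br hBr using fun j : J => Pool.Agent.H474R2.PG.rho_le (f j) (hf j).ne_zero
  refine ⟨∑ j, z2 j + ∑ j, Br j + (2 * c + 4), fun z hz => ?_⟩
  have hz2' : ∀ a, z2 a ≤ z := fun a => (le_sum_nat z2 a).trans (by omega)
  have hBr' : ∀ j, Br j ≤ z := fun j => (le_sum_nat Br j).trans (by omega)
  choose C3 hC3 using fun a : J => hz2 a z (hz2' a)
  set C : ℝ := 1 + ∑ a, |C3 a| with hC
  have hs3 : 0 ≤ ∑ a, |C3 a| := sum_nonneg fun _ _ => abs_nonneg _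
  have hCC3 : ∀ a, C3 a ≤ C := fun a => by have := le_sum_abs C3 a; linarith
  have hC0 : 0 ≤ C := by linarith
  refine ⟨(C ^ 2) ^ (Fintype.card J), fun y hy => ?_⟩
  have hly : 0 ≤ Real.log y := Real.log_natCast_nonneg y
  have hgaw0 : ∀ (j : J) (w : ℝ) (p : ℕ), 0 < w → p.Prime → z < p → 0 ≤ gaw (f j) w c p := by
    intro j w p hw hp hzp
    unfold gaw
    have h1 : (c : ℝ) < p := by exact_mod_cast (by omega : c < p)
    have h2 : (0 : ℝ) < (p : ℝ) - c := by linarith
    positivity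
  have hgm : ∀ j, ∀ d ∈ (PP z y).divisors, 0 ≤ gm (gaw (f j) 1 c) d := by
    intro j d hd
    unfold gm
    refine prod_nonneg fun p hp => ?_
    have hpp := Nat.prime_of_mem_primeFactors hp
    exact hgaw0 j 1 p one_pos hpp (dv_prime hd hpp (Nat.dvd_of_mem_primeFactors hp)).1
  -- one variable
  have h1 : ∀ j, ∑ d ∈ (PP z y).divisors, gm (gaw (f j) 1 c) d ≤ C ^ 2 * Real.log y := by
    intro j
    have hsum : ∀ w : ℝ, ∑ d ∈ (PP z y).divisors, gm (gaw (f j) w c) d =
        ∏ p ∈ (PP z y).primeFactors, (1 + gaw (f j) w c p) := by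
      intro w
      have h5 : ∀ d ∈ (PP z y).divisors, gm (gaw (f j) w c) d =
          ∏ p ∈ d.primeFactors, gaw (f j) w c p := fun d _ => rfl
      rw [sum_congr rfl h5]
      have hsq := Pool.Agent.W262.RK.PP_squarefree z y
      rw [prod_one_add, ← Finset.sum_nbij' (fun S : Finset ℕ => ∏ p ∈ S, p)
        (fun d : ℕ => d.primeFactors) (s := (PP z y).primeFactors.powerset)
        (t := (PP z y).divisors)]
      · intro S hS
        rw [mem_powerset] at hS
        rw [Nat.mem_divisors]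
        exact ⟨(prod_dvd_prod_of_subset _ _ _ hS).trans (Nat.prod_primeFactors_dvd _), hsq.ne_zero⟩
      · intro d hd
        rw [mem_powerset]
        exact Nat.primeFactors_mono (Nat.dvd_of_mem_divisors hd) hsq.ne_zero
      · intro S hS
        rw [mem_powerset] at hS
        exact Nat.primeFactors_prod fun p hp => Nat.prime_of_mem_primeFactors (hS hp)
      · intro d hd
        exact Nat.prod_primeFactors_of_squarefree
          (hsq.squarefree_of_dvd (Nat.dvd_of_mem_divisors hd))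
      · intro S hS
        rw [mem_powerset] at hS
        rw [Nat.primeFactors_prod fun p hp => Nat.prime_of_mem_primeFactors (hS hp)]
    have h2 : ∑ d ∈ (PP z y).divisors, gm (gaw (f j) 1 c) d ≤
        (∑ d ∈ (PP z y).divisors, gm (gaw (f j) (1 / 2) c) d) ^ 2 := by
      rw [hsum, hsum, ← prod_pow]
      have hpr : ∀ p ∈ (PP z y).primeFactors, p.Prime ∧ z < p := fun p hp =>
        ⟨Nat.prime_of_mem_primeFactors hp, (dv_prime (Nat.mem_divisors.2
          ⟨dvd_refl _, (Pool.Agent.W262.RK.PP_squarefree z y).ne_zero⟩) (Nat.prime_of_mem_primeFactors hp)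
          (Nat.dvd_of_mem_primeFactors hp)).1⟩
      refine prod_le_prod (fun p hp => ?_) fun p hp => ?_
      · have := hgaw0 j 1 p one_pos (hpr p hp).1 (hpr p hp).2
        linarith
      · have h5 := hgaw0 j (1 / 2) p (by norm_num) (hpr p hp).1 (hpr p hp).2
        have h6 : gaw (f j) 1 c p = 2 * gaw (f j) (1 / 2) c p := by
          unfold gaw
          ring
        rw [h6]
        nlinarith [sq_nonneg (gaw (f j) (1 / 2) c p)]
    have h3 : ∑ d ∈ (PP z y).divisors, gm (gaw (f j) (1 / 2) c) d ≤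
        C * (Real.log y) ^ (1 / 2 : ℝ) := by
      refine le_trans (sum_le_sum fun d hd => ?_) (((hC3 j).1 y hy).trans
        (mul_le_mul_of_nonneg_right (hCC3 j) (Real.rpow_nonneg hly _)))
      refine le_mul_of_one_le_right ?_ (AT.one_le_hq _ _)
      unfold gm
      refine prod_nonneg fun p hp => ?_
      have hpp := Nat.prime_of_mem_primeFactors hp
      exact hgaw0 j (1 / 2) p (by norm_num) hpp (dv_prime hd hpp (Nat.dvd_of_mem_primeFactors hp)).1
    have h4 : 0 ≤ ∑ d ∈ (PP z y).divisors, gm (gaw (f j) (1 / 2) c) d := by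
      refine sum_nonneg fun d hd => ?_
      unfold gm
      refine prod_nonneg fun p hp => ?_
      have hpp := Nat.prime_of_mem_primeFactors hp
      exact hgaw0 j (1 / 2) p (by norm_num) hpp (dv_prime hd hpp (Nat.dvd_of_mem_primeFactors hp)).1
    calc _ ≤ _ := h2
      _ ≤ (C * (Real.log y) ^ (1 / 2 : ℝ)) ^ 2 := pow_le_pow_left₀ h4 h3 2
      _ = C ^ 2 * Real.log y := by
          rw [mul_pow, ← Real.sqrt_eq_rpow, Real.sq_sqrt hly]
  calc ∑ s ∈ Tup J z y, ∏ j, gm (gaw (f j) 1 c) (s j)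
      ≤ ∑ s ∈ Fintype.piFinset (fun _ : J => (PP z y).divisors), ∏ j, gm (gaw (f j) 1 c) (s j) := by
        unfold Tup
        refine sum_le_sum_of_subset_of_nonneg (filter_subset _ _) fun s hs _ => ?_
        exact prod_nonneg fun j _ => hgm j _ (Fintype.mem_piFinset.1 hs j)
    _ = ∏ j, ∑ d ∈ (PP z y).divisors, gm (gaw (f j) 1 c) d := by
        rw [← prod_univ_sum (fun _ => (PP z y).divisors) (fun j d => gm (gaw (f j) 1 c) d)]
    _ ≤ ∏ _j : J, (C ^ 2 * Real.log y) := prod_le_prod (fun j _ => sum_nonneg (hgm j)) fun j _ => h1 j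
    _ = _ := by
        rw [prod_const, card_univ, mul_pow]

lemma R1_swap (cB : J → Bool) (s : J → ℕ) :
    R1 (pT cB s false) (pT cB s true) = R1 (pT (fun j => !(cB j)) s true)
      (pT (fun j => !(cB j)) s false) := by
  have h : ∀ r, pT (fun j => !(cB j)) s r = pT cB s (!r) := by
    intro r
    unfold pT
    refine prod_congr ?_ fun _ _ => rfl
    exact filter_congr fun j _ => by cases hj : cB j <;> cases r <;> simp [hj]
  rw [h, h]
  rfl

/-- **the average** -/
theorem avg (hUp : StUp) (hBW : StBW) (hFr : StFree) (hEx : S_EXP)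
    (cB : J → Bool) (f : J → ℤ[X]) (hf : ∀ j, Irreducible (f j))
    (hd : ∀ j, 0 < (f j).natDegree) (c : ℕ) :
    ∃ z0 : ℕ, ∀ z, z0 ≤ z → ∃ C : ℝ, ∀ y, z < y →
      ∑ s ∈ Tup J z y, GR cB f s * ∏ j, gw 1 c (s j) ≤ C * (Real.log y) ^ (Fintype.card J) := by
  obtain ⟨za, ha⟩ := maj0 f hf hd c
  obtain ⟨zb, hb⟩ := maj1 hUp hBW hFr hEx cB f hf hd c
  obtain ⟨zc, hc⟩ := maj1 hUp hBW hFr hEx (fun j => !(cB j)) f hf hd c
  refine ⟨za + zb + zc + (c + 1), fun z hz => ?_⟩
  obtain ⟨Ca, hCa⟩ := ha z (by omega)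
  obtain ⟨Cb, hCb⟩ := hb z (by omega)
  obtain ⟨Cc, hCc⟩ := hc z (by omega)
  refine ⟨Ca + Cb + Cc, fun y hy => ?_⟩
  have h1 := hCa y hy
  have h2 := hCb y hy
  have h3 := hCc y hy
  have h4 : ∀ s ∈ Tup J z y, GR cB f s * ∏ j, gw 1 c (s j) ≤
      (∏ j, gm (gaw (f j) 1 c) (s j)) +
      R1 (pT cB s true) (pT cB s false) * ∏ j, gm (gaw (f j) 1 c) (s j) +
      R1 (pT (fun j => !(cB j)) s true) (pT (fun j => !(cB j)) s false) *
        ∏ j, gm (gaw (f j) 1 c) (s j) := by
    intro s hs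
    have e1 : GR cB f s * ∏ j, gw 1 c (s j) =
        GG (pT cB s true) (pT cB s false) * ∏ j, gm (gaw (f j) 1 c) (s j) := by
      unfold GR
      rw [card_Rs f hs]
      simp_rw [gm_gaw]
      rw [prod_mul_distrib]
      ring
    have e2 : 0 ≤ ∏ j, gm (gaw (f j) 1 c) (s j) := by
      refine prod_nonneg fun j _ => ?_
      unfold gm
      refine prod_nonneg fun p hp => ?_
      have hpp := Nat.prime_of_mem_primeFactors hp
      have hzp := (dv_prime ((AT.mem_Tup'.1 hs).1 j) hpp (Nat.dvd_of_mem_primeFactors hp)).1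
      unfold gaw
      have h1 : (c : ℝ) < p := by exact_mod_cast (by omega : c < p)
      have h2 : (0 : ℝ) < (p : ℝ) - c := by linarith
      positivity
    rw [e1]
    have e3 := GG_le (pT_sqf cB hs true) (pT_sqf cB hs false) (pT_cop cB hs)
    rw [R1_swap] at e3
    calc _ ≤ (1 + R1 (pT cB s true) (pT cB s false) +
          R1 (pT (fun j => !(cB j)) s true) (pT (fun j => !(cB j)) s false)) *
          ∏ j, gm (gaw (f j) 1 c) (s j) := mul_le_mul_of_nonneg_right e3 e2
      _ = _ := by ring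
  refine (sum_le_sum h4).trans ?_
  rw [sum_add_distrib, sum_add_distrib, add_mul, add_mul]
  linarith

end Pool.Agent.L7h19.IS
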