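import Mathlib
import Pool.Agent.L7h19.IS.Stm

/-!
# Project IS: the irreducible factors
-/

set_option autoImplicit false

namespace Pool.Agent.L7h19.IS

open Finset Polynomial UniqueFactorizationMonoid

/-- the image in `ℚ[X]` -/
noncomputable abbrev mq (g : ℤ[X]) : ℚ[X] := g.map (Int.castRingHom ℚ)

/-- the number of irreducible factors over `ℚ` -/
noncomputable def nf (g : ℤ[X]) : ℕ := (normalizedFactors (mq g)).card

open Classical in
/-- the nonconstant irreducible factors -/
noncomputable def SF (g : ℤ[X]) : Finset ℤ[X] :=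
  (normalizedFactors g).toFinset.filter (fun f => 0 < f.natDegree)

lemma mq_ne {g : ℤ[X]} (hg : mq g ≠ 0) : g ≠ 0 := by
  rintro rfl
  exact hg (Polynomial.map_zero _)

lemma SF_irr {g f : ℤ[X]} (h : f ∈ SF g) : Irreducible f ∧ 0 < f.natDegree ∧ f ∣ g := by
  classical
  unfold SF at h
  rw [mem_filter, Multiset.mem_toFinset] at h
  exact ⟨irreducible_of_normalized_factor f h.1, h.2, dvd_of_mem_normalizedFactors h.1⟩

lemma mq_irr {f : ℤ[X]} (hf : Irreducible f) (hd : 0 < f.natDegree) : Irreducible (mq f) := by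
  have hp : f.IsPrimitive := hf.isPrimitive hd.ne'
  exact (Polynomial.IsPrimitive.Int.irreducible_iff_irreducible_map_cast hp).1 hf

lemma mq_sq_dvd {f g : ℤ[X]} (h : f * f ∣ g) (hg : Squarefree (mq g)) (hd : 0 < f.natDegree) :
    False := by
  have h1 : mq f * mq f ∣ mq g := by
    rw [← Polynomial.map_mul]
    exact Polynomial.map_dvd _ h
  have h2 := hg _ h1
  have h3 := natDegree_eq_zero_of_isUnit h2
  rw [natDegree_map_eq_of_injective (Int.cast_injective)] at h3
  omega

/-- the factorization -/
lemma exists_fac {g : ℤ[X]} (hg : Squarefree (mq g)) :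
    ∃ β : ℤ, β ≠ 0 ∧ g = C β * ∏ f ∈ SF g, f := by
  classical
  have hg0 : g ≠ 0 := mq_ne hg.ne_zero
  set M := normalizedFactors g with hM
  set M1 := M.filter (fun f => 0 < f.natDegree) with hM1
  set M0 := M.filter (fun f => ¬ 0 < f.natDegree) with hM0
  have hsplit : M1 + M0 = M := Multiset.filter_add_not _ _
  have hassoc : Associated M.prod g := prod_normalizedFactors hg0
  obtain ⟨u, hu⟩ := hassoc
  have hnd : M1.Nodup := by
    rw [Multiset.nodup_iff_count_le_one]
    intro f
    by_contra hcon
    push Not at hcon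
    have hf1 : f ∈ M1 := Multiset.count_pos.1 (by omega)
    have hfd : 0 < f.natDegree := (Multiset.mem_filter.1 hf1).2
    have h2 : Multiset.replicate 2 f ≤ M1 := Multiset.le_count_iff_replicate_le.1 hcon
    have h3 : f * f ∣ M.prod := by
      have h4 := Multiset.prod_dvd_prod_of_le (h2.trans (Multiset.filter_le _ _))
      rwa [Multiset.prod_replicate, pow_two] at h4
    refine mq_sq_dvd (h3.trans ?_) hg hfd
    rw [← hu]
    exact Dvd.intro _ rfl
  have hprod1 : M1.prod = ∏ f ∈ SF g, f := by
    have h5 : SF g = M1.toFinset := by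
      unfold SF
      rw [hM1, Multiset.toFinset_filter]
    rw [h5, Finset.prod_eq_multiset_prod, Multiset.toFinset_val, hnd.dedup, Multiset.map_id']
  have hM0c : ∃ κ : ℤ, M0.prod = C κ := by
    have h6 : ∀ f ∈ M0, f.natDegree = 0 := fun f hf => by
      have := (Multiset.mem_filter.1 hf).2
      omega
    have h7 : M0.prod.natDegree = 0 := by
      have h8 := natDegree_multiset_prod_le M0
      have h9 : (M0.map natDegree).sum = 0 := by
        rw [Multiset.sum_eq_zero]
        intro d hd
        obtain ⟨f, hf, rfl⟩ := Multiset.mem_map.1 hd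
        exact h6 f hf
      omega
    exact ⟨_, eq_C_of_natDegree_eq_zero h7⟩
  obtain ⟨κ, hκ⟩ := hM0c
  obtain ⟨r, -, hr⟩ := Polynomial.isUnit_iff.1 u.isUnit
  have hgeq : g = C (κ * r) * ∏ f ∈ SF g, f := by
    calc g = M.prod * u := hu.symm
      _ = (∏ f ∈ SF g, f) * C κ * C r := by rw [← hsplit, Multiset.prod_add, hprod1, hκ, hr]
      _ = _ := by
        rw [C_mul]
        ring
  refine ⟨κ * r, ?_, hgeq⟩
  intro h0
  rw [h0, C_0, zero_mul] at hgeq
  exact hg0 hgeq

/-- the number of factors over `ℚ` -/
lemma card_SF {g : ℤ[X]} (hg : Squarefree (mq g)) : (SF g).card = nf g := by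
  classical
  obtain ⟨β, hβ, hgeq⟩ := exists_fac hg
  have hg0 : mq g ≠ 0 := hg.ne_zero
  unfold nf
  have h1 : Multiset.Rel Associated ((SF g).val.map mq) (normalizedFactors (mq g)) := by
    refine factors_unique (fun p hp => ?_) (fun p hp => irreducible_of_normalized_factor p hp) ?_
    · obtain ⟨f, hf, rfl⟩ := Multiset.mem_map.1 hp
      have h2 := SF_irr (g := g) (f := f) (Finset.mem_def.2 hf)
      exact mq_irr h2.1 h2.2.1
    · have h3 : ((SF g).val.map mq).prod = ∏ f ∈ SF g, mq f := rfl
      rw [h3]
      refine Associated.trans ?_ (prod_normalizedFactors hg0).symm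
      have h4 : mq g = C (β : ℚ) * ∏ f ∈ SF g, mq f := by
        conv_lhs => rw [hgeq]
        rw [mq, Polynomial.map_mul, Polynomial.map_C, Polynomial.map_prod]
        rfl
      rw [h4]
      have hu : IsUnit (C (β : ℚ) : ℚ[X]) := by
        rw [isUnit_C]
        exact (isUnit_iff_ne_zero.2 (by exact_mod_cast hβ))
      exact (associated_unit_mul_right _ _ hu)
  have h2 := Multiset.card_eq_card_of_rel h1
  rw [Multiset.card_map] at h2
  exact h2

/-- distinct factors are not associated -/
lemma SF_nd {g f f' : ℤ[X]} (h : f ∈ SF g) (h' : f' ∈ SF g) (hne : f ≠ f') : ¬ f ∣ f' := by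
  classical
  intro hd
  have h1 := (mem_filter.1 h).1
  have h2 := (mem_filter.1 h').1
  rw [Multiset.mem_toFinset] at h1 h2
  have h3 := irreducible_of_normalized_factor f h1
  have h4 := irreducible_of_normalized_factor f' h2
  have h5 : Associated f f' := h3.associated_of_dvd h4 hd
  apply hne
  rw [← normalize_normalized_factor f h1, ← normalize_normalized_factor f' h2]
  exact normalize_eq_normalize_iff_associated.2 h5

end Pool.Agent.L7h19.IS
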