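import Mathlib
import Pool.Agent.L7h19.IS.Cat2
import Pool.Agent.L7h19.IS.Stm2
import Pool.Agent.L7h19.IS.Maj

/-!
# Project IS: the average of the product `R1 m n * R1 n m`
-/

set_option autoImplicit false
set_option linter.unusedSectionVars false

namespace Pool.Agent.L7h19.IS

open Finset Polynomial Pool.Agent.W262.RK Pool.Agent.L7h19.RP
open Pool.Agent.H474R2.PG (rho)
open Pool.Agent.L7h19.RP.AT (gm hq BWg)

variable {J : Type} [Fintype J] [DecidableEq J]

/-- the pairing of the labels -/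
def pr (x y : Bool × Bool) : Bool := xor (x.1 && y.1) (x.2 && y.2)

/-- the orthogonal complement -/
def Pw (w : Bool × Bool) : Finset (Bool × Bool) := univ.filter (fun x => pr x w = false)

lemma Pw_card : ∀ w : Bool × Bool, w ≠ (false, false) → (Pw w).card = 2 := by decide

lemma pr_comm : ∀ x y : Bool × Bool, pr x y = pr y x := by decide

lemma L2_BC {cB : J → Bool} {i k : J × Bool × Bool} (hi : cB i.1 = true) (hk : cB k.1 = false) :
    (L2 cB i k = L2 cB k i) ↔ pr i.2 k.2 = false := by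
  unfold L2 pr
  rw [hi, hk]
  cases i.2.1 <;> cases i.2.2 <;> cases k.2.1 <;> cases k.2.2 <;> decide

lemma L2_same {cB : J → Bool} {i k : J × Bool × Bool} (h : cB i.1 = cB k.1) :
    L2 cB i k = false := by
  unfold L2
  rw [h]
  cases cB k.1 <;> simp

/-- the condition on the support -/
def Q2 (cB : J → Bool) (U : Finset (J × Bool × Bool)) : Prop :=
  (∃ i ∈ U, cB i.1 = false ∧ i.2.1 = true) ∧ ∃ i ∈ U, cB i.1 = true ∧ i.2.2 = true

instance (cB : J → Bool) : DecidablePred (Q2 cB) := fun U => by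
  unfold Q2
  infer_instance

lemma fin_case : ∀ v w vs : Bool × Bool, w.1 = true → v.2 = true →
    (∀ x ∈ Pw w, ∀ y ∈ Pw v, pr x y = false) → (∀ y ∈ Pw v, pr vs y = false) → vs ∈ Pw w := by
  decide

lemma fin_case' : ∀ v w vs : Bool × Bool, w.1 = true → v.2 = true →
    (∀ x ∈ Pw w, ∀ y ∈ Pw v, pr x y = false) → (∀ x ∈ Pw w, pr x vs = false) → vs ∈ Pw v := by
  decide

/-- the combinatorial condition -/
lemma comb2 (cB : J → Bool) (U S : Finset (J × Bool × Bool)) (hUS : Disjoint U S)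
    (hU : ∀ i ∈ U, ∀ k ∈ U, L2 cB i k = L2 cB k i) (hQ : Q2 cB (U ∪ S)) :
    (∑ _i ∈ UL (L2 cB) U S, (1 / 2 : ℝ)) ≤ Fintype.card J ∧
      (S.Nonempty → (∑ _i ∈ UL (L2 cB) U S, (1 / 2 : ℝ)) < Fintype.card J) := by
  classical
  obtain ⟨⟨k, hk, hkC, hk1⟩, ⟨i, hi, hiB, hi2⟩⟩ := hQ
  set v := i.2 with hv
  set w := k.2 with hw
  have hw0 : w ≠ (false, false) := fun h => by
    have : w.1 = true := hk1
    rw [h] at this
    exact absurd this (by decide)
  have hv0 : v ≠ (false, false) := fun h => by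
    have : v.2 = true := hi2
    rw [h] at this
    exact absurd this (by decide)
  set W := UL (L2 cB) U S with hW
  have hWU : ∀ e ∈ W, e ∈ U := fun e he => (mem_filter.1 he).1
  have hWS : ∀ e ∈ W, ∀ s ∈ U ∪ S, L2 cB e s = L2 cB s e := by
    intro e he s hs
    rcases mem_union.1 hs with h | h
    · exact hU e (hWU e he) s h
    · exact (mem_filter.1 he).2 s h
  -- the fibres
  set c : J → Finset (Bool × Bool) := fun j => univ.filter (fun x => (j, x) ∈ W) with hc
  have hsum : (∑ _i ∈ W, (1 / 2 : ℝ)) = ∑ j, (1 / 2 : ℝ) * ((c j).card : ℝ) := by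
    have e1 : (∑ _i ∈ W, (1 / 2 : ℝ)) = ∑ i : J × Bool × Bool, if i ∈ W then (1 / 2 : ℝ) else 0 := by
      rw [← sum_filter]
      refine sum_congr ?_ fun _ _ => rfl
      ext i
      simp
    rw [e1, Fintype.sum_prod_type]
    refine sum_congr rfl fun j _ => ?_
    rw [hc]
    dsimp only
    rw [card_filter, Nat.cast_sum, mul_sum]
    refine sum_congr rfl fun x _ => ?_
    by_cases h : (j, x) ∈ W <;> simp [h]
  have hcB : ∀ j, cB j = true → c j ⊆ Pw w := by
    intro j hj x hx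
    have hx' : (j, x) ∈ W := (mem_filter.1 hx).2
    unfold Pw
    rw [mem_filter]
    refine ⟨mem_univ _, ?_⟩
    exact (L2_BC (i := (j, x)) (k := k) hj hkC).1 (hWS _ hx' k hk)
  have hcC : ∀ j, cB j = false → c j ⊆ Pw v := by
    intro j hj x hx
    have hx' : (j, x) ∈ W := (mem_filter.1 hx).2
    unfold Pw
    rw [mem_filter]
    refine ⟨mem_univ _, ?_⟩
    have h1 := (L2_BC (i := i) (k := (j, x)) hiB hj).1 (hWS _ hx' i hi).symm
    rw [pr_comm]
    exact h1
  have hle : ∀ j, ((c j).card : ℝ) ≤ 2 := by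
    intro j
    cases hj : cB j with
    | true =>
      have := card_le_card (hcB j hj)
      rw [Pw_card w hw0] at this
      exact_mod_cast this
    | false =>
      have := card_le_card (hcC j hj)
      rw [Pw_card v hv0] at this
      exact_mod_cast this
  have hJ : (Fintype.card J : ℝ) = ∑ _j : J, (1 : ℝ) := by
    rw [sum_const, card_univ, nsmul_eq_mul, mul_one]
  rw [hsum, hJ]
  refine ⟨sum_le_sum fun j _ => by linarith [hle j], ?_⟩
  rintro ⟨s, hs⟩
  have hsU : s ∉ U := fun h => disjoint_left.1 hUS h hs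
  have hdef : ∃ j, ((c j).card : ℝ) < 2 := by
    by_contra hcon
    push Not at hcon
    have heqB : ∀ j, cB j = true → c j = Pw w := by
      intro j hj
      refine eq_of_subset_of_card_le (hcB j hj) ?_
      rw [Pw_card w hw0]
      exact_mod_cast hcon j
    have heqC : ∀ j, cB j = false → c j = Pw v := by
      intro j hj
      refine eq_of_subset_of_card_le (hcC j hj) ?_
      rw [Pw_card v hv0]
      exact_mod_cast hcon j
    have hmB : ∀ j, cB j = true → ∀ x ∈ Pw w, (j, x) ∈ W := by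
      intro j hj x hx
      rw [← heqB j hj] at hx
      exact (mem_filter.1 hx).2
    have hmC : ∀ j, cB j = false → ∀ x ∈ Pw v, (j, x) ∈ W := by
      intro j hj x hx
      rw [← heqC j hj] at hx
      exact (mem_filter.1 hx).2
    have hcr : ∀ x ∈ Pw w, ∀ y ∈ Pw v, pr x y = false := by
      intro x hx y hy
      exact (L2_BC (i := (i.1, x)) (k := (k.1, y)) hiB hkC).1
        (hU _ (hWU _ (hmB _ hiB x hx)) _ (hWU _ (hmC _ hkC y hy)))
    cases hsB : cB s.1 with
    | true =>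
      have h1 : s.2 ∈ Pw w := by
        refine fin_case v w s.2 hk1 hi2 hcr fun y hy => ?_
        exact (L2_BC (i := s) (k := (k.1, y)) hsB hkC).1
          (hWS _ (hmC _ hkC y hy) s (mem_union_right _ hs)).symm
      exact hsU (hWU _ (hmB s.1 hsB s.2 h1))
    | false =>
      have h1 : s.2 ∈ Pw v := by
        refine fin_case' v w s.2 hk1 hi2 hcr fun x hx => ?_
        exact (L2_BC (i := (i.1, x)) (k := s) hiB hsB).1
          (hWS _ (hmB _ hiB x hx) s (mem_union_right _ hs))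
      exact hsU (hWU _ (hmC s.1 hsB s.2 h1))
  obtain ⟨j, hj⟩ := hdef
  exact sum_lt_sum (fun j _ => by linarith [hle j]) ⟨j, mem_univ _, by linarith⟩

theorem maj2 (hUp : StUp) (hBW : StBW) (hFr : StFree) (hEx2 : S_EXP2)
    (cB : J → Bool) (f : J → ℤ[X]) (hf : ∀ j, Irreducible (f j))
    (hd : ∀ j, 0 < (f j).natDegree) (c : ℕ) :
    ∃ z0 : ℕ, ∀ z, z0 ≤ z → ∃ C : ℝ, ∀ y, z < y →
      ∑ s ∈ Tup J z y, R1 (pT cB s true) (pT cB s false) * R1 (pT cB s false) (pT cB s true) *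
        ∏ j, gm (gaw (f j) 1 c) (s j) ≤ C * (Real.log y) ^ (Fintype.card J) := by
  classical
  set ι := J × Bool × Bool with hι
  set M : ℕ := Fintype.card ι with hM
  set K : ℝ := ((Fintype.card J : ℕ) : ℝ) with hK
  set G : ℕ := ∑ j, (f j).natDegree with hG
  have hw2 : ∀ _a : ι, (0 : ℝ) < 1 / 2 := fun _ => by norm_num
  obtain ⟨C2, E2, hC2, hbw⟩ := hBW (G : ℝ) (M : ℝ) (Nat.cast_nonneg _)
  obtain ⟨δ, hδ, hδw, hδK⟩ := Pool.Agent.L7h19.RP.AT.exists_gap (fun _ : ι => (1 / 2 : ℝ)) hw2 K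
  set A : ℕ := 6 * (M + 2 * E2) with hA
  set ε : ℝ := δ / 2 / (A * (M : ℝ) ^ 2 + 1) with hε
  have hden : (0 : ℝ) < A * (M : ℝ) ^ 2 + 1 := by positivity
  have hε0 : 0 < ε := by positivity
  have hεA : (A : ℝ) * (ε * (M : ℝ) ^ 2) ≤ δ / 2 := by
    have e1 : (A : ℝ) * (ε * (M : ℝ) ^ 2) = δ / 2 * ((A * (M : ℝ) ^ 2) / (A * (M : ℝ) ^ 2 + 1)) := by
      rw [hε]
      field_simp
    rw [e1]
    have e2 : (A * (M : ℝ) ^ 2) / (A * (M : ℝ) ^ 2 + 1) ≤ 1 := by
      rw [div_le_one hden]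
      linarith
    have e3 : 0 ≤ δ / 2 := by positivity
    calc δ / 2 * ((A * (M : ℝ) ^ 2) / (A * (M : ℝ) ^ 2 + 1)) ≤ δ / 2 * 1 :=
          mul_le_mul_of_nonneg_left e2 e3
      _ = δ / 2 := mul_one _
  set B : ℕ := 2 * (M * G) with hB
  choose z1 hz1 using fun a : ι =>
    hUp (f a.1) 1 (1 / 2) ε c (hf _) (hd _) (not_dvd_one (hf _)) (by norm_num) le_rfl hε0
  choose z2 hz2 using fun a : ι => stFull (f a.1) (1 / 2) c B (hf _) (hd _) (by norm_num) le_rfl
  choose Br hBr using fun j : J => Pool.Agent.H474R2.PG.rho_le (f j) (hf j).ne_zero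
  refine ⟨∑ a, z1 a + ∑ a, z2 a + 2 * (M * G) + ∑ j, Br j + (2 * c + 4), fun z hz => ?_⟩
  have hz1' : ∀ a, z1 a ≤ z := fun a => (le_sum_nat z1 a).trans (by omega)
  have hz2' : ∀ a, z2 a ≤ z := fun a => (le_sum_nat z2 a).trans (by omega)
  have hBr' : ∀ j, Br j ≤ z := fun j => (le_sum_nat Br j).trans (by omega)
  choose C1 hC1 using fun a : ι => hz1 a z (hz1' a)
  choose C3 hC3 using fun a : ι => hz2 a z (hz2' a)
  set C : ℝ := 1 + ∑ a, |C3 a| with hC
  set D1 : ℝ := ∑ a, |C1 a| with hD1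
  have hs1 : 0 ≤ ∑ a, |C1 a| := sum_nonneg fun _ _ => abs_nonneg _
  have hs3 : 0 ≤ ∑ a, |C3 a| := sum_nonneg fun _ _ => abs_nonneg _
  have hCC1 : ∀ a, C1 a ≤ D1 := fun a => le_sum_abs C1 a
  have hCC3 : ∀ a, C3 a ≤ C := fun a => by have := le_sum_abs C3 a; linarith
  have hgaw0 : ∀ (a : ι) (p : ℕ), p.Prime → z < p → 0 ≤ gaw (f a.1) (1 / 2) c p ∧
      gaw (f a.1) (1 / 2) c p ≤ (G : ℝ) / p := by
    intro a p hp hzp
    have e1 := (gaw_bd (d := (f a.1).natDegree) (w := 1 / 2) (by norm_num) le_rfl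
      (by omega : 2 * c + 2 ≤ p) (hBr a.1 p hp (by have := hBr' a.1; omega)))
    refine ⟨e1.1, e1.2.1.trans ?_⟩
    refine div_le_div_of_nonneg_right ?_ (Nat.cast_nonneg _)
    exact_mod_cast le_sum_nat (fun j => (f j).natDegree) a.1
  have hBd : Pool.Agent.L7h19.RP.AT.Bd (fun a : ι => gaw (f a.1) (1 / 2) c)
      (fun a => gaw (f a.1) (1 / 2) c) (fun _ => 1 / 2) z B C := by
    refine ⟨fun a => by norm_num, fun a => by norm_num, by omega, by linarith,
      fun a p hp hzp => le_of_eq (abs_of_nonneg (hgaw0 a p hp hzp).1), fun a y hy => ?_,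
      fun a y V hy hV => ?_, fun a y Y hy hY => ?_⟩
    · refine ((hC3 a).1 y hy).trans ?_
      exact mul_le_mul_of_nonneg_right (hCC3 a) (Real.rpow_nonneg (Real.log_natCast_nonneg _) _)
    · refine ((hC3 a).2.1 y V hy hV).trans ?_
      exact mul_le_mul_of_nonneg_right (hCC3 a) (Real.rpow_nonneg (Real.log_natCast_nonneg _) _)
    · refine ((hC3 a).2.2 y Y hy hY).trans ?_
      exact mul_le_mul_of_nonneg_right (mul_le_mul_of_nonneg_right (hCC3 a) (Real.exp_pos _).le)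
        (by positivity)
  have hHN : HH2 (fun a : ι => gaw (f a.1) (1 / 2) c) (fun _ => 1 / 2) (L2 cB) (Q2 cB) K z A ε D1 δ := by
    refine ⟨fun i => L2_same rfl, Nat.cast_nonneg _, fun U S hUS hU hQ => comb2 cB U S hUS hU hQ,
      hδ, hδK, hε0.le, hs1, hεA, ?_⟩
    intro a y r s hy hr hrs hrp
    have h1 := hC1 a y r s hy hr hrs hrp
    have h2 := hCC1 a
    refine le_trans (le_of_eq ?_) (h1.trans (by linarith))
    exact sum_congr rfl fun p _ => by rw [bw_one]
  obtain ⟨C', hC'⟩ := at_h hFr hBd hC2 hbw (Nat.cast_nonneg _)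
    (fun a p hp hzp => (hgaw0 a p hp hzp).2) (by
      have : 2 * (M * G) ≤ z := by omega
      exact_mod_cast this) (by
      have : 2 * (M * G) ≤ B := le_rfl
      exact_mod_cast this) le_rfl hHN
  refine ⟨C', fun y hy => ?_⟩
  rw [hEx2 J cB f c z y (by omega) (by omega)]
  refine (le_trans (le_of_eq ?_) (le_abs_self _)).trans ((hC' y hy).trans (le_of_eq ?_))
  · refine sum_congr ?_ fun d _ => rfl
    refine filter_congr fun d _ => ?_
    unfold Q2
    constructor
    · rintro ⟨⟨i, h1, h2, h3⟩, ⟨k, h4, h5, h6⟩⟩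
      exact ⟨⟨i, by rw [mem_filter]; exact ⟨mem_univ _, h3⟩, h1, h2⟩,
        ⟨k, by rw [mem_filter]; exact ⟨mem_univ _, h6⟩, h4, h5⟩⟩
    · rintro ⟨⟨i, h3, h1, h2⟩, ⟨k, h6, h4, h5⟩⟩
      exact ⟨⟨i, h1, h2, (mem_filter.1 h3).2⟩, ⟨k, h4, h5, (mem_filter.1 h6).2⟩⟩
  · rw [Real.rpow_natCast]

end Pool.Agent.L7h19.IS
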