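import Mathlib
import Pool.Agent.L7h19.IS.Avg
import Pool.Agent.L7h19.IS.Maj2

/-!
# Project IS: the average of the square of the majorant, together with the residue classes
-/

set_option autoImplicit false
set_option linter.unusedSectionVars false

namespace Pool.Agent.L7h19.IS

open Finset Polynomial Pool.Agent.W262.RK Pool.Agent.L7h19.RP Pool.Agent.W108.RK
open Pool.Agent.H474R2.PG (rho)
open Pool.Agent.L7h19.RP.AT (gm hq BWg)

variable {J : Type} [Fintype J] [DecidableEq J] {z y : ℕ}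

/-- `GG ^ 2 ≤ (1 + R1) (1 + R1')` -/
lemma GG_sq_le {m n : ℕ} (hm : Squarefree m) (hn : Squarefree n) (hmn : m.Coprime n) :
    GG m n ^ 2 ≤ 1 + R1 m n + R1 n m + R1 m n * R1 n m := by
  have hR := R1_nonneg (n := n) hm
  have hR' := R1_nonneg (n := m) hn
  have key : ∀ (k l : ℕ) (R R' : ℝ), 0 ≤ R → 0 ≤ R' → l ≤ k →
      ((2 : ℝ) ^ k / 2 ^ l + R) * (2 ^ l / 2 ^ k + R') / (2 : ℝ) ^ |((k : ℕ) : ℝ) - ((l : ℕ) : ℝ)| ≤
        1 + R + R' + R * R' := by
    intro k l R R' h1 h2 hkl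
    have hkl' : (l : ℝ) ≤ k := by exact_mod_cast hkl
    rw [abs_of_nonneg (sub_nonneg.2 hkl'), Real.rpow_sub (by norm_num), Real.rpow_natCast,
      Real.rpow_natCast]
    set P : ℝ := 2 ^ k / 2 ^ l with hP
    have hP1 : 1 ≤ P := by
      rw [hP, one_le_div (by positivity)]
      exact pow_le_pow_right₀ (by norm_num) hkl
    have hP0 : 0 < P := by linarith
    have e1 : (2 : ℝ) ^ l / 2 ^ k = 1 / P := by
      rw [hP]
      field_simp
    rw [e1]
    have e2 : (P + R) * (1 / P + R') / P = (1 + R / P) * (1 / P + R') := by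
      field_simp
    rw [e2]
    have h3 : R / P ≤ R := div_le_self h1 hP1
    have h4 : 1 / P ≤ 1 := by
      rw [div_le_one hP0]
      exact hP1
    have h5 : 0 ≤ R / P := by positivity
    have h6 : 0 ≤ 1 / P := by positivity
    calc (1 + R / P) * (1 / P + R') ≤ (1 + R) * (1 + R') := by gcongr
      _ = _ := by ring
  have hP : (0 : ℝ) ≤ (N1 m n : ℝ) * (N1 n m : ℝ) /
      (2 : ℝ) ^ |((m.primeFactors.card : ℕ) : ℝ) - ((n.primeFactors.card : ℕ) : ℝ)| := by positivity
  unfold GG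
  rw [Real.sq_sqrt hP, N1_R1 hm hn hmn, N1_R1 hn hm hmn.symm]
  rcases le_total n.primeFactors.card m.primeFactors.card with h | h
  · exact key _ _ _ _ hR hR' h
  · have := key _ _ _ _ hR' hR h
    rw [abs_sub_comm] at this
    calc _ = (2 ^ n.primeFactors.card / 2 ^ m.primeFactors.card + R1 n m) *
          (2 ^ m.primeFactors.card / 2 ^ n.primeFactors.card + R1 m n) /
          (2 : ℝ) ^ |((m.primeFactors.card : ℕ) : ℝ) - ((n.primeFactors.card : ℕ) : ℝ)| := by
            rw [mul_comm (2 ^ m.primeFactors.card / 2 ^ n.primeFactors.card + R1 m n)]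
      _ ≤ _ := this
      _ = _ := by ring

/-- the function to be averaged -/
noncomputable def GR2 (cB : J → Bool) (f : J → ℤ[X]) (s : J → ℕ) : ℝ :=
  ((Rs f s).card : ℝ) * GG (pT cB s true) (pT cB s false) ^ 2

lemma GR2_nonneg (cB : J → Bool) (f : J → ℤ[X]) (s : J → ℕ) : 0 ≤ GR2 cB f s :=
  mul_nonneg (Nat.cast_nonneg _) (sq_nonneg _)

/-- growth -/
lemma GR2_sub (cB : J → Bool) (f : J → ℤ[X]) {c : ℕ}
    (hρ : ∀ p : ℕ, p.Prime → z < p → ∀ j, rho (f j) p ≤ c) {s e : J → ℕ}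
    (hse : (fun j => s j * e j) ∈ Tup J z y) :
    GR2 cB f (fun j => s j * e j) ≤ (4 * c : ℝ) ^ (∑ j, (e j).primeFactors.card) * GR2 cB f s := by
  have h0 : ∀ j, s j * e j ≠ 0 := fun j => (sqf_of_mem hse j).ne_zero
  have hs0 : ∀ j, s j ≠ 0 := fun j h => h0 j (by rw [h, zero_mul])
  have he0 : ∀ j, e j ≠ 0 := fun j h => h0 j (by rw [h, mul_zero])
  have hs : s ∈ Tup J z y := by
    rw [mem_Tup] at hse ⊢
    refine ⟨fun j => (Dvd.intro _ rfl).trans (hse.1 j), fun i j hij => ?_⟩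
    exact ((hse.2 i j hij).coprime_dvd_left (Dvd.intro _ rfl)).coprime_dvd_right (Dvd.intro _ rfl)
  have he : e ∈ Tup J z y := by
    rw [mem_Tup] at hse ⊢
    refine ⟨fun j => (Dvd.intro_left _ rfl).trans (hse.1 j), fun i j hij => ?_⟩
    exact ((hse.2 i j hij).coprime_dvd_left (Dvd.intro_left _ rfl)).coprime_dvd_right
      (Dvd.intro_left _ rfl)
  have hpT : ∀ r, pT cB (fun j => s j * e j) r = pT cB s r * pT cB e r := fun r => by
    unfold pT
    rw [prod_mul_distrib]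
  have h1 : GG (pT cB (fun j => s j * e j) true) (pT cB (fun j => s j * e j) false) ≤
      2 ^ (∑ j, (e j).primeFactors.card) * GG (pT cB s true) (pT cB s false) := by
    have hm := pT_sqf cB hse true
    have hn := pT_sqf cB hse false
    have hmn := pT_cop cB hse
    rw [hpT] at hm hn
    rw [hpT, hpT] at hmn ⊢
    refine (GG_mul_le hm hn hmn).trans (le_of_eq ?_)
    congr 2
    rw [pf_pT cB he, pf_pT cB he, ← sum_filter_add_sum_filter_not univ (fun j => cB j = true)]
    congr 1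
    refine sum_congr ?_ fun _ _ => rfl
    exact filter_congr fun j _ => by cases cB j <;> simp
  have h2 : ((Rs f (fun j => s j * e j)).card : ℝ) ≤
      (c : ℝ) ^ (∑ j, (e j).primeFactors.card) * ((Rs f s).card : ℝ) := by
    rw [card_Rs f hse, card_Rs f hs, ← prod_pow_eq_pow_sum, ← prod_mul_distrib]
    refine prod_le_prod (fun j _ => prod_nonneg fun p _ => Nat.cast_nonneg _) fun j _ => ?_
    have hco : (s j).Coprime (e j) := Nat.coprime_of_squarefree_mul (sqf_of_mem hse j)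
    rw [hco.primeFactors_mul, prod_union hco.disjoint_primeFactors, mul_comm]
    refine mul_le_mul_of_nonneg_right ?_ (prod_nonneg fun p _ => Nat.cast_nonneg _)
    rw [← prod_const]
    refine prod_le_prod (fun p _ => Nat.cast_nonneg _) fun p hp => ?_
    have hpp := Nat.prime_of_mem_primeFactors hp
    have hzp : z < p := (dv_prime ((AT.mem_Tup'.1 he).1 j) hpp (Nat.dvd_of_mem_primeFactors hp)).1
    exact_mod_cast hρ p hpp hzp j
  unfold GR2
  calc _ ≤ ((c : ℝ) ^ (∑ j, (e j).primeFactors.card) * ((Rs f s).card : ℝ)) *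
        (2 ^ (∑ j, (e j).primeFactors.card) * GG (pT cB s true) (pT cB s false)) ^ 2 :=
        mul_le_mul h2 (pow_le_pow_left₀ (GG_nonneg _ _) h1 2) (sq_nonneg _) (by positivity)
    _ = _ := by
        rw [mul_pow, mul_pow, ← pow_mul, mul_comm _ 2, pow_mul]
        norm_num
        ring

/-- **the average** -/
theorem avg2 (hUp : StUp) (hBW : StBW) (hFr : StFree) (hEx : S_EXP) (hEx2 : S_EXP2)
    (cB : J → Bool) (f : J → ℤ[X]) (hf : ∀ j, Irreducible (f j))
    (hd : ∀ j, 0 < (f j).natDegree) (c : ℕ) :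
    ∃ z0 : ℕ, ∀ z, z0 ≤ z → ∃ C : ℝ, ∀ y, z < y →
      ∑ s ∈ Tup J z y, GR2 cB f s * ∏ j, gw 1 c (s j) ≤ C * (Real.log y) ^ (Fintype.card J) := by
  obtain ⟨za, ha⟩ := maj0 f hf hd c
  obtain ⟨zb, hb⟩ := maj1 hUp hBW hFr hEx cB f hf hd c
  obtain ⟨zc, hc⟩ := maj1 hUp hBW hFr hEx (fun j => !(cB j)) f hf hd c
  obtain ⟨zd, hd'⟩ := maj2 hUp hBW hFr hEx2 cB f hf hd c
  refine ⟨za + zb + zc + zd + (c + 1), fun z hz => ?_⟩
  obtain ⟨Ca, hCa⟩ := ha z (by omega)
  obtain ⟨Cb, hCb⟩ := hb z (by omega)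
  obtain ⟨Cc, hCc⟩ := hc z (by omega)
  obtain ⟨Cd, hCd⟩ := hd' z (by omega)
  refine ⟨Ca + Cb + Cc + Cd, fun y hy => ?_⟩
  have h1 := hCa y hy
  have h2 := hCb y hy
  have h3 := hCc y hy
  have h3' := hCd y hy
  have h4 : ∀ s ∈ Tup J z y, GR2 cB f s * ∏ j, gw 1 c (s j) ≤
      (∏ j, gm (gaw (f j) 1 c) (s j)) +
      R1 (pT cB s true) (pT cB s false) * ∏ j, gm (gaw (f j) 1 c) (s j) +
      R1 (pT (fun j => !(cB j)) s true) (pT (fun j => !(cB j)) s false) *
        ∏ j, gm (gaw (f j) 1 c) (s j) +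
      R1 (pT cB s true) (pT cB s false) * R1 (pT cB s false) (pT cB s true) *
        ∏ j, gm (gaw (f j) 1 c) (s j) := by
    intro s hs
    have e1 : GR2 cB f s * ∏ j, gw 1 c (s j) =
        GG (pT cB s true) (pT cB s false) ^ 2 * ∏ j, gm (gaw (f j) 1 c) (s j) := by
      unfold GR2
      rw [card_Rs f hs]
      simp_rw [gm_gaw]
      rw [prod_mul_distrib]
      ring
    have e2 : 0 ≤ ∏ j, gm (gaw (f j) 1 c) (s j) := by
      refine prod_nonneg fun j _ => ?_
      unfold gm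
      refine prod_nonneg fun p hp => ?_
      have hpp := Nat.prime_of_mem_primeFactors hp
      have hzp := (dv_prime ((AT.mem_Tup'.1 hs).1 j) hpp (Nat.dvd_of_mem_primeFactors hp)).1
      unfold gaw
      have h1 : (c : ℝ) < p := by exact_mod_cast (by omega : c < p)
      have h2 : (0 : ℝ) < (p : ℝ) - c := by linarith
      positivity
    rw [e1, ← R1_swap]
    have e3 := GG_sq_le (pT_sqf cB hs true) (pT_sqf cB hs false) (pT_cop cB hs)
    calc _ ≤ (1 + R1 (pT cB s true) (pT cB s false) + R1 (pT cB s false) (pT cB s true) +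
          R1 (pT cB s true) (pT cB s false) * R1 (pT cB s false) (pT cB s true)) *
          ∏ j, gm (gaw (f j) 1 c) (s j) := mul_le_mul_of_nonneg_right e3 e2
      _ = _ := by ring
  refine (sum_le_sum h4).trans ?_
  rw [sum_add_distrib, sum_add_distrib, sum_add_distrib, add_mul, add_mul, add_mul]
  linarith

end Pool.Agent.L7h19.IS
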