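import Mathlib
import Pool.Agent.L7h19.IS.Fin2
import Pool.Agent.L7h19.IS.Fac

/-!
# Project IS: assembly
-/

set_option autoImplicit false
set_option linter.unusedSectionVars false

namespace Pool.Agent.L7h19.IS

open Finset Polynomial Pool.Agent.W262.RK Pool.Agent.W307.RT Pool.Agent.L7h19.RP
open UniqueFactorizationMonoid

section om

variable {J : Type} [Fintype J] [DecidableEq J]

lemma om_prod_le {β : ℤ} {x : J → ℤ} (S : Finset J) (hβ : β ≠ 0) (hx : ∀ j, x j ≠ 0) :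
    om (β * ∏ j ∈ S, x j) ≤ om β + ∑ j ∈ S, om (x j) := by
  unfold om
  have h0 : ∏ j ∈ S, x j ≠ 0 := prod_ne_zero_iff.2 fun j _ => hx j
  have h1 : (β * ∏ j ∈ S, x j).natAbs.primeFactors ⊆
      β.natAbs.primeFactors ∪ S.biUnion (fun j => (x j).natAbs.primeFactors) := by
    intro p hp
    rw [Nat.mem_primeFactors] at hp
    rw [mem_union, mem_biUnion, Nat.mem_primeFactors]
    have hpi : Prime (p : ℤ) := Nat.prime_iff_prime_int.1 hp.1
    rcases hpi.dvd_or_dvd (Int.natCast_dvd.2 hp.2.1) with h | h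
    · exact Or.inl ⟨hp.1, Int.natCast_dvd.1 h, Int.natAbs_ne_zero.2 hβ⟩
    · obtain ⟨j, hj, hpj⟩ := (hpi.dvd_finsetProd_iff _).1 h
      exact Or.inr ⟨j, hj, Nat.mem_primeFactors.2 ⟨hp.1, Int.natCast_dvd.1 hpj,
        Int.natAbs_ne_zero.2 (hx j)⟩⟩
  refine (card_le_card h1).trans ((card_union_le _ _).trans ?_)
  exact Nat.add_le_add_left card_biUnion_le _

lemma om_prod_ge {β : ℤ} {x : J → ℤ} {z : ℕ} (S : Finset J) (hβ : β ≠ 0) (hG : Gd z x) :
    ∑ j ∈ S, om (x j) ≤ Fintype.card J * z + om (β * ∏ j ∈ S, x j) := by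
  unfold om
  have hx := hG.1
  have h0 : ∏ j ∈ S, x j ≠ 0 := prod_ne_zero_iff.2 fun j _ => hx j
  have h1 : ∀ j ∈ S, (x j).natAbs.primeFactors.card ≤
      z + ((x j).natAbs.primeFactors.filter (z < ·)).card := by
    intro j _
    have h2 : (x j).natAbs.primeFactors ⊆ Icc 1 z ∪ (x j).natAbs.primeFactors.filter (z < ·) := by
      intro p hp
      have hpp := Nat.prime_of_mem_primeFactors hp
      rw [mem_union, mem_Icc, mem_filter]
      rcases Nat.lt_or_ge z p with h | h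
      · exact Or.inr ⟨hp, h⟩
      · exact Or.inl ⟨hpp.one_lt.le, h⟩
    refine (card_le_card h2).trans ((card_union_le _ _).trans ?_)
    rw [Nat.card_Icc]
    omega
  have h3 : ∑ j ∈ S, ((x j).natAbs.primeFactors.filter (z < ·)).card ≤
      (β * ∏ j ∈ S, x j).natAbs.primeFactors.card := by
    rw [← card_biUnion]
    · refine card_le_card fun p hp => ?_
      obtain ⟨j, hj, hpj⟩ := mem_biUnion.1 hp
      rw [mem_filter, Nat.mem_primeFactors] at hpj
      rw [Nat.mem_primeFactors]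
      refine ⟨hpj.1.1, ?_, Int.natAbs_ne_zero.2 (mul_ne_zero hβ h0)⟩
      exact Int.natCast_dvd.1 (((Int.natCast_dvd.2 hpj.1.2.1).trans (dvd_prod_of_mem _ hj)).mul_left _)
    · intro i _ j _ hij
      rw [Function.onFun, disjoint_left]
      intro p hp hp'
      rw [mem_filter, Nat.mem_primeFactors] at hp hp'
      exact hG.2 p hp.1.1 hp.2 i j hij ⟨Int.natCast_dvd.2 hp.1.2.1, Int.natCast_dvd.2 hp'.1.2.1⟩
  calc ∑ j ∈ S, (x j).natAbs.primeFactors.card ≤
        ∑ j ∈ S, (z + ((x j).natAbs.primeFactors.filter (z < ·)).card) := sum_le_sum h1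
    _ = S.card * z + ∑ j ∈ S, ((x j).natAbs.primeFactors.filter (z < ·)).card := by
        rw [sum_add_distrib, sum_const, smul_eq_mul]
    _ ≤ _ := Nat.add_le_add (Nat.mul_le_mul_right _ ((card_le_card (subset_univ _)).trans
        (le_of_eq card_univ))) h3

end om

/-- `y ≤ 2 ^ y` -/
lemma le_two_rpow (y : ℝ) : y ≤ (2 : ℝ) ^ y := by
  rcases le_or_gt y 0 with h | h
  · exact h.trans (Real.rpow_nonneg (by norm_num) _)
  · have h1 : (⌊y⌋₊ : ℝ) ≤ y := Nat.floor_le h.le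
    have h2 : y < ⌊y⌋₊ + 1 := Nat.lt_floor_add_one y
    have h3 : ⌊y⌋₊ + 1 ≤ 2 ^ ⌊y⌋₊ := Nat.lt_two_pow_self
    have h4 : ((⌊y⌋₊ : ℝ) + 1) ≤ 2 ^ ⌊y⌋₊ := by exact_mod_cast h3
    calc y ≤ (⌊y⌋₊ : ℝ) + 1 := h2.le
      _ ≤ (2 : ℝ) ^ ⌊y⌋₊ := h4
      _ = (2 : ℝ) ^ ((⌊y⌋₊ : ℕ) : ℝ) := (Real.rpow_natCast _ _).symm
      _ ≤ _ := Real.rpow_le_rpow_of_exponent_le (by norm_num) h1

open Classical in
/-- **the theorem** -/
theorem allI2 (hRK : S_RK) (hEx : S_EXP) (hEx2 : S_EXP2) (hTK : S_TK) (hUp : StUp) (hBW : StBW) (hFr : StFree)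
    (a b : ℤ[X]) (h : Squarefree (mq (b * (a ^ 2 - 4 * b)))) (ε : ℝ) (hε : 0 < ε) :
    ∃ C : ℝ, ∀ (X : ℕ) (u v : ℤ), 3 ≤ X → u.natAbs ≤ X → v.natAbs ≤ X →
      (X : ℝ) ^ ε ≤ (v : ℝ) - u →
      (∑ t ∈ (Icc u v).filter (fun t : ℤ => b.eval t * (a.eval t ^ 2 - 4 * b.eval t) ≠ 0),
        (2 : ℝ) ^ ((Module.finrank ℤ (EI (a.eval t) (b.eval t)).toAffine.Point : ℕ) -
          |((om (b.eval t) : ℕ) : ℝ) - ((om (a.eval t ^ 2 - 4 * b.eval t) : ℕ) : ℝ)| : ℝ) ≤
        C * ((v : ℝ) - u)) ∧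
      (∑ t ∈ (Icc u v).filter (fun t : ℤ => b.eval t * (a.eval t ^ 2 - 4 * b.eval t) ≠ 0),
        ((Module.finrank ℤ (EI (a.eval t) (b.eval t)).toAffine.Point : ℕ) : ℝ) ≤
        (|((nf b : ℕ) : ℝ) - ((nf (a ^ 2 - 4 * b) : ℕ) : ℝ)| * Real.log (Real.log X) +
          C * √(Real.log (Real.log X))) * ((v : ℝ) - u)) := by
  set c : ℤ[X] := a ^ 2 - 4 * b with hc
  have hmul : mq (b * c) = mq b * mq c := Polynomial.map_mul _
  rw [hmul] at h
  have hb : Squarefree (mq b) := h.squarefree_of_dvd (Dvd.intro _ rfl)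
  have hcs : Squarefree (mq c) := h.squarefree_of_dvd (Dvd.intro_left _ rfl)
  obtain ⟨β, hβ, hbeq⟩ := exists_fac hb
  obtain ⟨γ, hγ, hceq⟩ := exists_fac hcs
  -- the two sets of factors are disjoint
  have hnot : ∀ f f' : ℤ[X], f ∈ SF b → f' ∈ SF c → ¬ f ∣ f' := by
    intro f f' hf hf' hd
    have h1 := SF_irr hf
    have h2 := SF_irr hf'
    have h3 : f * f ∣ b * c := mul_dvd_mul h1.2.2 (hd.trans h2.2.2)
    refine mq_sq_dvd h3 ?_ h1.2.1
    rw [hmul]
    exact h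
  have hnot' : ∀ f f' : ℤ[X], f ∈ SF b → f' ∈ SF c → ¬ f' ∣ f := by
    intro f f' hf hf' hd
    have h1 := SF_irr hf
    have h2 := SF_irr hf'
    have h3 : f' * f' ∣ b * c := mul_dvd_mul (hd.trans h1.2.2) h2.2.2
    refine mq_sq_dvd h3 ?_ h2.2.1
    rw [hmul]
    exact h
  have hdisj : ∀ f, f ∈ SF b → f ∉ SF c := fun f hf hf' => hnot f f hf hf' dvd_rfl
  set J : Type := {f : ℤ[X] // f ∈ SF b ∪ SF c} with hJ
  set F : J → ℤ[X] := fun j => j.1 with hF
  set cB : J → Bool := fun j => decide (j.1 ∈ SF b) with hcB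
  have hcBt : ∀ j : J, cB j = true ↔ j.1 ∈ SF b := fun j => by rw [hcB]; simp
  have hcBf : ∀ j : J, cB j = false ↔ j.1 ∈ SF c := fun j => by
    rw [hcB]
    simp only [decide_eq_false_iff_not]
    constructor
    · intro h1
      exact (mem_union.1 j.2).resolve_left h1
    · intro h1 h2
      exact hdisj _ h2 h1
  have hirr : ∀ j, Irreducible (F j) := fun j => by
    rcases mem_union.1 j.2 with h1 | h1
    · exact (SF_irr h1).1
    · exact (SF_irr h1).1
  have hdeg : ∀ j, 0 < (F j).natDegree := fun j => by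
    rcases mem_union.1 j.2 with h1 | h1
    · exact (SF_irr h1).2.1
    · exact (SF_irr h1).2.1
  have hnd : ∀ j l, j ≠ l → ¬ F j ∣ F l := by
    intro j l hjl
    have hne : j.1 ≠ l.1 := fun h1 => hjl (Subtype.ext h1)
    rcases mem_union.1 j.2 with h1 | h1 <;> rcases mem_union.1 l.2 with h2 | h2
    · exact SF_nd h1 h2 hne
    · exact hnot _ _ h1 h2
    · exact hnot' _ _ h2 h1
    · exact SF_nd h1 h2 hne
  -- products and sums over the types
  have hprodB : ∀ (M : Type) [CommMonoid M] (G : ℤ[X] → M),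
      ∏ j ∈ univ.filter (fun j : J => cB j = true), G j.1 = ∏ f ∈ SF b, G f := by
    intro M _ G
    refine prod_bij (fun j _ => j.1) (fun j hj => (hcBt j).1 (mem_filter.1 hj).2)
      (fun j _ l _ hjl => Subtype.ext hjl) (fun f hf => ?_) (fun _ _ => rfl)
    refine ⟨⟨f, mem_union_left _ hf⟩, ?_, rfl⟩
    rw [mem_filter]
    exact ⟨mem_univ _, (hcBt _).2 hf⟩
  have hprodC : ∀ (M : Type) [CommMonoid M] (G : ℤ[X] → M),
      ∏ j ∈ univ.filter (fun j : J => cB j = false), G j.1 = ∏ f ∈ SF c, G f := by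
    intro M _ G
    refine prod_bij (fun j _ => j.1) (fun j hj => (hcBf j).1 (mem_filter.1 hj).2)
      (fun j _ l _ hjl => Subtype.ext hjl) (fun f hf => ?_) (fun _ _ => rfl)
    refine ⟨⟨f, mem_union_right _ hf⟩, ?_, rfl⟩
    rw [mem_filter]
    exact ⟨mem_univ _, (hcBf _).2 hf⟩
  have hevb : ∀ t : ℤ, b.eval t = β * ∏ j ∈ univ.filter (fun j : J => cB j = true), vf F t j := by
    intro t
    have h1 := hprodB ℤ (fun f => f.eval t)
    have h2 : ∏ j ∈ univ.filter (fun j : J => cB j = true), vf F t j = ∏ f ∈ SF b, f.eval t := h1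
    rw [h2]
    conv_lhs => rw [hbeq]
    rw [eval_mul, eval_C, eval_prod]
  have hevc : ∀ t : ℤ, c.eval t = γ * ∏ j ∈ univ.filter (fun j : J => cB j = false), vf F t j := by
    intro t
    have h1 := hprodC ℤ (fun f => f.eval t)
    have h2 : ∏ j ∈ univ.filter (fun j : J => cB j = false), vf F t j = ∏ f ∈ SF c, f.eval t := h1
    rw [h2]
    conv_lhs => rw [hceq]
    rw [eval_mul, eval_C, eval_prod]
  have hcev : ∀ t : ℤ, a.eval t ^ 2 - 4 * b.eval t = c.eval t := by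
    intro t
    rw [hc]
    simp
  have hne : ∀ t : ℤ, b.eval t * (a.eval t ^ 2 - 4 * b.eval t) ≠ 0 ↔ ∀ j, vf F t j ≠ 0 := by
    intro t
    rw [hcev, mul_ne_zero_iff]
    constructor
    · rintro ⟨h1, h2⟩ j
      rw [hevb] at h1
      rw [hevc] at h2
      by_cases hj : cB j = true
      · exact prod_ne_zero_iff.1 (mul_ne_zero_iff.1 h1).2 j (mem_filter.2 ⟨mem_univ _, hj⟩)
      · have hj' : cB j = false := by simpa using hj
        exact prod_ne_zero_iff.1 (mul_ne_zero_iff.1 h2).2 j (mem_filter.2 ⟨mem_univ _, hj'⟩)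
    · intro h1
      rw [hevb, hevc]
      exact ⟨mul_ne_zero hβ (prod_ne_zero_iff.2 fun j _ => h1 j),
        mul_ne_zero hγ (prod_ne_zero_iff.2 fun j _ => h1 j)⟩
  set E : ℤ → ℝ := fun t => (Module.finrank ℤ (EI (a.eval t) (b.eval t)).toAffine.Point : ℕ) -
          |((om (b.eval t) : ℕ) : ℝ) - ((om (a.eval t ^ 2 - 4 * b.eval t) : ℕ) : ℝ)| with hE
  set R : ℤ → ℝ := fun t => if ∀ j, vf F t j ≠ 0 then (2 : ℝ) ^ (E t) else 0 with hRd
  have hR0 : ∀ t, 0 ≤ R t := fun t => by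
    rw [hRd]
    dsimp only
    split_ifs
    · exact Real.rpow_nonneg (by norm_num) _
    · exact le_rfl
  have hRB : RB2 cB F R := by
    refine ⟨β.natAbs + γ.natAbs + 2, fun z hz t y X k D hG hx hX hy hk => ?_⟩
    have h1 : R t = (2 : ℝ) ^ (E t) := if_pos hG.1
    rw [h1]
    have hp : ∀ p : ℕ, p.Prime → z < p → ¬ (p : ℤ) ∣ β ∧ ¬ (p : ℤ) ∣ γ := by
      intro p _ hzp
      constructor
      · intro h2
        have := Nat.le_of_dvd (Int.natAbs_pos.2 hβ) (Int.natCast_dvd.1 h2)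
        omega
      · intro h2
        have := Nat.le_of_dvd (Int.natAbs_pos.2 hγ) (Int.natCast_dvd.1 h2)
        omega
    have h3 := hRK J cB (a.eval t) β γ (vf F t) z y X k D (by omega) hG hβ hγ hp
      (by rw [← hevb, ← hevc, hcev]) hx hX hy hk
    rw [← hevb, ← hevc] at h3
    have h5 := pow_le_pow_left₀ (Real.rpow_nonneg (by norm_num) _) h3 2
    refine le_trans (le_of_eq ?_) (h5.trans (le_of_eq ?_))
    · rw [hE]
      dsimp only
      rw [hcev, ← Real.rpow_natCast, ← Real.rpow_mul (by norm_num)]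
      congr 1
      push_cast
      ring
    · have e16 : ∀ n : ℕ, (16 : ℝ) ^ n = (4 ^ n) ^ 2 := fun n => by
        rw [← pow_mul, mul_comm n 2, pow_mul]
        norm_num
      rw [e16, e16, e16, ← pow_mul (_ : ℝ) 2 k, mul_comm 2 k, pow_mul]
      ring
  have hMaj := fun c' : ℕ => avg2 hUp hBW hFr hEx hEx2 cB F hirr hdeg c'
  obtain ⟨C1, hC10, hC1⟩ := finI2 cB F R hirr hdeg hnd hR0 hRB hMaj ε hε
  have hfil : ∀ u v : ℤ, (Icc u v).filter
      (fun t : ℤ => b.eval t * (a.eval t ^ 2 - 4 * b.eval t) ≠ 0) =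
      (Icc u v).filter (fun t : ℤ => ∀ j, vf F t j ≠ 0) := fun u v =>
    filter_congr fun t _ => hne t
  have hsum1 : ∀ u v : ℤ, ∑ t ∈ (Icc u v).filter
      (fun t : ℤ => b.eval t * (a.eval t ^ 2 - 4 * b.eval t) ≠ 0), (2 : ℝ) ^ (E t) =
      ∑ t ∈ (Icc u v).filter (fun t : ℤ => ∀ j, vf F t j ≠ 0), R t := by
    intro u v
    rw [hfil]
    refine sum_congr rfl fun t ht => ?_
    exact (if_pos (mem_filter.1 ht).2).symm
  -- the number of prime factors
  choose CT hCT using fun j : J => hTK (F j) ε (hirr j) (hdeg j) hε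
  have hco : ∀ j l, ∃ B : ℕ, j ≠ l → ∀ p : ℕ, B < p → ∀ t : ℤ, (p : ℤ) ∣ (F j).eval t →
      ¬ (p : ℤ) ∣ (F l).eval t := by
    intro j l
    by_cases h1 : j = l
    · exact ⟨0, fun h' => absurd h1 h'⟩
    · obtain ⟨B, hB⟩ := large_nd (hirr j) (hdeg j) (hnd j l h1)
      exact ⟨B, fun _ => hB⟩
  choose Bc hBc using hco
  set z : ℕ := ∑ j, ∑ l, Bc j l with hz
  have hGd : ∀ t : ℤ, (∀ j, vf F t j ≠ 0) → Gd z (vf F t) := fun t ht =>
    ⟨ht, fun p hp hzp j l hjl h1 => by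
      have e2 : Bc j l ≤ ∑ l, Bc j l := le_sum_nat (fun l => Bc j l) l
      have e3 : ∑ l, Bc j l ≤ ∑ j, ∑ l, Bc j l := le_sum_nat (fun j => ∑ l, Bc j l) j
      exact hBc j l hjl p (by omega) t h1.1 h1.2⟩
  set C0 : ℝ := ((om β + om γ + 2 * (Fintype.card J * z) : ℕ) : ℝ) with hC0
  have hC00 : 0 ≤ C0 := Nat.cast_nonneg _
  have hcardB : (univ.filter (fun j : J => cB j = true)).card = nf b := by
    rw [← card_SF hb, card_eq_sum_ones, card_eq_sum_ones]
    have h1 := hprodB (Multiplicative ℕ) (fun _ => Multiplicative.ofAdd 1)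
    rw [← ofAdd_sum, ← ofAdd_sum] at h1
    exact Multiplicative.ofAdd.injective h1
  have hcardC : (univ.filter (fun j : J => cB j = false)).card = nf c := by
    rw [← card_SF hcs, card_eq_sum_ones, card_eq_sum_ones]
    have h1 := hprodC (Multiplicative ℕ) (fun _ => Multiplicative.ofAdd 1)
    rw [← ofAdd_sum, ← ofAdd_sum] at h1
    exact Multiplicative.ofAdd.injective h1
  -- pointwise bound for the difference
  have hpt : ∀ (L : ℝ) (t : ℤ), (∀ j, vf F t j ≠ 0) →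
      |((om (b.eval t) : ℕ) : ℝ) - ((om (c.eval t) : ℕ) : ℝ)| ≤
        |((nf b : ℕ) : ℝ) - ((nf c : ℕ) : ℝ)| * |L| +
          ∑ j, |((om (vf F t j) : ℕ) : ℝ) - L| + C0 := by
    intro L t ht
    have hG := hGd t ht
    have u1 := om_prod_le (univ.filter (fun j : J => cB j = true)) hβ ht
    have l1 := om_prod_ge (univ.filter (fun j : J => cB j = true)) hβ hG
    have u2 := om_prod_le (univ.filter (fun j : J => cB j = false)) hγ ht
    have l2 := om_prod_ge (univ.filter (fun j : J => cB j = false)) hγ hG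
    rw [← hevb] at u1 l1
    rw [← hevc] at u2 l2
    set SB : ℝ := ∑ j ∈ univ.filter (fun j : J => cB j = true), ((om (vf F t j) : ℕ) : ℝ) with hSB
    set SC : ℝ := ∑ j ∈ univ.filter (fun j : J => cB j = false), ((om (vf F t j) : ℕ) : ℝ) with hSC
    have u1' : ((om (b.eval t) : ℕ) : ℝ) ≤ om β + SB := by rw [hSB]; exact_mod_cast u1
    have l1' : SB ≤ ((Fintype.card J * z : ℕ) : ℝ) + ((om (b.eval t) : ℕ) : ℝ) := by
      rw [hSB]; exact_mod_cast l1
    have u2' : ((om (c.eval t) : ℕ) : ℝ) ≤ om γ + SC := by rw [hSC]; exact_mod_cast u2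
    have l2' : SC ≤ ((Fintype.card J * z : ℕ) : ℝ) + ((om (c.eval t) : ℕ) : ℝ) := by
      rw [hSC]; exact_mod_cast l2
    have hsB : SB = (nf b : ℝ) * L + ∑ j ∈ univ.filter (fun j : J => cB j = true),
        (((om (vf F t j) : ℕ) : ℝ) - L) := by
      rw [sum_sub_distrib, sum_const, hcardB, nsmul_eq_mul]
      ring
    have hsC : SC = (nf c : ℝ) * L + ∑ j ∈ univ.filter (fun j : J => cB j = false),
        (((om (vf F t j) : ℕ) : ℝ) - L) := by
      rw [sum_sub_distrib, sum_const, hcardC, nsmul_eq_mul]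
      ring
    have hall : ∑ j, |((om (vf F t j) : ℕ) : ℝ) - L| =
        ∑ j ∈ univ.filter (fun j : J => cB j = true), |((om (vf F t j) : ℕ) : ℝ) - L| +
        ∑ j ∈ univ.filter (fun j : J => cB j = false), |((om (vf F t j) : ℕ) : ℝ) - L| := by
      rw [← sum_filter_add_sum_filter_not univ (fun j : J => cB j = true)]
      congr 1
      refine sum_congr ?_ fun _ _ => rfl
      exact filter_congr fun j _ => by simp
    have a1 := abs_sum_le_sum_abs (fun j : J => ((om (vf F t j) : ℕ) : ℝ) - L)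
      (univ.filter (fun j : J => cB j = true))
    have a2 := abs_sum_le_sum_abs (fun j : J => ((om (vf F t j) : ℕ) : ℝ) - L)
      (univ.filter (fun j : J => cB j = false))
    rw [abs_le] at a1 a2
    have a3 : |((nf b : ℕ) : ℝ) * L - ((nf c : ℕ) : ℝ) * L| =
        |((nf b : ℕ) : ℝ) - ((nf c : ℕ) : ℝ)| * |L| := by
      rw [← sub_mul, abs_mul]
    have a4 := abs_le.1 (le_of_eq a3)
    have hC0' : C0 = (om β : ℝ) + om γ + 2 * ((Fintype.card J * z : ℕ) : ℝ) := by
      rw [hC0]; push_cast; ring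
    have p1 : (0 : ℝ) ≤ (om β : ℝ) := Nat.cast_nonneg _
    have p2 : (0 : ℝ) ≤ (om γ : ℝ) := Nat.cast_nonneg _
    have p3 : (0 : ℝ) ≤ ((Fintype.card J * z : ℕ) : ℝ) := Nat.cast_nonneg _
    rw [hall, abs_le]
    constructor <;> linarith [a1.1, a1.2, a2.1, a2.2, a4.1, a4.2]
  set CT' : ℝ := ∑ j, |CT j| with hCT'
  have hCT0 : 0 ≤ CT' := sum_nonneg fun _ _ => abs_nonneg _
  -- numerical facts
  have hll : ∀ X : ℕ, 3 ≤ X → 0.09 ≤ Real.log (Real.log X) := by
    intro X hX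
    have h3 : (3 : ℝ) ≤ X := by exact_mod_cast hX
    have hl3 : (1.0986 : ℝ) ≤ Real.log 3 := by
      rw [Real.le_log_iff_exp_le (by norm_num)]
      have he := Real.exp_one_lt_d9
      have h5 : Real.exp (1.0986 : ℝ) = Real.exp 1 * Real.exp 0.0986 := by
        rw [← Real.exp_add]; norm_num
      have h6 : Real.exp (0.0986 : ℝ) ≤ 1.103626 := by
        have := Real.exp_bound' (x := 0.0986) (by norm_num) (by norm_num) (n := 4) (by norm_num)
        refine this.trans ?_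
        simp [Finset.sum_range_succ, Nat.factorial]
        norm_num
      rw [h5]
      calc Real.exp 1 * Real.exp 0.0986 ≤ 2.7182818286 * 1.103626 := by
            have := Real.exp_pos (1 : ℝ)
            have := Real.exp_pos (0.0986 : ℝ)
            gcongr
        _ ≤ 3 := by norm_num
    have h4 : Real.log 3 ≤ Real.log X := Real.log_le_log (by norm_num) h3
    have h7 : (0.09 : ℝ) ≤ Real.log 1.0986 := by
      have := Real.one_sub_inv_le_log_of_pos (show (0 : ℝ) < 1.0986 by norm_num)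
      have h8 : (0.0897 : ℝ) ≤ 1 - (1.0986 : ℝ)⁻¹ := by norm_num
      rw [Real.le_log_iff_exp_le (by norm_num)]
      have := Real.exp_bound' (x := 0.09) (by norm_num) (by norm_num) (n := 4) (by norm_num)
      refine this.trans ?_
      simp [Finset.sum_range_succ, Nat.factorial]
      norm_num
    refine h7.trans (Real.log_le_log (by norm_num) (hl3.trans h4))
  set D0 : ℝ := |((nf b : ℕ) : ℝ) - ((nf c : ℕ) : ℝ)| with hD0
  have hD00 : 0 ≤ D0 := abs_nonneg _
  set K1 : ℝ := 2 * C1 + CT' + 2 * C0 with hK1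
  have hK10 : 0 ≤ K1 := by positivity
  refine ⟨C1 + (K1 / 0.3 + D0 * (1 / ε + 1)), fun X u v hX hu hv huv => ?_⟩
  have hX1 : 1 ≤ X := by omega
  have hXr : (1 : ℝ) ≤ X := by exact_mod_cast hX1
  have hXr3 : (3 : ℝ) ≤ X := by exact_mod_cast hX
  have huv1 : (1 : ℝ) ≤ (v : ℝ) - u := (Real.one_le_rpow hXr hε.le).trans huv
  have h1 := hC1 X u v hX1 hu hv huv
  rw [← hsum1] at h1
  set LL := Real.log (Real.log X) with hLL
  have hLL0 := hll X hX
  have hLLp : 0 < LL := by linarith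
  set Q := √LL with hQ
  have hQ0 : 0.3 ≤ Q := by
    rw [hQ]
    apply Real.le_sqrt_of_sq_le
    norm_num
    linarith
  have hQQ : Q * Q = LL := Real.mul_self_sqrt hLLp.le
  have hX2 : 0 ≤ K1 / 0.3 + D0 * (1 / ε + 1) := by positivity
  have hD1 : 0 ≤ D0 * (1 / ε + 1) := by positivity
  refine ⟨?_, ?_⟩
  · have h2 : C1 * ((v : ℝ) - u) ≤ (C1 + (K1 / 0.3 + D0 * (1 / ε + 1))) * ((v : ℝ) - u) := by
      refine mul_le_mul_of_nonneg_right ?_ (by linarith)
      linarith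
    exact h1.trans h2
  · set T := (Icc u v).filter (fun t : ℤ => b.eval t * (a.eval t ^ 2 - 4 * b.eval t) ≠ 0) with hT
    have hTmem : ∀ t ∈ T, ∀ j, vf F t j ≠ 0 := fun t ht => (hne t).1 (mem_filter.1 ht).2
    have hTcard : (T.card : ℝ) ≤ (v : ℝ) - u + 1 := by
      have h2 : T.card ≤ (Icc u v).card := card_le_card (filter_subset _ _)
      rw [Int.card_Icc] at h2
      have huvz : (1 : ℤ) ≤ v - u := by exact_mod_cast huv1
      have h3 : ((T.card : ℕ) : ℤ) ≤ v - u + 1 := by omega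
      exact_mod_cast h3
    have hptr : ∀ t ∈ T, ((Module.finrank ℤ (EI (a.eval t) (b.eval t)).toAffine.Point : ℕ) : ℝ) ≤
        (2 : ℝ) ^ (E t) + (D0 * LL + ∑ j, |((om (vf F t j) : ℕ) : ℝ) - LL| + C0) := by
      intro t ht
      have h2 := le_two_rpow (E t)
      have h3 := hpt LL t (hTmem t ht)
      rw [abs_of_pos hLLp] at h3
      have h4 : E t = (Module.finrank ℤ (EI (a.eval t) (b.eval t)).toAffine.Point : ℕ) -
          |((om (b.eval t) : ℕ) : ℝ) - ((om (a.eval t ^ 2 - 4 * b.eval t) : ℕ) : ℝ)| := rfl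
      rw [hcev] at h4
      rw [h4] at h2
      rw [h4]
      linarith
    have hTK1 : ∑ t ∈ T, ∑ j, |((om (vf F t j) : ℕ) : ℝ) - LL| ≤ CT' * ((v : ℝ) - u) * Q := by
      rw [sum_comm, hCT', sum_mul, sum_mul]
      refine sum_le_sum fun j _ => ?_
      have h2 := hCT j X u v hX hu hv huv
      have h3 : ∑ t ∈ T, |((om (vf F t j) : ℕ) : ℝ) - LL| ≤
          ∑ t ∈ (Icc u v).filter (fun t : ℤ => (F j).eval t ≠ 0),
            |((om ((F j).eval t) : ℕ) : ℝ) - Real.log (Real.log X)| := by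
        refine sum_le_sum_of_subset_of_nonneg ?_ fun _ _ _ => abs_nonneg _
        intro t ht
        rw [mem_filter]
        exact ⟨(mem_filter.1 ht).1, hTmem t ht j⟩
      refine h3.trans (h2.trans ?_)
      have h4 : CT j ≤ |CT j| := le_abs_self _
      have h5 : 0 ≤ (v : ℝ) - u := by linarith
      gcongr
    have hsum := sum_le_sum hptr
    rw [sum_add_distrib, sum_add_distrib, sum_add_distrib, sum_const, sum_const,
      nsmul_eq_mul, nsmul_eq_mul] at hsum
    have hw : 0 ≤ (v : ℝ) - u := by linarith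
    -- `loglog X ≤ (1 / ε) X ^ ε Q...`
    have hQX : Q ≤ (1 / ε + 1) * ((v : ℝ) - u) := by
      have e1 : LL ≤ Real.log X := by
        rw [hLL]
        have := Real.log_le_sub_one_of_pos (show 0 < Real.log X by
          apply Real.log_pos; linarith)
        linarith
      have e2 : Real.log X ≤ (X : ℝ) ^ ε / ε := Real.log_le_rpow_div (by linarith) hε
      have e3 : Q ≤ 1 + LL := by nlinarith
      have e4 : (X : ℝ) ^ ε / ε ≤ (1 / ε) * ((v : ℝ) - u) := by
        rw [div_eq_mul_one_div, mul_comm]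
        exact mul_le_mul_of_nonneg_left huv (by positivity)
      rw [add_mul, one_mul]
      linarith
    have f1 : (T.card : ℝ) * (D0 * LL) ≤ D0 * LL * ((v : ℝ) - u) +
        D0 * (1 / ε + 1) * Q * ((v : ℝ) - u) := by
      have e1 : (T.card : ℝ) * (D0 * LL) ≤ ((v : ℝ) - u + 1) * (D0 * LL) :=
        mul_le_mul_of_nonneg_right hTcard (by positivity)
      have e2 : D0 * LL ≤ D0 * (1 / ε + 1) * Q * ((v : ℝ) - u) := by
        calc D0 * LL = D0 * Q * Q := by rw [mul_assoc, hQQ]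
          _ ≤ D0 * Q * ((1 / ε + 1) * ((v : ℝ) - u)) :=
              mul_le_mul_of_nonneg_left hQX (by positivity)
          _ = _ := by ring
      calc _ ≤ _ := e1
        _ = D0 * LL * ((v : ℝ) - u) + D0 * LL := by ring
        _ ≤ _ := by linarith
    have f2 : (T.card : ℝ) * C0 ≤ 2 * C0 * ((v : ℝ) - u) := by
      calc (T.card : ℝ) * C0 ≤ ((v : ℝ) - u + 1) * C0 := mul_le_mul_of_nonneg_right hTcard hC00
        _ ≤ (2 * ((v : ℝ) - u)) * C0 := mul_le_mul_of_nonneg_right (by linarith) hC00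
        _ = _ := by ring
    have f3 : ∑ t ∈ T, (2 : ℝ) ^ (E t) ≤ 2 * C1 * ((v : ℝ) - u) := by
      have : 0 ≤ C1 * ((v : ℝ) - u) := by positivity
      linarith
    have f4 : 2 * C1 * ((v : ℝ) - u) + CT' * ((v : ℝ) - u) * Q + 2 * C0 * ((v : ℝ) - u) ≤
        K1 / 0.3 * Q * ((v : ℝ) - u) := by
      have g1 : (1 : ℝ) ≤ Q / 0.3 := by
        rw [one_le_div (by norm_num)]
        exact hQ0
      have g2 : 2 * C1 * ((v : ℝ) - u) ≤ 2 * C1 * ((v : ℝ) - u) * (Q / 0.3) :=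
        le_mul_of_one_le_right (by positivity) g1
      have g3 : 2 * C0 * ((v : ℝ) - u) ≤ 2 * C0 * ((v : ℝ) - u) * (Q / 0.3) :=
        le_mul_of_one_le_right (by positivity) g1
      have g4 : CT' * ((v : ℝ) - u) * Q ≤ CT' * ((v : ℝ) - u) * (Q / 0.3) := by
        refine mul_le_mul_of_nonneg_left ?_ (by positivity)
        rw [le_div_iff₀ (by norm_num)]
        linarith
      calc _ ≤ 2 * C1 * ((v : ℝ) - u) * (Q / 0.3) + CT' * ((v : ℝ) - u) * (Q / 0.3) +
            2 * C0 * ((v : ℝ) - u) * (Q / 0.3) := by linarith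
        _ = _ := by rw [hK1]; ring
    have f5 : (D0 * LL + (C1 + (K1 / 0.3 + D0 * (1 / ε + 1))) * Q) * ((v : ℝ) - u) =
        D0 * LL * ((v : ℝ) - u) + C1 * Q * ((v : ℝ) - u) + K1 / 0.3 * Q * ((v : ℝ) - u) +
        D0 * (1 / ε + 1) * Q * ((v : ℝ) - u) := by ring
    have f6 : 0 ≤ C1 * Q * ((v : ℝ) - u) := by positivity
    rw [f5]
    linarith

end Pool.Agent.L7h19.IS
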