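import Mathlib
import Pool.Agent.L7h19.IS.Main

/-!
# Project IS: all short intervals
-/

set_option autoImplicit false
set_option linter.unusedSectionVars false

namespace Pool.Agent.L7h19.IS

open Finset Polynomial Pool.Agent.W262.RK Pool.Agent.W307.RT Pool.Agent.L7h19.RJ
open Pool.Agent.L7h19.RP
open Pool.Agent.H474R2.PG (rho)

variable {J : Type} [Fintype J] [DecidableEq J]

theorem finI (cB : J → Bool) (f : J → ℤ[X]) (R : ℤ → ℝ) (hf : ∀ j, Irreducible (f j))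
    (hd : ∀ j, 0 < (f j).natDegree) (hnd : ∀ j l, j ≠ l → ¬ f j ∣ f l)
    (hR0 : ∀ t, 0 ≤ R t) (hR : RB cB f R)
    (hMaj : ∀ c : ℕ, ∃ z0 : ℕ, ∀ z, z0 ≤ z → ∃ C : ℝ, ∀ y, z < y →
      ∑ s ∈ Tup J z y, GR cB f s * ∏ j, gw 1 c (s j) ≤ C * (Real.log y) ^ (Fintype.card J))
    (ε : ℝ) (hε : 0 < ε) :
    ∃ C : ℝ, 0 ≤ C ∧ ∀ (X : ℕ) (u v : ℤ), 1 ≤ X → u.natAbs ≤ X → v.natAbs ≤ X →
      (X : ℝ) ^ ε ≤ (v : ℝ) - u →
      ∑ t ∈ (Icc u v).filter (fun t : ℤ => ∀ j, vf f t j ≠ 0), R t ≤ C * ((v : ℝ) - u) := by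
  classical
  set μ : ℕ := ⌈1 / ε⌉₊ with hμd
  have hμ1 : 1 ≤ μ := Nat.one_le_ceil_iff.2 (by positivity)
  have hμε : 1 / ε ≤ μ := Nat.le_ceil _
  obtain ⟨X0, B, hB0, hm⟩ := mainI cB f R hf hd hnd hR0 hR hMaj μ hμ1
  set X1 : ℕ := (X0 + 1) ^ μ with hX1
  set A2 : ℝ := ∑ t ∈ Icc (-(X1 : ℤ)) X1, R t with hA2
  have hA20 : 0 ≤ A2 := sum_nonneg fun t _ => hR0 t
  refine ⟨A2 + 2 * B, by positivity, fun X u v hX hu hv huv => ?_⟩
  have hXr : (1 : ℝ) ≤ X := by exact_mod_cast hX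
  have huv1 : (1 : ℝ) ≤ (v : ℝ) - u := (Real.one_le_rpow hXr hε.le).trans huv
  have huvz : (1 : ℤ) ≤ v - u := by exact_mod_cast huv1
  set H : ℕ := (v - u + 1).toNat with hH
  have hHz : (H : ℤ) = v - u + 1 := by rw [hH]; exact Int.toNat_of_nonneg (by omega)
  have hHr : (H : ℝ) = (v : ℝ) - u + 1 := by exact_mod_cast hHz
  have hH1 : (1 : ℝ) ≤ H := by rw [hHr]; linarith
  have hXH : X ≤ H ^ μ := by
    have h1 : (X : ℝ) ≤ (H : ℝ) ^ μ := by
      calc (X : ℝ) = ((X : ℝ) ^ ε) ^ (1 / ε) := by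
            rw [← Real.rpow_mul (by positivity), mul_one_div_cancel hε.ne', Real.rpow_one]
        _ ≤ (H : ℝ) ^ (1 / ε) := by
            refine Real.rpow_le_rpow (by positivity) ?_ (by positivity)
            rw [hHr]
            linarith
        _ ≤ (H : ℝ) ^ (μ : ℝ) := Real.rpow_le_rpow_of_exponent_le hH1 hμε
        _ = _ := Real.rpow_natCast _ _
    exact_mod_cast h1
  rcases Nat.lt_or_ge H X0 with hlt | hge
  · have hXX1 : X ≤ X1 := hXH.trans (Nat.pow_le_pow_left (by omega) _)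
    have h1 : ∑ t ∈ (Icc u v).filter (fun t : ℤ => ∀ j, vf f t j ≠ 0), R t ≤ A2 :=
      sum_le_sum_of_subset_of_nonneg ((filter_subset _ _).trans
        (Icc_subset_Icc (by omega) (by omega))) fun t _ _ => hR0 t
    calc _ ≤ A2 := h1
      _ ≤ A2 * ((v : ℝ) - u) := le_mul_of_one_le_right hA20 huv1
      _ ≤ _ := by
          have : 0 ≤ 2 * B * ((v : ℝ) - u) := by positivity
          rw [add_mul]
          linarith
  · have h1 := hm H (u - 1) hge (fun t ht => by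
      rw [mem_Icc] at ht
      refine le_trans ?_ hXH
      omega)
    have h2 : ∑ t ∈ (Icc u v).filter (fun t : ℤ => ∀ j, vf f t j ≠ 0), R t =
        ∑ t ∈ (Icc 1 H).filter (fun t : ℕ => ∀ j, vf f ((u - 1) + t) j ≠ 0), R ((u - 1) + t) := by
      symm
      refine sum_nbij (fun t : ℕ => (u - 1) + (t : ℤ)) ?_ ?_ ?_ ?_
      · intro t ht
        rw [mem_filter, mem_Icc] at ht ⊢
        exact ⟨by omega, ht.2⟩
      · intro t _ t' _ h
        simpa using h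
      · intro t ht
        rw [mem_coe, mem_filter, mem_Icc] at ht
        have e : (u - 1) + (((t - (u - 1)).toNat : ℕ) : ℤ) = t := by omega
        refine ⟨(t - (u - 1)).toNat, ?_, e⟩
        rw [mem_coe, mem_filter, mem_Icc, e]
        exact ⟨by omega, ht.2⟩
      · intro t _
        rfl
    rw [h2]
    refine h1.trans ?_
    have e1 : B * (H : ℝ) ≤ B * (2 * ((v : ℝ) - u)) := by
      refine mul_le_mul_of_nonneg_left ?_ hB0
      rw [hHr]
      linarith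
    have e2 : 0 ≤ A2 * ((v : ℝ) - u) := by positivity
    rw [add_mul]
    linarith

end Pool.Agent.L7h19.IS
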